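import Mathlib
import Pool.Agent.K9h23.Hom.Lim

/-!
Homogeneous entire functions and polynomials with prescribed degrees.
-/

set_option autoImplicit false

open Complex Set Metric
open scoped Real

namespace Pool.Agent.K9h23.Bnd

open Pool.Agent.K9h23.Hom (E nrm nrm_zero nrm_norm nrm_le smul_nrm nrm_meas Ho poly_growth sch
  gr_lip exp_one_le)

variable {m N : ℕ}

/-- homogeneous entire functions -/
structure Hm (k : ℕ) (u : E m → ℂ) : Prop where
  d : Differentiable ℂ u
  h : ∀ (c : ℂ) (z : E m), u (c • z) = c ^ k * u z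

theorem Hm.zero (k : ℕ) : Hm k (fun _ : E m => (0:ℂ)) := ⟨differentiable_const _, by simp⟩

theorem Hm.const (a : ℂ) : Hm 0 (fun _ : E m => a) := ⟨differentiable_const _, by simp⟩

theorem Hm.mul {k l : ℕ} {u v : E m → ℂ} (hu : Hm k u) (hv : Hm l v) :
    Hm (k + l) (fun z => u z * v z) :=
  ⟨hu.d.mul hv.d, fun c z => by rw [hu.h, hv.h, pow_add]; ring⟩

theorem Hm.smul {k : ℕ} {u : E m → ℂ} (hu : Hm k u) (a : ℂ) : Hm k (fun z => a * u z) :=
  ⟨hu.d.const_mul a, fun c z => by rw [hu.h]; ring⟩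

theorem Hm.add {k : ℕ} {u v : E m → ℂ} (hu : Hm k u) (hv : Hm k v) :
    Hm k (fun z => u z + v z) :=
  ⟨hu.d.add hv.d, fun c z => by rw [hu.h, hv.h]; ring⟩

/-- sums of homogeneous functions of degrees in `[s, t]` -/
def Gr (s t : ℕ) (R : E m → ℂ) : Prop :=
  ∃ c : ℕ → E m → ℂ, (∀ k, Hm k (c k)) ∧ ∀ z, R z = ∑ k ∈ Finset.Icc s t, c k z

theorem Gr.diff {s t : ℕ} {R : E m → ℂ} (h : Gr s t R) : Differentiable ℂ R := by
  obtain ⟨c, hc, hR⟩ := h
  have : R = fun z => ∑ k ∈ Finset.Icc s t, c k z := funext hR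
  rw [this]
  exact Differentiable.fun_sum fun k _ => (hc k).d

theorem Gr.congr {s t : ℕ} {R R' : E m → ℂ} (h : Gr s t R) (e : ∀ z, R' z = R z) :
    Gr s t R' := by
  obtain ⟨c, hc, hR⟩ := h
  exact ⟨c, hc, fun z => by rw [e, hR]⟩

theorem Gr.single {k s t : ℕ} {u : E m → ℂ} (hu : Hm k u) (hs : s ≤ k) (ht : k ≤ t) :
    Gr s t u := by
  classical
  refine ⟨fun i => if i = k then u else fun _ => 0, fun i => ?_, fun z => ?_⟩
  · beta_reduce
    split_ifs with h
    · rw [h]; exact hu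
    · exact Hm.zero i
  · have : ∀ i ∈ Finset.Icc s t, (if i = k then u else fun _ : E m => (0:ℂ)) z =
        if i = k then u z else 0 := fun i _ => by split_ifs <;> rfl
    rw [Finset.sum_congr rfl this, Finset.sum_ite_eq' (Finset.Icc s t) k, if_pos]
    exact Finset.mem_Icc.2 ⟨hs, ht⟩

theorem Gr.zero (s t : ℕ) : Gr s t (fun _ : E m => (0:ℂ)) :=
  ⟨fun _ _ => 0, fun k => Hm.zero k, fun z => by simp⟩

theorem Gr.add {s t : ℕ} {R R' : E m → ℂ} (h : Gr s t R) (h' : Gr s t R') :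
    Gr s t (fun z => R z + R' z) := by
  obtain ⟨c, hc, hR⟩ := h
  obtain ⟨c', hc', hR'⟩ := h'
  refine ⟨fun k z => c k z + c' k z, fun k => (hc k).add (hc' k), fun z => ?_⟩
  beta_reduce
  rw [hR, hR', Finset.sum_add_distrib]

theorem Gr.smul {s t : ℕ} {R : E m → ℂ} (h : Gr s t R) (a : ℂ) :
    Gr s t (fun z => a * R z) := by
  obtain ⟨c, hc, hR⟩ := h
  refine ⟨fun k z => a * c k z, fun k => (hc k).smul a, fun z => ?_⟩
  beta_reduce
  rw [hR, Finset.mul_sum]

theorem Gr.neg {s t : ℕ} {R : E m → ℂ} (h : Gr s t R) : Gr s t (fun z => -R z) :=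
  (h.smul (-1)).congr fun z => by ring

theorem Gr.sub {s t : ℕ} {R R' : E m → ℂ} (h : Gr s t R) (h' : Gr s t R') :
    Gr s t (fun z => R z - R' z) :=
  (h.add h'.neg).congr fun z => by ring

theorem Gr.sum {ι : Type*} {s t : ℕ} (T : Finset ι) {R : ι → E m → ℂ}
    (h : ∀ i ∈ T, Gr s t (R i)) : Gr s t (fun z => ∑ i ∈ T, R i z) := by
  classical
  induction T using Finset.induction_on with
  | empty => exact (Gr.zero s t).congr fun z => by simp
  | insert i T hi ih =>
    refine ((h i (Finset.mem_insert_self _ _)).add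
      (ih fun j hj => h j (Finset.mem_insert_of_mem hj))).congr fun z => ?_
    rw [Finset.sum_insert hi]

theorem Gr.mono {s t s' t' : ℕ} {R : E m → ℂ} (h : Gr s t R) (hs : s' ≤ s) (ht : t ≤ t') :
    Gr s' t' R := by
  obtain ⟨c, hc, hR⟩ := h
  refine (Gr.sum (Finset.Icc s t) (R := c) fun k hk => ?_).congr hR
  rw [Finset.mem_Icc] at hk
  exact Gr.single (hc k) (by omega) (by omega)

theorem Gr.mul {s t s' t' : ℕ} {R R' : E m → ℂ} (h : Gr s t R) (h' : Gr s' t' R') :
    Gr (s + s') (t + t') (fun z => R z * R' z) := by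
  obtain ⟨c, hc, hR⟩ := h
  obtain ⟨c', hc', hR'⟩ := h'
  have h1 : Gr (s + s') (t + t') (fun z => ∑ k ∈ Finset.Icc s t, ∑ l ∈ Finset.Icc s' t',
      c k z * c' l z) := by
    refine Gr.sum _ fun k hk => Gr.sum _ fun l hl => ?_
    rw [Finset.mem_Icc] at hk hl
    exact Gr.single ((hc k).mul (hc' l)) (by omega) (by omega)
  refine h1.congr fun z => ?_
  rw [hR, hR', Finset.sum_mul_sum]

theorem Gr.one : Gr 0 0 (fun _ : E m => (1:ℂ)) := Gr.single (Hm.const 1) le_rfl le_rfl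

theorem Gr.pow {s t : ℕ} {R : E m → ℂ} (h : Gr s t R) (K : ℕ) :
    Gr (K * s) (K * t) (fun z => R z ^ K) := by
  induction K with
  | zero =>
    simp only [pow_zero, zero_mul]
    exact Gr.one
  | succ K ih =>
    have h1 := ih.mul h
    have e1 : K * s + s = (K + 1) * s := by ring
    have e2 : K * t + t = (K + 1) * t := by ring
    rw [e1, e2] at h1
    exact h1.congr fun z => pow_succ _ _

/-- the order of vanishing at the origin -/
theorem Gr.schwarz {s t : ℕ} {R : E m → ℂ} (h : Gr s t R) {b : ℝ}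
    (hb : ∀ z, ‖z‖ ≤ 1 → ‖R z‖ ≤ b) {z : E m} (hz : ‖z‖ ≤ 1) : ‖R z‖ ≤ b * ‖z‖ ^ s := by
  obtain ⟨c, hc, hR⟩ := h
  set ψ : ℂ → ℂ := fun η => ∑ k ∈ Finset.Icc s t, η ^ (k - s) * c k (nrm z) with hψ
  have hψd : Differentiable ℂ ψ := by
    refine Differentiable.fun_sum fun k _ => ?_
    exact (differentiable_id.pow _).mul_const _
  have hrel : ∀ η : ℂ, R (η • nrm z) = η ^ s * ψ η := by
    intro η
    rw [hψ, hR, Finset.mul_sum]
    refine Finset.sum_congr rfl fun k hk => ?_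
    rw [Finset.mem_Icc] at hk
    rw [(hc k).h, ← mul_assoc, ← pow_add]
    congr 2
    omega
  have hmax : ∀ η : ℂ, ‖η‖ ≤ 1 → ‖ψ η‖ ≤ b := by
    intro η hη
    refine Complex.norm_le_of_forall_mem_frontier_norm_le (f := ψ) (U := ball (0:ℂ) 1) (C := b)
      isBounded_ball hψd.diffContOnCl (fun y hy => ?_) ?_
    · rw [frontier_ball (0:ℂ) one_ne_zero, mem_sphere_zero_iff_norm] at hy
      have h1 := hb (y • nrm z) (by rw [norm_smul, hy, one_mul]; exact nrm_le z)
      rw [hrel, norm_mul, norm_pow, hy, one_pow, one_mul] at h1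
      exact h1
    · rw [closure_ball (0:ℂ) one_ne_zero, mem_closedBall_zero_iff]
      exact hη
  have h1 := hrel (‖z‖ : ℂ)
  rw [smul_nrm] at h1
  rw [h1, norm_mul, norm_pow, Complex.norm_real, norm_norm, mul_comm]
  exact mul_le_mul_of_nonneg_right (hmax _ (by rw [Complex.norm_real, norm_norm]; exact hz))
    (by positivity)

/-- growth -/
theorem Gr.growth {s D : ℕ} {R : E m → ℂ} (h : Gr s D R) {b : ℝ}
    (hb : ∀ z, ‖z‖ ≤ 1 → ‖R z‖ ≤ b) (x : E m) : ‖R x‖ ≤ b * max 1 ‖x‖ ^ D := by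
  rcases le_or_gt ‖x‖ 1 with hx | hx
  · rw [max_eq_left hx, one_pow, mul_one]
    exact hb x hx
  · rw [max_eq_right hx.le]
    obtain ⟨c, hc, hR⟩ := h.mono (Nat.zero_le _) le_rfl
    have h1 : ∀ ζ : ℂ, R (ζ • nrm x) = ∑ k ∈ Finset.range (D + 1), ζ ^ k * c k (nrm x) := by
      intro ζ
      rw [hR, Nat.range_succ_eq_Icc_zero]
      exact Finset.sum_congr rfl fun k _ => (hc k).h ζ _
    have h2 := poly_growth (D := D) (c := fun k => c k (nrm x)) (M := b)
      (fun ζ hζ => by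
        rw [← h1]
        refine hb _ ?_
        rw [norm_smul, hζ, one_mul]
        exact nrm_le x) (ζ := (‖x‖ : ℂ)) (by rw [Complex.norm_real, norm_norm]; exact hx.le)
    rw [← h1, smul_nrm, Complex.norm_real, norm_norm] at h2
    exact h2

/-- homogeneity for unimodular factors is enough -/
theorem Hm.of_unit {k : ℕ} {u : E m → ℂ} (hd : Differentiable ℂ u)
    (h : ∀ (c : ℂ) (z : E m), ‖c‖ = 1 → u (c • z) = c ^ k * u z) : Hm k u := by
  have h1 : ∀ (c : ℂ) (z : E m), ‖c‖ ≤ 1 → u (c • z) = c ^ k * u z := by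
    intro c z hc
    have h2 : Differentiable ℂ (fun η : ℂ => u (η • z) - η ^ k * u z) :=
      (hd.comp (differentiable_id.smul_const z)).sub ((differentiable_id.pow _).mul_const _)
    have h3 := Complex.norm_le_of_forall_mem_frontier_norm_le
      (f := fun η : ℂ => u (η • z) - η ^ k * u z) (U := ball (0:ℂ) 1) (C := 0)
      isBounded_ball h2.diffContOnCl (fun y hy => by
        rw [frontier_ball (0:ℂ) one_ne_zero, mem_sphere_zero_iff_norm] at hy
        rw [h y z hy, sub_self, norm_zero]) (z := c) (by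
        rw [closure_ball (0:ℂ) one_ne_zero, mem_closedBall_zero_iff]
        exact hc)
    exact sub_eq_zero.1 (norm_le_zero_iff.1 h3)
  refine ⟨hd, fun c z => ?_⟩
  rcases le_or_gt ‖c‖ 1 with hc | hc
  · exact h1 c z hc
  · have hc0 : c ≠ 0 := by
      intro h0
      rw [h0, norm_zero] at hc
      linarith
    have h2 := h1 c⁻¹ (c • z) (by rw [norm_inv]; exact inv_le_one_of_one_le₀ hc.le)
    rw [smul_smul, inv_mul_cancel₀ hc0, one_smul, inv_pow] at h2
    rw [h2, ← mul_assoc, mul_inv_cancel₀ (pow_ne_zero _ hc0), one_mul]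

/-- the Lipschitz estimate in the nonisotropic metric -/
theorem Gr.lip {D : ℕ} (hD : 1 ≤ D) {R : E m → ℂ} (h : Gr 0 D R) {A : ℝ} (hA : 0 ≤ A)
    (hb : ∀ z, ‖z‖ ≤ 1 → ‖R z‖ ≤ A) {v z : E m} (hv : ‖v‖ = 1) (hz : ‖z‖ ≤ 1) :
    ‖R z - R v‖ ≤ 12 * A * Real.sqrt (D * ‖1 - (inner ℂ v z : ℂ)‖) := by
  set c : ℂ := inner ℂ v z with hc
  set τ : E m := z - c • v with hτ
  have hd := h.diff
  have hgr := h.growth hb
  have hD0 : (0:ℝ) < D := by exact_mod_cast hD
  have hsD : 0 < Real.sqrt D := Real.sqrt_pos.2 hD0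
  have hss : Real.sqrt D ^ 2 = D := Real.sq_sqrt hD0.le
  have horth : inner ℂ v τ = 0 := by
    rw [hτ, inner_sub_right, inner_smul_right, inner_self_eq_norm_sq_to_K, hv]
    simp [hc]
  have hpyth : ∀ t : ℂ, ‖c • v + t • τ‖ ^ 2 = ‖c‖ ^ 2 + ‖t‖ ^ 2 * ‖τ‖ ^ 2 := by
    intro t
    have h1 : inner ℂ (c • v) (t • τ) = 0 := by
      rw [inner_smul_left, inner_smul_right, horth, mul_zero, mul_zero]
    have h2 := norm_add_sq_eq_norm_sq_add_norm_sq_of_inner_eq_zero (𝕜 := ℂ) (c • v) (t • τ) h1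
    rw [sq, h2, norm_smul, norm_smul, hv]
    ring
  have hz2 : ‖c‖ ^ 2 + ‖τ‖ ^ 2 = ‖z‖ ^ 2 := by
    have h1 := hpyth 1
    rw [one_smul, hτ] at h1
    have h2 : c • v + (z - c • v) = z := by abel
    rw [h2] at h1
    rw [hτ]
    simp at h1
    linarith
  have hz3 : ‖z‖ ^ 2 ≤ 1 := pow_le_one₀ (norm_nonneg _) hz
  have hc1 : ‖c‖ ≤ 1 := by
    have : ‖c‖ ^ 2 ≤ 1 ^ 2 := by nlinarith [sq_nonneg ‖τ‖]
    exact le_of_sq_le_sq this (by norm_num)
  set x := ‖1 - c‖ with hx
  have hx0 : 0 ≤ x := norm_nonneg _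
  have hτ2 : ‖τ‖ ^ 2 ≤ 2 * x := by
    have h1 : 1 - ‖c‖ ≤ x := by
      have := norm_sub_norm_le (1:ℂ) c
      rwa [norm_one] at this
    have h2 : 1 - ‖c‖ ^ 2 ≤ 2 * (1 - ‖c‖) := by nlinarith [norm_nonneg c]
    linarith
  have hτ3 : Real.sqrt D * ‖τ‖ ≤ Real.sqrt 2 * Real.sqrt (D * x) := by
    have h1 : Real.sqrt D * ‖τ‖ ≤ Real.sqrt (D * (2 * x)) := by
      apply Real.le_sqrt_of_sq_le
      rw [mul_pow, hss]
      exact mul_le_mul_of_nonneg_left hτ2 hD0.le
    refine h1.trans (le_of_eq ?_)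
    rw [← Real.sqrt_mul (by norm_num)]
    congr 1
    ring
  have hs2 : Real.sqrt 2 ≤ 3 / 2 := by
    rw [Real.sqrt_le_left (by norm_num)]
    norm_num
  -- the transversal part
  have hT : ‖R z - R (c • v)‖ ≤ 4 * A * (Real.sqrt D * ‖τ‖) := by
    rcases le_or_gt 1 (Real.sqrt D * ‖τ‖) with h1 | h1
    · have h2 : ‖R z - R (c • v)‖ ≤ 2 * A := by
        refine (norm_sub_le _ _).trans ?_
        have h3 := hb z hz
        have h4 := hb (c • v) (by rw [norm_smul, hv, mul_one]; exact hc1)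
        linarith
      have h3 : 0 ≤ A * (Real.sqrt D * ‖τ‖ - 1) := mul_nonneg hA (by linarith)
      nlinarith
    · by_cases hτ0 : τ = 0
      · have h2 : z = c • v := by rw [hτ] at hτ0; exact sub_eq_zero.1 hτ0
        have h3 : R z = R (c • v) := by rw [← h2]
        rw [h3, sub_self, norm_zero]
        positivity
      have hd' : 0 < ‖τ‖ := norm_pos_iff.2 hτ0
      set ρ : ℝ := 1 / (Real.sqrt D * ‖τ‖) with hρ
      have hρ1 : 1 < ρ := by
        rw [hρ, lt_div_iff₀ (by positivity)]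
        linarith
      have h2 := sch (φ := fun t => R (c • v + t • τ)) (M := 2 * A) (R := ρ) (by
        exact hd.comp ((differentiable_id.smul_const τ).const_add (c • v))) hρ1
        (fun t ht => by
          refine (hgr _).trans ?_
          rw [mul_comm 2 A]
          refine mul_le_mul_of_nonneg_left ?_ hA
          have h3 : ‖c • v + t • τ‖ ^ 2 ≤ 1 + 1 / D := by
            rw [hpyth]
            have h4 : ‖t‖ * ‖τ‖ ≤ ρ * ‖τ‖ := mul_le_mul_of_nonneg_right ht.le hd'.le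
            have h5 : ρ * ‖τ‖ = 1 / Real.sqrt D := by rw [hρ]; field_simp
            rw [h5] at h4
            have h6 : (‖t‖ * ‖τ‖) ^ 2 ≤ (1 / Real.sqrt D) ^ 2 :=
              pow_le_pow_left₀ (by positivity) h4 2
            have h7 : (1 / Real.sqrt D) ^ 2 = 1 / D := by rw [div_pow, one_pow, hss]
            rw [h7, mul_pow] at h6
            have h8 : ‖c‖ ^ 2 ≤ 1 := by nlinarith [sq_nonneg ‖τ‖]
            linarith
          have h4 : max 1 ‖c • v + t • τ‖ ≤ Real.exp (1 / (2 * D)) := by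
            refine max_le (Real.one_le_exp (by positivity)) ?_
            have h5 : ‖c • v + t • τ‖ ^ 2 ≤ Real.exp (1 / (2 * D)) ^ 2 := by
              rw [← Real.exp_nat_mul]
              have h6 := Real.add_one_le_exp (1 / (D:ℝ))
              have h7 : ((2:ℕ):ℝ) * (1 / (2 * D)) = 1 / D := by push_cast; field_simp
              rw [h7]
              linarith
            exact le_of_sq_le_sq h5 (Real.exp_pos _).le
          refine (pow_le_pow_left₀ (by positivity) h4 D).trans ?_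
          rw [← Real.exp_nat_mul]
          have h5 : (D:ℝ) * (1 / (2 * D)) = 1 / 2 := by field_simp
          rw [h5]
          have h6 : Real.exp (1 / 2) ^ 2 ≤ 2 ^ 2 := by
            rw [← Real.exp_nat_mul]
            have : ((2:ℕ):ℝ) * (1 / 2) = 1 := by norm_num
            rw [this]
            linarith [exp_one_le]
          exact le_of_sq_le_sq h6 (by norm_num))
      simp only [one_smul, zero_smul, add_zero] at h2
      have h3 : c • v + τ = z := by rw [hτ]; abel
      rw [h3] at h2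
      refine h2.trans (le_of_eq ?_)
      rw [hρ]
      field_simp
      ring
  -- the radial part
  have hcv : ‖c • v‖ ≤ 1 := by rw [norm_smul, hv, mul_one]; exact hc1
  have hS : ‖R (c • v) - R v‖ ≤ 4 * A * Real.sqrt (D * x) := by
    have h1 := gr_lip hD hA hd hgr hcv hv.le
    have h2 : ‖c • v - v‖ = x := by
      have : c • v - v = (c - 1) • v := by rw [sub_smul, one_smul]
      rw [this, norm_smul, hv, mul_one, norm_sub_rev]
    rw [h2] at h1
    have h3 : ‖R (c • v) - R v‖ ≤ 2 * A := by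
      refine (norm_sub_le _ _).trans ?_
      have h3 := hb (c • v) hcv
      have h4 := hb v hv.le
      linarith
    have h4 : ‖R (c • v) - R v‖ ^ 2 ≤ (4 * A * Real.sqrt (D * x)) ^ 2 := by
      rw [mul_pow, Real.sq_sqrt (by positivity)]
      have h5 := norm_nonneg (R (c • v) - R v)
      have h6 : ‖R (c • v) - R v‖ * ‖R (c • v) - R v‖ ≤ (6 * A * D * x) * (2 * A) :=
        mul_le_mul h1 h3 h5 (by positivity)
      have h7 : 0 ≤ A ^ 2 * (D * x) := by positivity
      nlinarith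
    exact le_of_sq_le_sq h4 (by positivity)
  have e1 : R z - R v = (R z - R (c • v)) + (R (c • v) - R v) := by ring
  rw [e1]
  refine (norm_add_le _ _).trans ((add_le_add hT hS).trans ?_)
  have h1 : 4 * A * (Real.sqrt D * ‖τ‖) ≤ 4 * A * (3 / 2 * Real.sqrt (D * x)) := by
    refine mul_le_mul_of_nonneg_left (hτ3.trans ?_) (by positivity)
    exact mul_le_mul_of_nonneg_right hs2 (Real.sqrt_nonneg _)
  have h2 : 0 ≤ A * Real.sqrt (D * x) := by positivity
  nlinarith

end Pool.Agent.K9h23.Bnd
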