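import Mathlib

/-!
Multipliers of de la Vallée-Poussin type and the bound of the corresponding kernels.
-/

set_option autoImplicit false

open Complex Set Finset
open scoped Real Nat

namespace Pool.Agent.K9h23.Bnd

/-- the multiplier of de la Vallée-Poussin: `1` on `[0, M]`, `0` on `[2M, ∞)` -/
noncomputable def vp (M k : ℕ) : ℝ :=
  (∑ i ∈ Finset.range M, if k ≤ M + i then (1:ℝ) else 0) / M

theorem vp_nonneg (M k : ℕ) : 0 ≤ vp M k := by
  unfold vp
  apply div_nonneg _ (Nat.cast_nonneg _)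
  exact Finset.sum_nonneg fun i _ => by split_ifs <;> norm_num

theorem vp_le_one (M k : ℕ) : vp M k ≤ 1 := by
  unfold vp
  rcases Nat.eq_zero_or_pos M with h | h
  · rw [h]; simp
  · have hM : (0:ℝ) < M := by exact_mod_cast h
    rw [div_le_one hM]
    refine (Finset.sum_le_card_nsmul _ _ 1 fun i _ => by split_ifs <;> norm_num).trans
      (le_of_eq ?_)
    rw [nsmul_eq_mul, mul_one, Finset.card_range]

theorem vp_one {M k : ℕ} (hM : 1 ≤ M) (hk : k ≤ M) : vp M k = 1 := by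
  unfold vp
  have hM0 : (M:ℝ) ≠ 0 := by have : 0 < M := hM; positivity
  rw [div_eq_one_iff_eq hM0]
  rw [Finset.sum_congr rfl (g := fun _ => (1:ℝ)) fun i _ => if_pos (by omega)]
  simp

theorem vp_zero {M k : ℕ} (hk : 2 * M ≤ k) : vp M k = 0 := by
  unfold vp
  rw [Finset.sum_eq_zero fun i hi => if_neg (by rw [Finset.mem_range] at hi; omega), zero_div]

theorem vp_sum {M n : ℕ} (hM : 1 ≤ M) (hn : 2 * M ≤ n) (x : ℂ) :
    (1 - x) ^ 2 * ∑ k ∈ Finset.range n, (vp M k : ℂ) * x ^ k =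
      (1 - x) - x ^ (M + 1) * (1 - x ^ M) / M := by
  have hM0 : (M:ℂ) ≠ 0 := by
    have : 0 < M := hM
    exact_mod_cast this.ne'
  have h1 : ∑ k ∈ Finset.range n, (vp M k : ℂ) * x ^ k =
      (∑ i ∈ Finset.range M, ∑ k ∈ Finset.range (M + i + 1), x ^ k) / M := by
    have h2 : ∀ k, (vp M k : ℂ) * x ^ k =
        (∑ i ∈ Finset.range M, if k ≤ M + i then x ^ k else 0) / M := by
      intro k
      unfold vp
      push_cast
      rw [div_mul_eq_mul_div, Finset.sum_mul]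
      congr 1
      refine Finset.sum_congr rfl fun i _ => ?_
      split_ifs <;> simp
    simp_rw [h2]
    rw [← Finset.sum_div, Finset.sum_comm]
    congr 1
    refine Finset.sum_congr rfl fun i hi => ?_
    rw [Finset.mem_range] at hi
    rw [← Finset.sum_filter]
    congr 1
    ext k
    simp only [Finset.mem_filter, Finset.mem_range]
    omega
  have h3 : (1 - x) * ∑ i ∈ Finset.range M, ∑ k ∈ Finset.range (M + i + 1), x ^ k =
      M - x ^ (M + 1) * ∑ i ∈ Finset.range M, x ^ i := by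
    rw [Finset.mul_sum]
    have h4 : ∀ i ∈ Finset.range M, (1 - x) * ∑ k ∈ Finset.range (M + i + 1), x ^ k =
        1 - x ^ (M + 1) * x ^ i := by
      intro i _
      rw [mul_neg_geom_sum, ← pow_add]
      congr 2
      ring
    rw [Finset.sum_congr rfl h4, Finset.sum_sub_distrib, ← Finset.mul_sum]
    simp
  have h5 : (1 - x) * ∑ i ∈ Finset.range M, x ^ i = 1 - x ^ M := mul_neg_geom_sum x M
  rw [h1, mul_div_assoc', sq, mul_assoc, h3]
  field_simp
  linear_combination (-x ^ (M + 1)) * h5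

/-- the band multiplier: `1` on `[2M, M']`, supported in `(M, 2M')` -/
noncomputable def bb (M M' k : ℕ) : ℝ := vp M' k - vp M k

theorem bb_abs (M M' k : ℕ) : |bb M M' k| ≤ 1 := by
  unfold bb
  rw [abs_le]
  have h1 := vp_nonneg M k
  have h2 := vp_le_one M k
  have h3 := vp_nonneg M' k
  have h4 := vp_le_one M' k
  constructor <;> linarith

theorem bb_low {M M' k : ℕ} (hM : 1 ≤ M) (hMM : M ≤ M') (hk : k ≤ M) : bb M M' k = 0 := by
  unfold bb
  rw [vp_one hM hk, vp_one (hM.trans hMM) (hk.trans hMM), sub_self]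

theorem bb_high {M M' k : ℕ} (hMM : M ≤ M') (hk : 2 * M' ≤ k) : bb M M' k = 0 := by
  unfold bb
  rw [vp_zero hk, vp_zero (by omega), sub_self]

theorem bb_one {M M' k : ℕ} (hM' : 1 ≤ M') (hk : 2 * M ≤ k) (hk' : k ≤ M') : bb M M' k = 1 := by
  unfold bb
  rw [vp_one hM' hk', vp_zero hk, sub_zero]

/-- the kernel -/
noncomputable def TT (M M' : ℕ) (v : ℂ) : ℂ :=
  ∑ k ∈ Finset.range (2 * M'), (bb M M' k : ℂ) * cexp (k * v)

theorem TT_sq {M M' : ℕ} (hM : 1 ≤ M) (hMM : M ≤ M') (v : ℂ) :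
    (1 - cexp v) ^ 2 * TT M M' v = cexp v ^ (M + 1) * (1 - cexp v ^ M) / M -
      cexp v ^ (M' + 1) * (1 - cexp v ^ M') / M' := by
  have h1 := vp_sum hM (n := 2 * M') (by omega) (cexp v)
  have h2 := vp_sum (hM.trans hMM) (n := 2 * M') le_rfl (cexp v)
  unfold TT
  have h3 : ∀ k : ℕ, (bb M M' k : ℂ) * cexp (k * v) =
      (vp M' k : ℂ) * cexp v ^ k - (vp M k : ℂ) * cexp v ^ k := by
    intro k
    unfold bb
    rw [← Complex.exp_nat_mul]
    push_cast
    ring
  simp_rw [h3]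
  rw [Finset.sum_sub_distrib, mul_sub, h1, h2]
  ring

/-- the derivatives -/
noncomputable def TD (m M M' : ℕ) (v : ℂ) : ℂ :=
  ∑ k ∈ Finset.range (2 * M'), (bb M M' k : ℂ) * (k:ℂ) ^ m * cexp (k * v)

theorem TD_hasDeriv (m M M' : ℕ) (v : ℂ) : HasDerivAt (TD m M M') (TD (m + 1) M M' v) v := by
  unfold TD
  refine HasDerivAt.fun_sum fun k _ => ?_
  have h1 : HasDerivAt (fun v : ℂ => (k:ℂ) * v) k v := by
    simpa using (hasDerivAt_id v).const_mul (k:ℂ)
  have h2 := (h1.cexp).const_mul ((bb M M' k : ℂ) * (k:ℂ) ^ m)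
  refine h2.congr_deriv ?_
  ring

theorem TD_iter (m M M' : ℕ) : iteratedDeriv m (TT M M') = TD m M M' := by
  induction m with
  | zero =>
    rw [iteratedDeriv_zero]
    funext v
    unfold TT TD
    simp
  | succ m ih =>
    rw [iteratedDeriv_succ, ih]
    funext v
    exact (TD_hasDeriv m M M' v).deriv

theorem TT_diff (M M' : ℕ) : Differentiable ℂ (TT M M') := by
  unfold TT
  fun_prop

theorem TT_bound1 {M M' : ℕ} (hM : 1 ≤ M) (hMM : M ≤ M') {v : ℂ} {ρ : ℝ} (hρ : 0 ≤ ρ)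
    (hv : v.re ≤ -ρ + 1 / M') : ‖TT M M' v‖ ≤ 2 * M' * Real.exp 2 * Real.exp (-(M * ρ)) := by
  have hM'0 : (0:ℝ) < M' := by exact_mod_cast (by omega : 0 < M')
  unfold TT
  refine (norm_sum_le _ _).trans ?_
  have h1 : ∀ k ∈ Finset.range (2 * M'), ‖(bb M M' k : ℂ) * cexp (k * v)‖ ≤
      Real.exp 2 * Real.exp (-(M * ρ)) := by
    intro k hk
    rw [Finset.mem_range] at hk
    rcases le_or_gt k M with h | h
    · rw [bb_low hM hMM h]
      simp
      positivity
    · rw [norm_mul, Complex.norm_real, Complex.norm_exp, Real.norm_eq_abs]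
      have h2 : ((k:ℂ) * v).re = k * v.re := by
        have : ((k:ℂ) * v) = ((k:ℝ):ℂ) * v := by push_cast; rfl
        rw [this, Complex.re_ofReal_mul]
      rw [h2]
      have hk0 : (0:ℝ) ≤ k := Nat.cast_nonneg _
      have h3 : (k:ℝ) * v.re ≤ 2 + -(M * ρ) := by
        have h4 : (k:ℝ) * v.re ≤ k * (-ρ + 1 / M') := mul_le_mul_of_nonneg_left hv hk0
        have h5 : (k:ℝ) * (1 / M') ≤ 2 := by
          rw [mul_one_div, div_le_iff₀ hM'0]
          exact_mod_cast hk.le
        have h6 : (M:ℝ) * ρ ≤ k * ρ := by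
          refine mul_le_mul_of_nonneg_right ?_ hρ
          exact_mod_cast h.le
        nlinarith
      calc |bb M M' k| * Real.exp (k * v.re) ≤ 1 * Real.exp (2 + -(M * ρ)) :=
            mul_le_mul (bb_abs _ _ _) (Real.exp_le_exp.2 h3) (Real.exp_pos _).le zero_le_one
        _ = _ := by rw [one_mul, Real.exp_add]
  refine (Finset.sum_le_card_nsmul _ _ _ h1).trans (le_of_eq ?_)
  rw [nsmul_eq_mul, Finset.card_range]
  push_cast
  ring

theorem TT_bound2 {M M' : ℕ} (hM : 1 ≤ M) (hMM : M ≤ M') {v : ℂ} {ρ : ℝ} (hρ : 0 ≤ ρ)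
    (hv : v.re ≤ -ρ + 1 / M') :
    ‖1 - cexp v‖ ^ 2 * ‖TT M M' v‖ ≤ 4 * Real.exp 3 * Real.exp (-(M * ρ)) / M := by
  have hM'0 : (0:ℝ) < M' := by exact_mod_cast (by omega : 0 < M')
  have hM0 : (0:ℝ) < M := by exact_mod_cast hM
  have hx : ∀ j : ℕ, M ≤ j → j ≤ 2 * M' + 1 →
      ‖cexp v ^ j‖ ≤ Real.exp 3 * Real.exp (-(M * ρ)) := by
    intro j h1 h2
    rw [← Complex.exp_nat_mul, Complex.norm_exp]
    have h3 : ((j:ℂ) * v).re = j * v.re := by
      have : ((j:ℂ) * v) = ((j:ℝ):ℂ) * v := by push_cast; rfl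
      rw [this, Complex.re_ofReal_mul]
    rw [h3, ← Real.exp_add]
    apply Real.exp_le_exp.2
    have hj0 : (0:ℝ) ≤ j := Nat.cast_nonneg _
    have h4 : (j:ℝ) * v.re ≤ j * (-ρ + 1 / M') := mul_le_mul_of_nonneg_left hv hj0
    have h5 : (j:ℝ) * (1 / M') ≤ 3 := by
      rw [mul_one_div, div_le_iff₀ hM'0]
      have : j ≤ 3 * M' := by omega
      exact_mod_cast this
    have h6 : (M:ℝ) * ρ ≤ j * ρ := by
      refine mul_le_mul_of_nonneg_right ?_ hρ
      exact_mod_cast h1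
    nlinarith
  set e : ℝ := Real.exp 3 * Real.exp (-(M * ρ)) with he
  have he0 : 0 ≤ e := by positivity
  rw [← norm_pow, ← norm_mul, TT_sq hM hMM]
  have h1 : ‖cexp v ^ (M + 1) * (1 - cexp v ^ M) / M‖ ≤ 2 * e / M := by
    rw [norm_div, Complex.norm_natCast]
    refine div_le_div_of_nonneg_right ?_ hM0.le
    have e1 : cexp v ^ (M + 1) * (1 - cexp v ^ M) = cexp v ^ (M + 1) - cexp v ^ (2 * M + 1) := by
      ring
    rw [e1]
    refine (norm_sub_le _ _).trans ?_
    have := hx (M + 1) (by omega) (by omega)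
    have := hx (2 * M + 1) (by omega) (by omega)
    linarith
  have h2 : ‖cexp v ^ (M' + 1) * (1 - cexp v ^ M') / M'‖ ≤ 2 * e / M := by
    rw [norm_div, Complex.norm_natCast]
    have h3 : ‖cexp v ^ (M' + 1) * (1 - cexp v ^ M')‖ ≤ 2 * e := by
      have e1 : cexp v ^ (M' + 1) * (1 - cexp v ^ M') =
          cexp v ^ (M' + 1) - cexp v ^ (2 * M' + 1) := by ring
      rw [e1]
      refine (norm_sub_le _ _).trans ?_
      have := hx (M' + 1) (by omega) (by omega)
      have := hx (2 * M' + 1) (by omega) (by omega)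
      linarith
    refine div_le_div₀ (by positivity) h3 hM0 ?_
    exact_mod_cast hMM
  refine (norm_sub_le _ _).trans ((add_le_add h1 h2).trans (le_of_eq ?_))
  rw [he]
  ring

theorem one_sub_exp_ge {v : ℂ} (hv : |v.im| ≤ π + 1) : |v.im| / 5 ≤ ‖1 - cexp v‖ := by
  set r := Real.exp v.re with hr
  set t := v.im with hht
  have hr0 : 0 < r := Real.exp_pos _
  have h1 : ‖1 - cexp v‖ ^ 2 = (1 - r * Real.cos t) ^ 2 + (r * Real.sin t) ^ 2 := by
    rw [Complex.sq_norm, Complex.normSq_apply, Complex.sub_re, Complex.sub_im, Complex.one_re,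
      Complex.one_im, Complex.exp_re, Complex.exp_im]
    ring
  have hsc := Real.sin_sq_add_cos_sq t
  have hpi := Real.pi_lt_d2
  have hpi3 := Real.pi_gt_three
  have htt0 := abs_nonneg t
  apply abs_le_of_sq_le_sq' _ (norm_nonneg _) |>.2
  rw [h1]
  rcases le_or_gt (Real.cos t) 0 with hc | hc
  · have h2 : (|t| / 5) ^ 2 ≤ 1 := by
      have : |t| / 5 ≤ 1 := by linarith
      nlinarith
    have h3 : 0 ≤ -(r * Real.cos t) := by nlinarith
    nlinarith [sq_nonneg (r * Real.sin t)]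
  · have h2 : |t| ≤ π / 2 := by
      by_contra hcon
      push Not at hcon
      have h3 := Real.cos_nonpos_of_pi_div_two_le_of_le hcon.le (by linarith)
      rw [Real.cos_abs] at h3
      linarith
    have h3 := Real.mul_abs_le_abs_sin h2
    have h4 : |t| / 5 ≤ |Real.sin t| := by
      refine le_trans ?_ h3
      have h5 : (1:ℝ) / 5 ≤ 2 / π := by
        rw [div_le_div_iff₀ (by norm_num) Real.pi_pos]
        linarith
      nlinarith
    have h5 : (|t| / 5) ^ 2 ≤ Real.sin t ^ 2 := by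
      rw [← sq_abs (Real.sin t)]
      exact pow_le_pow_left₀ (by positivity) h4 2
    have h6 : (1 - r * Real.cos t) ^ 2 + (r * Real.sin t) ^ 2 =
        (r - Real.cos t) ^ 2 + Real.sin t ^ 2 := by
      have : r ^ 2 * (Real.sin t ^ 2 + Real.cos t ^ 2) = r ^ 2 := by rw [hsc, mul_one]
      nlinarith
    rw [h6]
    nlinarith [sq_nonneg (r - Real.cos t)]

/-- **The kernel bound.** -/
theorem TD_bound (m : ℕ) {M M' : ℕ} (hM : 1 ≤ M) (hMM : M ≤ M') {ρ θ : ℝ} (hρ : 0 ≤ ρ)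
    (hθ : |θ| ≤ π) : ‖TD m M M' (-ρ + θ * I)‖ ≤
      (m ! * (500 * Real.exp 3)) * ((M':ℝ) / M) * ((M':ℝ) ^ (m + 1)) * Real.exp (-(M * ρ)) /
        (1 + (M' * θ) ^ 2) := by
  have hM'0 : (0:ℝ) < M' := by exact_mod_cast (by omega : 0 < M')
  have hM0 : (0:ℝ) < M := by exact_mod_cast hM
  have hM'1 : (1:ℝ) ≤ M' := by exact_mod_cast (by omega : 1 ≤ M')
  have hMMr : (M:ℝ) ≤ M' := by exact_mod_cast hMM
  have hr : (0:ℝ) < 1 / M' := by positivity
  have hκ : 1 ≤ (M':ℝ) / M := by rw [le_div_iff₀ hM0]; linarith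
  set u : ℂ := -ρ + θ * I with hu
  have hure : u.re = -ρ := by rw [hu]; simp
  have huim : u.im = θ := by rw [hu]; simp
  have key : ∀ C : ℝ, (∀ v ∈ Metric.sphere u (1 / M'), ‖TT M M' v‖ ≤ C) →
      ‖TD m M M' u‖ ≤ m ! * C * (M':ℝ) ^ m := by
    intro C hC
    have h1 := Complex.norm_iteratedDeriv_le_of_forall_mem_sphere_norm_le m hr
      (TT_diff M M').diffContOnCl hC
    rw [TD_iter] at h1
    refine h1.trans (le_of_eq ?_)
    rw [one_div, inv_pow, div_inv_eq_mul]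
  have hsph : ∀ v ∈ Metric.sphere u (1 / M'), v.re ≤ -ρ + 1 / M' ∧ |v.im - θ| ≤ 1 / M' := by
    intro v hv
    rw [mem_sphere_iff_norm] at hv
    have h1 := Complex.abs_re_le_norm (v - u)
    have h2 := Complex.abs_im_le_norm (v - u)
    rw [hv, Complex.sub_re, hure] at h1
    rw [hv, Complex.sub_im, huim] at h2
    refine ⟨?_, h2⟩
    have := (abs_le.1 h1).2
    linarith
  have hexp : Real.exp 2 ≤ Real.exp 3 := Real.exp_le_exp.2 (by norm_num)
  have hE := Real.exp_pos (-(M * ρ))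
  have hm0 : (0:ℝ) < m ! := by positivity
  have he3 : (0:ℝ) < Real.exp 3 := Real.exp_pos 3
  have hden : 0 < 1 + (M' * θ) ^ 2 := by positivity
  rcases lt_or_ge (|θ|) (2 / M') with h | h
  · have h1 := key _ (fun v hv => TT_bound1 hM hMM hρ (hsph v hv).1)
    refine h1.trans ?_
    have h2 : (M' * θ) ^ 2 ≤ 4 := by
      have h3 : |M' * θ| ≤ 2 := by
        rw [abs_mul, abs_of_pos hM'0]
        rw [lt_div_iff₀ hM'0] at h
        linarith
      rw [← sq_abs]
      nlinarith [abs_nonneg ((M':ℝ) * θ)]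
    rw [le_div_iff₀ hden]
    calc m ! * (2 * M' * Real.exp 2 * Real.exp (-(M * ρ))) * (M':ℝ) ^ m * (1 + (M' * θ) ^ 2)
        ≤ m ! * (2 * M' * Real.exp 3 * Real.exp (-(M * ρ))) * (M':ℝ) ^ m * (1 + 4) := by
          gcongr
      _ = (m ! * (10 * Real.exp 3)) * 1 * ((M':ℝ) ^ (m + 1)) * Real.exp (-(M * ρ)) := by ring
      _ ≤ (m ! * (500 * Real.exp 3)) * ((M':ℝ) / M) * ((M':ℝ) ^ (m + 1)) *
          Real.exp (-(M * ρ)) := by
          gcongr
          norm_num
  · have hθ0 : 0 < |θ| := lt_of_lt_of_le (by positivity) h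
    have hθne : θ ≠ 0 := abs_pos.1 hθ0
    have h1 := key (400 * Real.exp 3 * Real.exp (-(M * ρ)) / (M * θ ^ 2)) (fun v hv => by
      obtain ⟨h1, h2⟩ := hsph v hv
      have h3 := TT_bound2 hM hMM hρ h1
      have h4 : |θ| / 2 ≤ |v.im| := by
        have h5 : |θ| ≤ |v.im| + |v.im - θ| := by
          have := abs_sub_abs_le_abs_sub θ v.im
          rw [abs_sub_comm] at this
          linarith
        have h6 : 1 / (M':ℝ) ≤ |θ| / 2 := by
          rw [div_le_iff₀ hM'0] at h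
          rw [div_le_div_iff₀ hM'0 (by norm_num)]
          linarith
        linarith
      have h5 : |v.im| ≤ π + 1 := by
        have h6 : |v.im| ≤ |θ| + |v.im - θ| := by
          have := abs_sub_abs_le_abs_sub v.im θ
          linarith
        have h7 : 1 / (M':ℝ) ≤ 1 := by
          rw [div_le_one hM'0]; exact hM'1
        linarith
      have h6 := one_sub_exp_ge h5
      have h7 : |θ| / 10 ≤ ‖1 - cexp v‖ := by linarith
      have h8 : θ ^ 2 / 100 ≤ ‖1 - cexp v‖ ^ 2 := by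
        have h9 := pow_le_pow_left₀ (by positivity) h7 2
        rw [div_pow, sq_abs] at h9
        linarith
      rw [le_div_iff₀ (by positivity)]
      have h9 : θ ^ 2 / 100 * ‖TT M M' v‖ ≤ 4 * Real.exp 3 * Real.exp (-(M * ρ)) / M :=
        (mul_le_mul_of_nonneg_right h8 (norm_nonneg _)).trans h3
      rw [le_div_iff₀ hM0] at h9
      nlinarith)
    refine h1.trans ?_
    have hθ2 : 0 < θ ^ 2 := by rw [← sq_abs]; positivity
    have h2 : 4 ≤ (M' * θ) ^ 2 := by
      have h3 : 2 ≤ |M' * θ| := by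
        rw [abs_mul, abs_of_pos hM'0]
        rw [div_le_iff₀ hM'0] at h
        linarith
      rw [← sq_abs]
      nlinarith
    rw [le_div_iff₀ hden]
    have h3 : 1 + (M' * θ) ^ 2 ≤ 5 / 4 * (M' * θ) ^ 2 := by linarith
    calc m ! * (400 * Real.exp 3 * Real.exp (-(M * ρ)) / (M * θ ^ 2)) * (M':ℝ) ^ m *
          (1 + (M' * θ) ^ 2)
        ≤ m ! * (400 * Real.exp 3 * Real.exp (-(M * ρ)) / (M * θ ^ 2)) * (M':ℝ) ^ m *
          (5 / 4 * (M' * θ) ^ 2) := mul_le_mul_of_nonneg_left h3 (by positivity)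
      _ = (m ! * (500 * Real.exp 3)) * ((M':ℝ) / M) * ((M':ℝ) ^ (m + 1)) *
          Real.exp (-(M * ρ)) := by
          field_simp
          ring

end Pool.Agent.K9h23.Bnd
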