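import Mathlib
import Pool.Agent.K9h23.Bnd.Ker
import Pool.Agent.K9h23.Bnd.Gr

/-!
The operators: phase Fourier coefficients followed by the Fock projections.
-/

set_option autoImplicit false

open MeasureTheory Set Complex Metric
open scoped Real

namespace Pool.Agent.K9h23.Bnd

open Pool.Agent.K9h23.Hom

variable {m : ℕ}

/-- the phase Fourier coefficient -/
noncomputable def fc (k : ℕ) (X : E m → ℂ) (v : E m) : ℂ :=
  (2 * π : ℂ)⁻¹ * ∫ θ in (-π)..π, cexp (-(k * θ * I)) * X (cexp (θ * I) • v)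

/-- the component of degree `k` -/
noncomputable def cp (k : ℕ) (X : E m → ℂ) (w : E m) : ℂ := (‖w‖ : ℂ) ^ k * fc k X (nrm w)

/-- measurable functions, bounded on the closed ball -/
structure Bm (b : ℝ) (X : E m → ℂ) : Prop where
  meas : Measurable X
  bd : ∀ w, ‖w‖ ≤ 1 → ‖X w‖ ≤ b

theorem Bm.nonneg {b : ℝ} {X : E m → ℂ} (h : Bm b X) : 0 ≤ b :=
  (norm_nonneg _).trans (h.bd 0 (by simp))

theorem Bm.mono {b b' : ℝ} {X : E m → ℂ} (h : Bm b X) (hb : b ≤ b') : Bm b' X :=
  ⟨h.meas, fun w hw => (h.bd w hw).trans hb⟩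

theorem Bm.add {b b' : ℝ} {X Y : E m → ℂ} (h : Bm b X) (h' : Bm b' Y) :
    Bm (b + b') (fun w => X w + Y w) :=
  ⟨h.meas.add h'.meas, fun w hw => (norm_add_le _ _).trans (add_le_add (h.bd w hw) (h'.bd w hw))⟩

theorem Bm.mul {b b' : ℝ} {X Y : E m → ℂ} (h : Bm b X) (h' : Bm b' Y) :
    Bm (b * b') (fun w => X w * Y w) :=
  ⟨h.meas.mul h'.meas, fun w hw => by
    rw [norm_mul]
    exact mul_le_mul (h.bd w hw) (h'.bd w hw) (norm_nonneg _) h.nonneg⟩

theorem Bm.smul {b : ℝ} {X : E m → ℂ} (h : Bm b X) (a : ℂ) : Bm (‖a‖ * b) (fun w => a * X w) :=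
  ⟨h.meas.const_mul a, fun w hw => by
    rw [norm_mul]
    exact mul_le_mul_of_nonneg_left (h.bd w hw) (norm_nonneg _)⟩

theorem Bm.sum {ι : Type*} {b : ℝ} (T : Finset ι) {X : ι → E m → ℂ}
    (h : ∀ i ∈ T, Bm b (X i)) : Bm (T.card * b) (fun w => ∑ i ∈ T, X i w) := by
  classical
  induction T using Finset.induction_on with
  | empty => exact ⟨by simp, fun w _ => by simp⟩
  | insert i T hi ih =>
    have h1 := (h i (Finset.mem_insert_self _ _)).add
      (ih fun j hj => h j (Finset.mem_insert_of_mem hj))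
    simp only [Finset.sum_insert hi]
    refine h1.mono (le_of_eq ?_)
    rw [Finset.card_insert_of_notMem hi]
    push_cast
    ring

theorem Bm.const (a : ℂ) : Bm ‖a‖ (fun _ : E m => a) := ⟨measurable_const, fun _ _ => le_rfl⟩

theorem Gr.bm {s t : ℕ} {R : E m → ℂ} (h : Gr s t R) {b : ℝ}
    (hb : ∀ z, ‖z‖ ≤ 1 → ‖R z‖ ≤ b) : Bm b R := ⟨h.diff.continuous.measurable, hb⟩

theorem rot_le {v : E m} (hv : ‖v‖ ≤ 1) (θ : ℝ) : ‖cexp (θ * I) • v‖ ≤ 1 := by
  rw [norm_smul, Complex.norm_exp_ofReal_mul_I, one_mul]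
  exact hv

theorem norm_ph (k : ℕ) (θ : ℝ) : ‖cexp (-(k * θ * I))‖ = 1 := by
  have : -((k:ℂ) * θ * I) = ((-(k * θ) : ℝ) : ℂ) * I := by push_cast; ring
  rw [this, Complex.norm_exp_ofReal_mul_I]

theorem Bm.mphase {b : ℝ} {X : E m → ℂ} (h : Bm b X) (v : E m) :
    Measurable (fun θ : ℝ => X (cexp (θ * I) • v)) :=
  h.meas.comp (by fun_prop)

theorem Bm.ii {b : ℝ} {X : E m → ℂ} (h : Bm b X) {u : ℝ → ℂ} {c : ℝ} (hu : Measurable u)
    (huc : ∀ θ, ‖u θ‖ ≤ c) {v : E m} (hv : ‖v‖ ≤ 1) (α a1 a2 : ℝ) :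
    IntervalIntegrable (fun θ : ℝ => u θ * X (cexp ((θ + α : ℝ) * I) • v)) volume a1 a2 := by
  refine (intervalIntegrable_const (c := c * b)).mono_fun' ?_ ?_
  · refine (hu.mul ?_).aestronglyMeasurable
    exact (h.mphase v).comp (measurable_id.add_const α)
  · refine Filter.Eventually.of_forall fun θ => ?_
    beta_reduce
    rw [norm_mul]
    exact mul_le_mul (huc θ) (h.bd _ (rot_le hv _)) (norm_nonneg _)
      ((norm_nonneg _).trans (huc θ))

theorem Bm.ii0 {b : ℝ} {X : E m → ℂ} (h : Bm b X) (k : ℕ) {v : E m} (hv : ‖v‖ ≤ 1) (a1 a2 : ℝ) :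
    IntervalIntegrable (fun θ : ℝ => cexp (-(k * θ * I)) * X (cexp (θ * I) • v)) volume a1 a2 := by
  have := h.ii (u := fun θ : ℝ => cexp (-(k * θ * I))) (c := 1) (by fun_prop)
    (fun θ => (norm_ph k θ).le) hv 0 a1 a2
  simpa using this

theorem per_shift {g : ℝ → ℂ} (hg : Function.Periodic g (2 * π)) (α : ℝ) :
    ∫ θ in (-π)..π, g (θ + α) = ∫ θ in (-π)..π, g θ := by
  rw [intervalIntegral.integral_comp_add_right]
  have h1 := hg.intervalIntegral_add_eq (-π + α) (-π)
  have e1 : -π + α + 2 * π = π + α := by ring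
  have e2 : -π + 2 * π = π := by ring
  rw [e1, e2] at h1
  exact h1

theorem per_X (X : E m → ℂ) (v : E m) : Function.Periodic (fun θ : ℝ => X (cexp (θ * I) • v))
    (2 * π) := by
  intro θ
  beta_reduce
  have : cexp ((θ + 2 * π : ℝ) * I) = cexp (θ * I) := by
    push_cast
    rw [add_mul, Complex.exp_add, Complex.exp_two_pi_mul_I, mul_one]
  rw [this]

theorem exp_nat_two_pi (k : ℕ) : cexp (k * (2 * π * I)) = 1 := by
  rw [Complex.exp_nat_mul, Complex.exp_two_pi_mul_I, one_pow]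

theorem per_ph (k : ℕ) : Function.Periodic (fun θ : ℝ => cexp (-(k * θ * I))) (2 * π) := by
  intro θ
  beta_reduce
  have : -((k:ℂ) * ((θ + 2 * π : ℝ) : ℂ) * I) = -(k * θ * I) + -(k * (2 * π * I)) := by
    push_cast; ring
  rw [this, Complex.exp_add, Complex.exp_neg (k * (2 * π * I)), exp_nat_two_pi, inv_one, mul_one]

theorem fc_bd {b : ℝ} {X : E m → ℂ} (h : Bm b X) (k : ℕ) {v : E m} (hv : ‖v‖ ≤ 1) :
    ‖fc k X v‖ ≤ b := by
  unfold fc
  have h1 : ‖∫ θ in (-π)..π, cexp (-(k * θ * I)) * X (cexp (θ * I) • v)‖ ≤ b * |π - -π| := by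
    refine intervalIntegral.norm_integral_le_of_norm_le_const fun θ _ => ?_
    rw [norm_mul, norm_ph, one_mul]
    exact h.bd _ (rot_le hv θ)
  have hpi := Real.pi_pos
  have e1 : |π - -π| = 2 * π := by rw [abs_of_pos (by linarith)]; ring
  rw [e1] at h1
  rw [norm_mul, norm_inv]
  have e2 : ‖(2 * π : ℂ)‖ = 2 * π := by
    rw [norm_mul, Complex.norm_real, Real.norm_of_nonneg hpi.le]
    norm_num
  rw [e2]
  calc (2 * π)⁻¹ * _ ≤ (2 * π)⁻¹ * (b * (2 * π)) := mul_le_mul_of_nonneg_left h1 (by positivity)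
    _ = b := by field_simp

theorem fc_meas {b : ℝ} {X : E m → ℂ} (h : Bm b X) (k : ℕ) : Measurable (fc k X) := by
  unfold fc
  have hpi := Real.pi_pos
  have e : ∀ v : E m, ∫ θ in (-π)..π, cexp (-(k * θ * I)) * X (cexp (θ * I) • v) =
      ∫ θ in Ioc (-π) π, cexp (-(k * θ * I)) * X (cexp (θ * I) • v) := fun v =>
    intervalIntegral.integral_of_le (by linarith)
  simp_rw [e]
  refine Measurable.const_mul ?_ _
  have h1 : StronglyMeasurable (Function.uncurry fun (v : E m) (θ : ℝ) =>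
      cexp (-(k * θ * I)) * X (cexp (θ * I) • v)) := by
    refine Measurable.stronglyMeasurable ?_
    refine Measurable.mul ?_ ?_
    · fun_prop
    · refine h.meas.comp ?_
      have : Continuous (fun p : E m × ℝ => cexp (p.2 * I) • p.1) := by fun_prop
      exact this.measurable
  exact (h1.integral_prod_right (ν := volume.restrict (Ioc (-π) π))).measurable

theorem fc_phase (X : E m → ℂ) (k : ℕ) (v : E m) (α : ℝ) :
    fc k X (cexp (α * I) • v) = cexp (k * α * I) * fc k X v := by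
  unfold fc
  set g : ℝ → ℂ := fun θ => cexp (-(k * θ * I)) * X (cexp (θ * I) • v) with hg
  have hper : Function.Periodic g (2 * π) := (per_ph k).mul (per_X X v)
  have h1 := per_shift hper α
  have h2 : ∀ θ : ℝ, cexp (-(k * θ * I)) * X (cexp (θ * I) • cexp (α * I) • v) =
      cexp (k * α * I) * g (θ + α) := by
    intro θ
    rw [hg]
    simp only
    rw [smul_smul, ← Complex.exp_add]
    have e1 : (θ:ℂ) * I + α * I = ((θ + α : ℝ) : ℂ) * I := by push_cast; ring
    rw [e1, ← mul_assoc, ← Complex.exp_add]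
    congr 2
    push_cast
    ring
  simp_rw [h2]
  rw [intervalIntegral.integral_const_mul, h1]
  ring

theorem nrm_smul_unit {c : ℂ} (hc : ‖c‖ = 1) (w : E m) : nrm (c • w) = c • nrm w := by
  unfold nrm
  rw [norm_smul, hc, one_mul, smul_comm]

theorem cp_phase (X : E m → ℂ) (k : ℕ) {c : ℂ} (hc : ‖c‖ = 1) (w : E m) :
    cp k X (c • w) = c ^ k * cp k X w := by
  unfold cp
  rw [nrm_smul_unit hc, norm_smul, hc, one_mul]
  have h1 : c = cexp (c.arg * I) := by
    have := Complex.norm_mul_exp_arg_mul_I c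
    rw [hc, Complex.ofReal_one, one_mul] at this
    exact this.symm
  have h2 : fc k X (c • nrm w) = c ^ k * fc k X (nrm w) := by
    conv_lhs => rw [h1]
    rw [fc_phase]
    congr 1
    conv_rhs => rw [h1]
    rw [← Complex.exp_nat_mul]
    congr 1
    ring
  rw [h2]
  ring

theorem cp_Ad {b : ℝ} {X : E m → ℂ} (h : Bm b X) (k : ℕ) : Ad (k : ℝ) b (cp k X) := by
  refine ⟨?_, fun w => ?_⟩
  · unfold cp
    have h1 : Measurable (fun w : E m => (‖w‖ : ℂ) ^ k) := by fun_prop
    exact h1.mul ((fc_meas h k).comp nrm_meas)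
  · unfold cp
    rw [norm_mul, norm_pow, Complex.norm_real, norm_norm, mul_comm]
    exact mul_le_mul (fc_bd h k (nrm_le w)) (pow_le_om k w) (by positivity) h.nonneg

theorem ker_rot (s : ℝ) {c : ℂ} (hc : ‖c‖ = 1) (z w : E m) :
    Pool.Agent.K9h23.Hom.ker s (c • z) (c • w) = Pool.Agent.K9h23.Hom.ker s z w := by
  unfold Pool.Agent.K9h23.Hom.ker
  rw [norm_smul, hc, one_mul, inner_smul_left, inner_smul_right]
  have : (starRingEnd ℂ) c * (c * inner ℂ w z) = inner ℂ w z := by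
    rw [← mul_assoc, ← Complex.normSq_eq_conj_mul_self, Complex.normSq_eq_norm_sq, hc]
    simp
  rw [this]

theorem PiO_phase (s : ℝ) {G : E m → ℂ} {k : ℕ}
    (hG : ∀ (c : ℂ) (w : E m), ‖c‖ = 1 → G (c • w) = c ^ k * G w) {c : ℂ} (hc : ‖c‖ = 1)
    (z : E m) : PiO s G (c • z) = c ^ k * PiO s G z := by
  unfold PiO
  have h1 : c = cexp (c.arg * I) := by
    have := Complex.norm_mul_exp_arg_mul_I c
    rw [hc, Complex.ofReal_one, one_mul] at this
    exact this.symm
  have h2 := rot_int (m := m) c.arg (fun w => Pool.Agent.K9h23.Hom.ker s (c • z) w * G w)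
  rw [← h1] at h2
  rw [← h2]
  have h3 : ∀ w : E m, Pool.Agent.K9h23.Hom.ker s (c • z) (c • w) * G (c • w) =
      c ^ k * (Pool.Agent.K9h23.Hom.ker s z w * G w) := by
    intro w
    rw [ker_rot s hc, hG c w hc]
    ring
  simp_rw [h3]
  rw [integral_const_mul]
  ring

theorem PiO_Hm {b : ℝ} {X : E m → ℂ} (h : Bm b X) {k : ℕ} (hk : 1 ≤ k) :
    Hm k (PiO (k:ℝ) (cp k X)) := by
  have hk0 : (0:ℝ) < k := by exact_mod_cast hk
  refine Hm.of_unit (PiO_diff hk0 (cp_Ad h k)) fun c z hc => ?_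
  exact PiO_phase (k:ℝ) (fun c w hc => cp_phase X k hc w) hc z

/-- **The operators.** -/
noncomputable def TO (M M' : ℕ) (X : E m → ℂ) (z : E m) : ℂ :=
  ∑ k ∈ Finset.range (2 * M'), (bb M M' k : ℂ) * PiO (k:ℝ) (cp k X) z

theorem PiO_zero (s : ℝ) (z : E m) : PiO s (fun _ : E m => (0:ℂ)) z = 0 := by
  unfold PiO
  simp

theorem TO_gr {M M' : ℕ} (hM : 1 ≤ M) (hMM : M ≤ M') {b : ℝ} {X : E m → ℂ} (h : Bm b X)
    {s : ℕ} (hs : ∀ k, M < k → k < s → ∀ w, ‖w‖ = 1 → fc k X w = 0) :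
    Gr s (2 * M') (TO M M' X) := by
  unfold TO
  refine Gr.sum _ fun k hk => ?_
  rw [Finset.mem_range] at hk
  rcases le_or_gt k M with h1 | h1
  · refine (Gr.zero _ _).congr fun z => ?_
    rw [bb_low hM hMM h1]
    simp
  · rcases lt_or_ge k s with h2 | h2
    · refine (Gr.zero _ _).congr fun z => ?_
      have h3 : cp k X = fun _ : E m => (0:ℂ) := by
        funext w
        unfold cp
        by_cases hw : w = 0
        · rw [hw, norm_zero, Complex.ofReal_zero, zero_pow (by omega), zero_mul]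
        · rw [hs k h1 h2 _ (nrm_norm hw), mul_zero]
      rw [h3, PiO_zero, mul_zero]
    · exact Gr.single ((PiO_Hm h (by omega)).smul _) h2 (by omega)

theorem TO_congr {M M' : ℕ} (hM : 1 ≤ M) (hMM : M ≤ M') {X Y : E m → ℂ}
    (h : ∀ v, ‖v‖ = 1 → X v = Y v) (z : E m) : TO M M' X z = TO M M' Y z := by
  unfold TO
  refine Finset.sum_congr rfl fun k _ => ?_
  rcases le_or_gt k M with h1 | h1
  · rw [bb_low hM hMM h1]
    simp
  · have h2 : cp k X = cp k Y := by
      funext w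
      unfold cp
      by_cases hw : w = 0
      · rw [hw, norm_zero, Complex.ofReal_zero, zero_pow (by omega), zero_mul, zero_mul]
      · congr 1
        unfold fc
        congr 1
        refine intervalIntegral.integral_congr fun θ _ => ?_
        beta_reduce
        rw [h]
        rw [norm_smul, Complex.norm_exp_ofReal_mul_I, one_mul]
        exact nrm_norm hw
    rw [h2]

theorem fc_add {b b' : ℝ} {X Y : E m → ℂ} (h : Bm b X) (h' : Bm b' Y) (k : ℕ) {v : E m}
    (hv : ‖v‖ ≤ 1) : fc k (fun w => X w + Y w) v = fc k X v + fc k Y v := by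
  unfold fc
  rw [← mul_add, ← intervalIntegral.integral_add (h.ii0 k hv _ _) (h'.ii0 k hv _ _)]
  simp only [mul_add]

theorem fc_smul (X : E m → ℂ) (a : ℂ) (k : ℕ) (v : E m) :
    fc k (fun w => a * X w) v = a * fc k X v := by
  unfold fc
  have : ∀ θ : ℝ, cexp (-(k * θ * I)) * (a * X (cexp (θ * I) • v)) =
      a * (cexp (-(k * θ * I)) * X (cexp (θ * I) • v)) := fun θ => by ring
  simp_rw [this]
  rw [intervalIntegral.integral_const_mul]
  ring

theorem TO_add {M M' : ℕ} {b b' : ℝ} {X Y : E m → ℂ} (h : Bm b X) (h' : Bm b' Y)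
    (hM : 1 ≤ M) (hMM : M ≤ M') (z : E m) :
    TO M M' (fun w => X w + Y w) z = TO M M' X z + TO M M' Y z := by
  unfold TO
  rw [← Finset.sum_add_distrib]
  refine Finset.sum_congr rfl fun k _ => ?_
  rcases le_or_gt k M with h1 | h1
  · rw [bb_low hM hMM h1]
    simp
  · have hk0 : (0:ℝ) < k := by exact_mod_cast (by omega : 0 < k)
    have h2 : cp k (fun w => X w + Y w) = fun w => cp k X w + cp k Y w := by
      funext w
      unfold cp
      rw [fc_add h h' k (nrm_le w)]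
      ring
    rw [h2, PiO_add hk0 (cp_Ad h k) (cp_Ad h' k)]
    ring

theorem TO_smul (M M' : ℕ) (X : E m → ℂ) (a : ℂ) (z : E m) :
    TO M M' (fun w => a * X w) z = a * TO M M' X z := by
  unfold TO
  rw [Finset.mul_sum]
  refine Finset.sum_congr rfl fun k _ => ?_
  have h2 : cp k (fun w => a * X w) = fun w => a * cp k X w := by
    funext w
    unfold cp
    rw [fc_smul]
    ring
  rw [h2, PiO_mul]
  ring

theorem TO_zero (M M' : ℕ) (z : E m) : TO M M' (fun _ : E m => (0:ℂ)) z = 0 := by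
  have := TO_smul M M' (fun _ : E m => (0:ℂ)) 0 z
  simpa using this

theorem TO_sum {ι : Type*} {M M' : ℕ} {b : ℝ} (T : Finset ι) {X : ι → E m → ℂ}
    (h : ∀ i ∈ T, Bm b (X i)) (hM : 1 ≤ M) (hMM : M ≤ M') (z : E m) :
    TO M M' (fun w => ∑ i ∈ T, X i w) z = ∑ i ∈ T, TO M M' (X i) z := by
  classical
  induction T using Finset.induction_on with
  | empty => simp only [Finset.sum_empty]; exact TO_zero M M' z
  | insert i T hi ih =>
    simp only [Finset.sum_insert hi]
    rw [TO_add (h i (Finset.mem_insert_self _ _))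
      (Bm.sum T fun j hj => h j (Finset.mem_insert_of_mem hj)) hM hMM,
      ih fun j hj => h j (Finset.mem_insert_of_mem hj)]

theorem int_exp {j k : ℕ} (h : j ≠ k) : ∫ θ in (-π)..π, cexp ((((j:ℂ) - k) * I) * θ) = 0 := by
  have hc : ((j:ℂ) - k) * I ≠ 0 := by
    refine mul_ne_zero ?_ Complex.I_ne_zero
    rw [sub_ne_zero]
    exact_mod_cast h
  rw [integral_exp_mul_complex hc]
  have h1 : cexp (((j:ℂ) - k) * I * (π:ℝ)) = cexp (((j:ℂ) - k) * I * ((-π : ℝ) : ℂ)) := by
    rw [Complex.exp_eq_exp_iff_exists_int]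
    refine ⟨(j:ℤ) - k, ?_⟩
    push_cast
    ring
  rw [h1, sub_self, zero_div]

theorem fc_hom {j : ℕ} {u : E m → ℂ} (hu : Hm j u) (k : ℕ) (v : E m) :
    fc k u v = if j = k then u v else 0 := by
  unfold fc
  have h1 : ∀ θ : ℝ, cexp (-(k * θ * I)) * u (cexp (θ * I) • v) =
      u v * cexp ((((j:ℂ) - k) * I) * θ) := by
    intro θ
    rw [hu.h, ← Complex.exp_nat_mul, mul_comm (u v), ← mul_assoc, ← Complex.exp_add]
    congr 2
    ring
  simp_rw [h1]
  rw [intervalIntegral.integral_const_mul]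
  split_ifs with h
  · rw [h]
    have : ∀ θ : ℝ, cexp (((k:ℂ) - k) * I * θ) = 1 := fun θ => by simp
    simp_rw [this]
    have hpi : (π : ℂ) ≠ 0 := by exact_mod_cast Real.pi_ne_zero
    rw [intervalIntegral.integral_const]
    simp only [sub_neg_eq_add, Complex.real_smul, Complex.ofReal_add, mul_one]
    field_simp
    ring
  · rw [int_exp h]
    simp

theorem cp_hom {j : ℕ} {u : E m → ℂ} (hu : Hm j u) (k : ℕ) (w : E m) :
    cp k u w = if j = k then u w else 0 := by
  unfold cp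
  rw [fc_hom hu]
  split_ifs with h
  · rw [← h, ← hu.h, smul_nrm]
  · rw [mul_zero]

/-- homogeneous functions are bounded on the closed ball -/
theorem Hm.bm {k : ℕ} {u : E m → ℂ} (hu : Hm k u) : ∃ b, Bm b u := by
  obtain ⟨b, hb⟩ := (isCompact_closedBall (0 : E m) 1).exists_bound_of_continuousOn
    hu.d.continuous.continuousOn
  exact ⟨b, hu.d.continuous.measurable, fun w hw => hb w (by simpa using hw)⟩

theorem TO_hom {M M' k : ℕ} (hM : 1 ≤ M) (hMM : M ≤ M') {u : E m → ℂ} (hu : Hm k u) (z : E m) :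
    TO M M' u z = bb M M' k * u z := by
  unfold TO
  obtain ⟨b, hb⟩ := hu.bm
  have h1 : ∀ j ∈ Finset.range (2 * M'), (bb M M' j : ℂ) * PiO (j:ℝ) (cp j u) z =
      if j = k then (bb M M' k : ℂ) * u z else 0 := by
    intro j _
    rcases le_or_gt j M with h1 | h1
    · rw [bb_low hM hMM h1]
      split_ifs with h2
      · rw [← h2, bb_low hM hMM h1]; simp
      · simp
    · have hj0 : (0:ℝ) < j := by exact_mod_cast (by omega : 0 < j)
      split_ifs with h2
      · rw [h2] at hj0 ⊢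
        have h3 : cp k u = u := by funext w; rw [cp_hom hu, if_pos rfl]
        have h4 := cp_Ad hb k
        rw [h3] at h4 ⊢
        rw [PiO_repr hj0 hu.d h4]
      · have h3 : cp j u = fun _ => 0 := by
          funext w
          rw [cp_hom hu, if_neg (Ne.symm h2)]
        rw [h3, PiO_zero, mul_zero]
  rw [Finset.sum_congr rfl h1, Finset.sum_ite_eq' (Finset.range (2 * M')) k]
  split_ifs with h2
  · rfl
  · rw [Finset.mem_range, not_lt] at h2
    rw [bb_high hMM h2]
    simp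

/-- **The reproducing property.** -/
theorem TO_repr {M M' s t : ℕ} (hM : 1 ≤ M) (hMM : M ≤ M') (hs : 2 * M ≤ s) (ht : t ≤ M')
    {R : E m → ℂ} (hR : Gr s t R) (z : E m) : TO M M' R z = R z := by
  classical
  obtain ⟨c, hc, hR'⟩ := hR
  have h1 : R = fun w => ∑ k ∈ Finset.Icc s t, c k w := funext hR'
  choose b hb using fun k => (hc k).bm
  set b0 : ℝ := ∑ k ∈ Finset.Icc s t, b k with hb0
  have h2 : ∀ k ∈ Finset.Icc s t, Bm b0 (c k) := fun k hk =>
    (hb k).mono (Finset.single_le_sum (f := b) (fun i _ => (hb i).nonneg) hk)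
  rw [h1, TO_sum _ h2 hM hMM]
  refine Finset.sum_congr rfl fun k hk => ?_
  rw [Finset.mem_Icc] at hk
  rw [TO_hom hM hMM (hc k), bb_one (hM.trans hMM) (by omega) (by omega)]
  simp

theorem TO_tel {M M' M'' : ℕ} (hMM : M ≤ M') (hMM' : M' ≤ M'') (X : E m → ℂ)
    (z : E m) : TO M M' X z + TO M' M'' X z = TO M M'' X z := by
  unfold TO
  have h1 : ∑ k ∈ Finset.range (2 * M'), (bb M M' k : ℂ) * PiO (k:ℝ) (cp k X) z =
      ∑ k ∈ Finset.range (2 * M''), (bb M M' k : ℂ) * PiO (k:ℝ) (cp k X) z := by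
    refine Finset.sum_subset (Finset.range_mono (by omega)) fun k _ hk => ?_
    rw [Finset.mem_range, not_lt] at hk
    rw [bb_high hMM hk]
    simp
  rw [h1, ← Finset.sum_add_distrib]
  refine Finset.sum_congr rfl fun k _ => ?_
  rw [← add_mul]
  congr 1
  unfold bb
  push_cast
  ring

/-- vanishing of the coefficients of boundary values of holomorphic functions -/
theorem fc_hol {X : E m → ℂ} {v : E m} {s k : ℕ} (hk : k < s) {H : ℂ → ℂ}
    (hH : DiffContOnCl ℂ H (ball (0:ℂ) 1))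
    (hX : ∀ θ : ℝ, X (cexp (θ * I) • v) = cexp (θ * I) ^ s * H (cexp (θ * I))) :
    fc k X v = 0 := by
  unfold fc
  set F : ℂ → ℂ := fun l => l ^ (s - k) * H l with hF
  have hFd : DiffContOnCl ℂ F (ball (0:ℂ) |1|) := by
    rw [abs_one]
    have h1 : DiffContOnCl ℂ (fun l : ℂ => l ^ (s - k)) (ball (0:ℂ) 1) :=
      (differentiable_id.pow _).diffContOnCl
    exact h1.smul hH
  have h8 := hFd.circleAverage
  rw [Real.circleAverage_def] at h8
  have hF0 : F 0 = 0 := by
    rw [hF]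
    simp only
    rw [zero_pow (by omega), zero_mul]
  rw [hF0] at h8
  set g : ℝ → ℂ := fun θ => cexp (-(k * θ * I)) * X (cexp (θ * I) • v) with hg
  have hper : Function.Periodic g (2 * π) := (per_ph k).mul (per_X X v)
  have h9 : ∀ θ : ℝ, F (circleMap 0 1 θ) = g θ := by
    intro θ
    have e1 : circleMap 0 1 θ = cexp (θ * I) := by simp [circleMap]
    rw [e1, hF, hg]
    simp only
    rw [hX, ← mul_assoc]
    congr 1
    rw [← Complex.exp_nat_mul, ← Complex.exp_nat_mul, ← Complex.exp_add]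
    congr 1
    rw [Nat.cast_sub hk.le]
    ring
  have h10 : ∫ θ in (0:ℝ)..2 * π, g θ = 0 := by
    have h11 : ∫ θ in (0:ℝ)..2 * π, g θ = ∫ θ in (0:ℝ)..2 * π, F (circleMap 0 1 θ) :=
      intervalIntegral.integral_congr fun θ _ => (h9 θ).symm
    rw [h11]
    rcases smul_eq_zero.1 h8 with h12 | h12
    · exact absurd h12 (inv_ne_zero (by have := Real.pi_pos; positivity))
    · exact h12
  have h11 := hper.intervalIntegral_add_eq 0 (-π)
  have e2 : -π + 2 * π = π := by ring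
  rw [zero_add, e2, h10] at h11
  change (2 * π : ℂ)⁻¹ * ∫ θ in (-π)..π, g θ = 0
  rw [← h11, mul_zero]

end Pool.Agent.K9h23.Bnd
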