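import Mathlib
import Pool.Agent.K9h23.Bnd.Op

/-!
The localised bound of the operators.
-/

set_option autoImplicit false

open MeasureTheory Set Complex Metric
open scoped Real Nat

namespace Pool.Agent.K9h23.Bnd

open Pool.Agent.K9h23.Hom

variable {m : ℕ}

/-- the majorant -/
noncomputable def kap (t : ℝ) : ℝ := (1 + ‖t‖ ^ 2) ^ (-(3 / 2 : ℝ) / 2)

theorem kap_int : Integrable kap := by
  refine integrable_rpow_neg_one_add_norm_sq (μ := volume) (E := ℝ) (r := 3 / 2) ?_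
  simp
  norm_num

theorem kap_pos (t : ℝ) : 0 < kap t := by
  unfold kap
  positivity

theorem kap1 (t : ℝ) : 1 / (1 + t ^ 2) ≤ kap t := by
  unfold kap
  rw [Real.norm_eq_abs, sq_abs]
  have h1 : 1 ≤ 1 + t ^ 2 := by nlinarith [sq_nonneg t]
  rw [one_div, ← Real.rpow_neg_one]
  exact Real.rpow_le_rpow_of_exponent_le h1 (by norm_num)

theorem kap2 (t : ℝ) : Real.sqrt |t| / (1 + t ^ 2) ≤ kap t := by
  unfold kap
  rw [Real.norm_eq_abs, sq_abs]
  have h1 : 1 ≤ 1 + t ^ 2 := by nlinarith [sq_nonneg t]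
  have h0 : 0 < 1 + t ^ 2 := by linarith
  have h2 : Real.sqrt |t| ≤ (1 + t ^ 2) ^ (1 / 4 : ℝ) := by
    have h3 : Real.sqrt |t| = (t ^ 2) ^ (1 / 4 : ℝ) := by
      rw [← sq_abs t, Real.sqrt_eq_rpow, ← Real.rpow_natCast, ← Real.rpow_mul (abs_nonneg t)]
      norm_num
    rw [h3]
    exact Real.rpow_le_rpow (sq_nonneg t) (by linarith) (by norm_num)
  have h4 : (1 + t ^ 2) ^ (-(3 / 2 : ℝ) / 2) = (1 + t ^ 2) ^ (1 / 4 : ℝ) / (1 + t ^ 2) := by
    rw [← Real.rpow_sub_one h0.ne']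
    norm_num
  rw [h4]
  exact div_le_div_of_nonneg_right h2 h0.le

/-- the constant -/
noncomputable def JJ : ℝ := ∫ t, kap t

theorem JJ_nonneg : 0 ≤ JJ := integral_nonneg fun t => (kap_pos t).le

theorem kap_cont : Continuous kap := by
  unfold kap
  refine Continuous.rpow_const (by fun_prop) fun t => Or.inl ?_
  positivity

theorem kap_scale {M : ℝ} (hM : 0 < M) : ∫ θ in (-π)..π, M * kap (M * θ) ≤ JJ := by
  have hpi := Real.pi_pos
  rw [intervalIntegral.integral_const_mul, intervalIntegral.integral_comp_mul_left _ hM.ne',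
    smul_eq_mul, ← mul_assoc, mul_inv_cancel₀ hM.ne', one_mul,
    intervalIntegral.integral_of_le (by nlinarith)]
  exact setIntegral_le_integral kap_int (Filter.Eventually.of_forall fun t => (kap_pos t).le)

theorem exp_one_add (α : ℝ) : ‖cexp (-(α * I)) * (1 + α * I) - 1‖ ≤ 3 * α ^ 2 := by
  have h1 : cexp (-(α * I)) * (1 + α * I) - 1 = -(cexp (-(α * I)) * (cexp (α * I) - 1 - α * I)) := by
    have h2 : cexp (-(α * I)) * cexp (α * I) = 1 := by
      rw [← Complex.exp_add, neg_add_cancel, Complex.exp_zero]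
    linear_combination h2
  have h3 : ‖cexp (-(α * I))‖ = 1 := by
    have : -((α:ℂ) * I) = ((-α : ℝ) : ℂ) * I := by push_cast; ring
    rw [this, Complex.norm_exp_ofReal_mul_I]
  rw [h1, norm_neg, norm_mul, h3, one_mul]
  have h4 : ‖(α:ℂ) * I‖ = |α| := by
    rw [norm_mul, Complex.norm_I, mul_one, Complex.norm_real, Real.norm_eq_abs]
  rcases le_or_gt |α| 1 with h | h
  · have h5 := Complex.norm_exp_sub_one_sub_id_le (x := (α:ℂ) * I) (by rw [h4]; exact h)
    rw [h4, sq_abs] at h5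
    nlinarith [sq_nonneg α]
  · have h5 : ‖cexp (α * I) - 1 - α * I‖ ≤ 1 + 1 + |α| := by
      refine (norm_sub_le _ _).trans ?_
      rw [h4]
      have h6 := norm_sub_le (cexp (α * I)) 1
      rw [Complex.norm_exp_ofReal_mul_I, norm_one] at h6
      linarith
    have h6 : |α| ≤ |α| ^ 2 := by nlinarith
    have h7 : |α| ^ 2 = α ^ 2 := sq_abs α
    nlinarith

/-- **The geometric estimate.** -/
theorem geo {z w : E m} (hz : ‖z‖ ≤ 1) (hw : w ≠ 0) (θ : ℝ) :
    ‖1 - (inner ℂ (cexp ((θ + (inner ℂ w z : ℂ).im : ℝ) * I) • nrm w) z : ℂ)‖ ≤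
      |θ| + 32 * (‖w - z‖ ^ 2 + (1 - ‖z‖ ^ 2)) := by
  set p : ℂ := inner ℂ w z with hp
  set a := p.re with ha
  set α := p.im with hα
  set x := ‖w - z‖ with hx
  set y := 1 - ‖z‖ ^ 2 with hy
  have hx0 : 0 ≤ x := norm_nonneg _
  have hzn := norm_nonneg z
  have hy0 : 0 ≤ y := by
    have : ‖z‖ ^ 2 ≤ 1 := pow_le_one₀ hzn hz
    linarith
  have hy1 : y ≤ 1 := by nlinarith
  have hw0 : 0 < ‖w‖ := norm_pos_iff.2 hw
  have hvn : ‖cexp ((θ + α : ℝ) * I) • nrm w‖ = 1 := by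
    rw [norm_smul, Complex.norm_exp_ofReal_mul_I, one_mul, nrm_norm hw]
  rcases lt_or_ge ‖w‖ (1 / 2) with h | h
  · have h1 : ‖1 - (inner ℂ (cexp ((θ + α : ℝ) * I) • nrm w) z : ℂ)‖ ≤ 2 := by
      refine (norm_sub_le _ _).trans ?_
      have h2 := norm_inner_le_norm (𝕜 := ℂ) (cexp ((θ + α : ℝ) * I) • nrm w) z
      rw [hvn, one_mul] at h2
      rw [norm_one]
      linarith
    have h2 : ‖z‖ ≤ 1 / 2 + x := by
      have h3 : z = w - (w - z) := by abel
      have h4 := norm_sub_le w (w - z)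
      rw [← h3] at h4
      linarith
    have h3 : 1 / 16 ≤ x ^ 2 + y := by
      rcases le_or_gt (1 / 4) x with h4 | h4
      · nlinarith
      · nlinarith
    have := abs_nonneg θ
    linarith
  · have hpe : p = a + α * I := (Complex.re_add_im p).symm
    have hwz : p - inner ℂ z z = inner ℂ (w - z) z := by rw [hp, inner_sub_left]
    have hzz : (inner ℂ z z : ℂ) = ((‖z‖ ^ 2 : ℝ) : ℂ) := by
      rw [inner_self_eq_norm_sq_to_K]
      push_cast
      rfl
    have hcs : ‖(inner ℂ (w - z) z : ℂ)‖ ≤ x := by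
      refine (norm_inner_le_norm (𝕜 := ℂ) (w - z) z).trans ?_
      calc ‖w - z‖ * ‖z‖ ≤ x * 1 := mul_le_mul_of_nonneg_left hz hx0
        _ = x := mul_one x
    have hα1 : |α| ≤ x := by
      have h1 := Complex.abs_im_le_norm (inner ℂ (w - z) z : ℂ)
      rw [← hwz, hzz, Complex.sub_im, Complex.ofReal_im, sub_zero] at h1
      rw [← hwz, hzz] at hcs
      exact h1.trans hcs
    have ha1 : |a - ‖z‖ ^ 2| ≤ x := by
      have h1 := Complex.abs_re_le_norm (inner ℂ (w - z) z : ℂ)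
      rw [← hwz, hzz, Complex.sub_re, Complex.ofReal_re] at h1
      rw [← hwz, hzz] at hcs
      exact h1.trans hcs
    have ha2 : |a - 1| ≤ x + y := by
      have h1 : a - 1 = (a - ‖z‖ ^ 2) + (-(1 - ‖z‖ ^ 2)) := by ring
      rw [h1]
      refine (abs_add_le _ _).trans ?_
      rw [abs_neg, ← hy, abs_of_nonneg hy0]
      linarith
    -- `‖w‖ - a`
    have hnsq : x ^ 2 = ‖w‖ ^ 2 - 2 * a + ‖z‖ ^ 2 := by
      have h1 := norm_sub_sq (𝕜 := ℂ) w z
      rw [hx, h1]
      rfl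
    have hwa : ‖w‖ - a = (y - (1 - ‖w‖) ^ 2 + x ^ 2) / 2 := by
      rw [hnsq, hy]
      ring
    have hw1 : (1 - ‖w‖) ^ 2 ≤ 2 * x ^ 2 + 2 * y := by
      have h1 : |1 - ‖w‖| ≤ x + y := by
        have h2 : |‖w‖ - ‖z‖| ≤ x := abs_norm_sub_norm_le w z
        have h3 : 1 - ‖w‖ = -(‖w‖ - ‖z‖) + (1 - ‖z‖) := by ring
        rw [h3]
        refine (abs_add_le _ _).trans ?_
        rw [abs_neg, abs_of_nonneg (show 0 ≤ 1 - ‖z‖ by linarith)]
        have h4 : 1 - ‖z‖ ≤ y := by rw [hy]; nlinarith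
        linarith
      rw [← sq_abs]
      have h2 : |1 - ‖w‖| ^ 2 ≤ (x + y) ^ 2 := pow_le_pow_left₀ (abs_nonneg _) h1 2
      nlinarith [sq_nonneg (x - y)]
    have hwa' : |‖w‖ - a| ≤ x ^ 2 + y := by
      rw [hwa, abs_le]
      constructor
      · nlinarith
      · nlinarith [sq_nonneg (1 - ‖w‖)]
    have hca : ‖cexp (-(α * I)) * p - a‖ ≤ 5 * x ^ 2 + y := by
      have h1 : cexp (-(α * I)) * p - a = (cexp (-(α * I)) * (1 + α * I) - 1) +
          (cexp (-(α * I)) - 1) * ((a - 1 : ℝ) : ℂ) := by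
        rw [hpe]
        push_cast
        ring
      rw [h1]
      refine (norm_add_le _ _).trans ?_
      rw [norm_mul, Complex.norm_real, Real.norm_eq_abs]
      have h2 := exp_one_add α
      have h3 : ‖cexp (-(α * I)) - 1‖ ≤ |α| := by
        have h4 := Real.norm_exp_I_mul_ofReal_sub_one_le (x := -α)
        have h5 : I * ((-α : ℝ) : ℂ) = -(α * I) := by push_cast; ring
        rw [h5, Real.norm_eq_abs, abs_neg] at h4
        exact h4
      have h4 : ‖cexp (-(α * I)) - 1‖ * |a - 1| ≤ x * (x + y) :=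
        mul_le_mul (h3.trans hα1) ha2 (abs_nonneg _) hx0
      have h5 : α ^ 2 ≤ x ^ 2 := by
        rw [← sq_abs]
        exact pow_le_pow_left₀ (abs_nonneg _) hα1 2
      nlinarith [sq_nonneg (x - y)]
    have hinner : (inner ℂ (cexp ((θ + α : ℝ) * I) • nrm w) z : ℂ) =
        cexp (-(θ * I)) * (cexp (-(α * I)) * p / ‖w‖) := by
      unfold nrm
      rw [inner_smul_left, inner_smul_left, ← hp, ← Complex.exp_conj]
      have h1 : (starRingEnd ℂ) (((θ + α : ℝ) : ℂ) * I) = -(θ * I) + -(α * I) := by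
        rw [map_mul, Complex.conj_ofReal, Complex.conj_I]
        push_cast
        ring
      have h2 : (starRingEnd ℂ) ((‖w‖ : ℂ)⁻¹) = (‖w‖ : ℂ)⁻¹ := by
        rw [map_inv₀, Complex.conj_ofReal]
      rw [h1, h2, Complex.exp_add]
      field_simp
    rw [hinner]
    have h1 : (1:ℂ) - cexp (-(θ * I)) * (cexp (-(α * I)) * p / ‖w‖) =
        (1 - cexp (-(θ * I))) + cexp (-(θ * I)) * ((((‖w‖ - a : ℝ) : ℂ) -
          (cexp (-(α * I)) * p - a)) / ‖w‖) := by
      have hw' : (‖w‖ : ℂ) ≠ 0 := by exact_mod_cast hw0.ne'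
      push_cast
      field_simp
      ring
    rw [h1]
    refine (norm_add_le _ _).trans ?_
    have h2 : ‖1 - cexp (-(θ * I))‖ ≤ |θ| := by
      rw [norm_sub_rev]
      have h4 := Real.norm_exp_I_mul_ofReal_sub_one_le (x := -θ)
      have h5 : I * ((-θ : ℝ) : ℂ) = -(θ * I) := by push_cast; ring
      rw [h5, Real.norm_eq_abs, abs_neg] at h4
      exact h4
    have h3 : ‖cexp (-(θ * I))‖ = 1 := by
      have : -((θ:ℂ) * I) = ((-θ : ℝ) : ℂ) * I := by push_cast; ring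
      rw [this, Complex.norm_exp_ofReal_mul_I]
    have h4 : ‖cexp (-(θ * I)) * ((((‖w‖ - a : ℝ) : ℂ) -
          (cexp (-(α * I)) * p - a)) / ‖w‖)‖ ≤ 2 * (6 * x ^ 2 + 2 * y) := by
      rw [norm_mul, h3, one_mul, norm_div, Complex.norm_real, norm_norm, div_le_iff₀ hw0]
      refine (norm_sub_le _ _).trans ?_
      rw [Complex.norm_real, Real.norm_eq_abs]
      have h5 : 0 ≤ 6 * x ^ 2 + 2 * y := by positivity
      nlinarith
    nlinarith [sq_nonneg x]

theorem log_est {w : E m} (hw : w ≠ 0) (z : E m) :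
    (inner ℂ w z : ℂ).re - ‖w‖ ^ 2 + Real.log ‖w‖ ≤ -((‖w - z‖ ^ 2 + (1 - ‖z‖ ^ 2)) / 2) := by
  have hw0 : 0 < ‖w‖ := norm_pos_iff.2 hw
  have h1 : Real.log ‖w‖ ≤ (‖w‖ ^ 2 - 1) / 2 := by
    have h2 := Real.log_le_sub_one_of_pos (show 0 < ‖w‖ ^ 2 by positivity)
    rw [Real.log_pow] at h2
    push_cast at h2
    linarith
  have h3 := norm_sub_sq (𝕜 := ℂ) w z
  have h4 : ‖w - z‖ ^ 2 = ‖w‖ ^ 2 - 2 * (inner ℂ w z : ℂ).re + ‖z‖ ^ 2 := h3
  linarith

/-- the constant of the kernel bound -/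
noncomputable def K0 (m : ℕ) : ℝ := m ! * (500 * Real.exp 3)

theorem K0_pos (m : ℕ) : 0 < K0 m := by unfold K0; positivity

theorem TD_per (m M M' : ℕ) (v : ℂ) : TD m M M' (v - 2 * π * I) = TD m M M' v := by
  unfold TD
  refine Finset.sum_congr rfl fun k _ => ?_
  congr 1
  have h1 : (k:ℂ) * (v - 2 * π * I) = k * v + -(k * (2 * π * I)) := by ring
  rw [h1, Complex.exp_add, Complex.exp_neg (k * (2 * π * I)), exp_nat_two_pi, inv_one, mul_one]

/-- **The pointwise bound.** -/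
theorem ptw {M M' : ℕ} (hM : 1 ≤ M) (hMM : M ≤ M') {b b0 b1 : ℝ} {X : E m → ℂ} (h : Bm b X)
    (hb0 : 0 ≤ b0) (hb1 : 0 ≤ b1) {z : E m} (hz : ‖z‖ ≤ 1)
    (hX : ∀ v : E m, ‖v‖ = 1 → ‖X v‖ ≤ b0 + b1 * Real.sqrt ‖1 - (inner ℂ v z : ℂ)‖)
    {w : E m} (hw : w ≠ 0) :
    ‖∑ k ∈ Finset.range (2 * M'), (bb M M' k : ℂ) * ((k:ℂ) ^ m *
      (Pool.Agent.K9h23.Hom.ker (k:ℝ) z w * cp k X w))‖ ≤
      K0 m * ((M':ℝ) / M) * (M':ℝ) ^ m * JJ * (b0 + 7 * b1 / Real.sqrt M) *
        Real.exp (-((M:ℝ) / 4) * ‖w - z‖ ^ 2) := by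
  have hM'0 : (0:ℝ) < M' := by exact_mod_cast (by omega : 0 < M')
  have hM0 : (0:ℝ) < M := by exact_mod_cast hM
  have hMr : (M:ℝ) ≤ M' := by exact_mod_cast hMM
  have hpi := Real.pi_pos
  have hw0 : 0 < ‖w‖ := norm_pos_iff.2 hw
  set p : ℂ := inner ℂ w z with hp
  set x := ‖w - z‖ with hx
  set y := 1 - ‖z‖ ^ 2 with hy
  have hy0 : 0 ≤ y := by
    have : ‖z‖ ^ 2 ≤ 1 := pow_le_one₀ (norm_nonneg _) hz
    linarith
  set r : ℝ := p.re - ‖w‖ ^ 2 + Real.log ‖w‖ with hr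
  have hr1 : r ≤ -((x ^ 2 + y) / 2) := log_est hw z
  set g : ℝ → ℂ := fun θ => TD m M M' ((r:ℂ) + p.im * I - θ * I) * X (cexp (θ * I) • nrm w) with hg
  -- the sum is an integral
  have hsum : ∑ k ∈ Finset.range (2 * M'), (bb M M' k : ℂ) * ((k:ℂ) ^ m *
      (Pool.Agent.K9h23.Hom.ker (k:ℝ) z w * cp k X w)) =
      (2 * π : ℂ)⁻¹ * ∫ θ in (-π)..π, g θ := by
    have h1 : ∀ k : ℕ, Pool.Agent.K9h23.Hom.ker (k:ℝ) z w * (‖w‖ : ℂ) ^ k =
        cexp (k * ((r:ℂ) + p.im * I)) := by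
      intro k
      unfold Pool.Agent.K9h23.Hom.ker
      have h2 : (‖w‖ : ℂ) = cexp (Real.log ‖w‖ : ℝ) := by
        rw [← Complex.ofReal_exp, Real.exp_log hw0]
      conv_lhs =>
        rw [show (‖w‖ : ℂ) ^ k = cexp (Real.log ‖w‖ : ℝ) ^ k by rw [← h2]]
      rw [← Complex.exp_nat_mul, ← Complex.exp_add]
      congr 1
      rw [← hp, hr]
      push_cast
      have h3 : p = p.re + p.im * I := (Complex.re_add_im p).symm
      linear_combination (k:ℂ) * h3
    have h2 : ∀ k ∈ Finset.range (2 * M'), (bb M M' k : ℂ) * ((k:ℂ) ^ m *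
        (Pool.Agent.K9h23.Hom.ker (k:ℝ) z w * cp k X w)) = (2 * π : ℂ)⁻¹ *
        ∫ θ in (-π)..π, ((bb M M' k : ℂ) * (k:ℂ) ^ m * cexp (k * ((r:ℂ) + p.im * I))) *
          (cexp (-(k * θ * I)) * X (cexp (θ * I) • nrm w)) := by
      intro k _
      rw [intervalIntegral.integral_const_mul]
      unfold cp fc
      rw [← h1]
      ring
    rw [Finset.sum_congr rfl h2, ← Finset.mul_sum]
    congr 1
    rw [← intervalIntegral.integral_finsetSum fun k _ =>
      (h.ii0 k (nrm_le w) _ _).const_mul _]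
    refine intervalIntegral.integral_congr fun θ _ => ?_
    rw [hg]
    simp only
    unfold TD
    rw [Finset.sum_mul]
    refine Finset.sum_congr rfl fun k _ => ?_
    have h3 : cexp (k * ((r:ℂ) + p.im * I - θ * I)) =
        cexp (k * ((r:ℂ) + p.im * I)) * cexp (-(k * θ * I)) := by
      rw [← Complex.exp_add]
      congr 1
      ring
    rw [h3]
    ring
  -- the shift
  have hper : Function.Periodic g (2 * π) := by
    have h1 : Function.Periodic (fun θ : ℝ => TD m M M' ((r:ℂ) + p.im * I - θ * I)) (2 * π) := by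
      intro θ
      beta_reduce
      have : (r:ℂ) + p.im * I - ((θ + 2 * π : ℝ) : ℂ) * I =
          ((r:ℂ) + p.im * I - θ * I) - 2 * π * I := by push_cast; ring
      rw [this, TD_per]
    exact h1.mul (per_X X (nrm w))
  have hshift := per_shift hper p.im
  have hgs : ∀ θ : ℝ, g (θ + p.im) = TD m M M' (-((-r : ℝ) : ℂ) + ((-θ : ℝ) : ℂ) * I) *
      X (cexp ((θ + p.im : ℝ) * I) • nrm w) := by
    intro θ
    rw [hg]
    simp only
    congr 2
    push_cast
    ring
  have hsq0 : 0 < Real.sqrt M := Real.sqrt_pos.2 hM0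
  have hκ0 : 0 ≤ (M':ℝ) / M := by positivity
  set G : ℝ := K0 m * ((M':ℝ) / M) * (M':ℝ) ^ m * (b0 + 7 * b1 / Real.sqrt M) *
    Real.exp (-((M:ℝ) / 4) * x ^ 2) with hG
  have hG0 : 0 ≤ G := by
    have := (K0_pos m).le
    positivity
  have hbound : ∀ θ : ℝ, |θ| ≤ π → ‖g (θ + p.im)‖ ≤ G * (M' * kap (M' * θ)) := by
    intro θ hθ
    rw [hgs, norm_mul]
    have h1 := TD_bound m hM hMM (ρ := -r) (θ := -θ) (by nlinarith [sq_nonneg x])
      (by rw [abs_neg]; exact hθ)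
    have hv : ‖cexp ((θ + p.im : ℝ) * I) • nrm w‖ = 1 := by
      rw [norm_smul, Complex.norm_exp_ofReal_mul_I, one_mul, nrm_norm hw]
    have h2 := hX _ hv
    have h3 := geo hz hw θ
    rw [← hp, ← hx, ← hy] at h3
    set q := ‖1 - (inner ℂ (cexp ((θ + p.im : ℝ) * I) • nrm w) z : ℂ)‖ with hq
    have h4 : Real.sqrt q ≤ Real.sqrt |θ| + 6 * Real.sqrt (x ^ 2 + y) := by
      have h5 : 0 ≤ x ^ 2 + y := by positivity
      have h6 := Real.sqrt_nonneg |θ|
      have h7 := Real.sqrt_nonneg (x ^ 2 + y)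
      refine (Real.sqrt_le_sqrt h3).trans ?_
      rw [Real.sqrt_le_left (by positivity)]
      have h8 := Real.sq_sqrt (abs_nonneg θ)
      have h9 := Real.sq_sqrt h5
      have h10 : 0 ≤ Real.sqrt |θ| * Real.sqrt (x ^ 2 + y) := mul_nonneg h6 h7
      nlinarith
    -- the exponentials
    set Ev := x ^ 2 + y with hEv
    have hEv0 : 0 ≤ Ev := by positivity
    have h5 : Real.exp (-(M * -r)) ≤ Real.exp (-((M:ℝ) / 4) * x ^ 2) *
        Real.exp (-((M:ℝ) / 4 * Ev)) := by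
      rw [← Real.exp_add]
      apply Real.exp_le_exp.2
      have h6 : (M:ℝ) * r ≤ M * (-(Ev / 2)) := mul_le_mul_of_nonneg_left hr1 hM0.le
      have h7 : 0 ≤ (M:ℝ) * y := by positivity
      rw [hEv] at h6 ⊢
      nlinarith
    have h6 : Real.sqrt Ev * Real.exp (-((M:ℝ) / 4 * Ev)) ≤ 1 / Real.sqrt M := by
      rw [le_div_iff₀ hsq0, Real.exp_neg, ← div_eq_mul_inv, div_mul_eq_mul_div,
        div_le_one (Real.exp_pos _), ← Real.sqrt_mul hEv0]
      set s := Ev * M with hs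
      have hs0 : 0 ≤ s := by positivity
      have h7 : (M:ℝ) / 4 * Ev = s / 4 := by rw [hs]; ring
      rw [h7, Real.sqrt_le_left (Real.exp_pos _).le]
      have h8 : Real.exp (s / 4) ^ 2 = Real.exp (s / 2) := by
        rw [← Real.exp_nat_mul]
        congr 1
        push_cast
        ring
      rw [h8]
      have h9 := Real.quadratic_le_exp_of_nonneg (show 0 ≤ s / 2 by positivity)
      nlinarith [sq_nonneg (s - 2)]
    have h7 : Real.exp (-((M:ℝ) / 4 * Ev)) ≤ 1 := Real.exp_le_one_iff.2 (by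
      have : 0 ≤ (M:ℝ) / 4 * Ev := by positivity
      linarith)
    have h8 : Real.sqrt |θ| / (1 + (M' * θ) ^ 2) ≤ kap (M' * θ) / Real.sqrt M := by
      have h9 := kap2 (M' * θ)
      rw [abs_mul, abs_of_pos hM'0, Real.sqrt_mul hM'0.le] at h9
      rw [le_div_iff₀ hsq0]
      refine le_trans ?_ h9
      rw [div_mul_eq_mul_div, mul_comm]
      refine div_le_div_of_nonneg_right ?_ (by positivity)
      exact mul_le_mul_of_nonneg_right (Real.sqrt_le_sqrt hMr) (Real.sqrt_nonneg _)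
    have h9 : 1 / (1 + (M' * θ) ^ 2) ≤ kap (M' * θ) := kap1 (M' * θ)
    have hk := (kap_pos (M' * θ)).le
    have hneg : (M' * -θ) ^ 2 = (M' * θ) ^ 2 := by ring
    rw [hneg] at h1
    have hD : 0 < 1 + (M' * θ) ^ 2 := by positivity
    -- the main computation
    have h10 : Real.exp (-(M * -r)) / (1 + (M' * θ) ^ 2) * (b0 + b1 * Real.sqrt q) ≤
        Real.exp (-((M:ℝ) / 4) * x ^ 2) * (kap (M' * θ) * (b0 + 7 * b1 / Real.sqrt M)) := by
      set e1 := Real.exp (-((M:ℝ) / 4) * x ^ 2) with he1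
      set e2 := Real.exp (-((M:ℝ) / 4 * Ev)) with he2
      have he10 : 0 < e1 := Real.exp_pos _
      have he20 : 0 < e2 := Real.exp_pos _
      calc Real.exp (-(M * -r)) / (1 + (M' * θ) ^ 2) * (b0 + b1 * Real.sqrt q)
          ≤ (e1 * e2) / (1 + (M' * θ) ^ 2) *
            (b0 + b1 * (Real.sqrt |θ| + 6 * Real.sqrt Ev)) := by
            refine mul_le_mul (div_le_div_of_nonneg_right h5 hD.le) ?_ ?_ (by positivity)
            · exact add_le_add le_rfl (mul_le_mul_of_nonneg_left h4 hb1)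
            · exact add_nonneg hb0 (mul_nonneg hb1 (Real.sqrt_nonneg _))
        _ = e1 * (b0 * (1 / (1 + (M' * θ) ^ 2)) * e2 +
              b1 * (Real.sqrt |θ| / (1 + (M' * θ) ^ 2)) * e2 +
              6 * b1 * (1 / (1 + (M' * θ) ^ 2)) * (Real.sqrt Ev * e2)) := by
            field_simp
            ring
        _ ≤ e1 * (b0 * kap (M' * θ) * 1 + b1 * (kap (M' * θ) / Real.sqrt M) * 1 +
              6 * b1 * kap (M' * θ) * (1 / Real.sqrt M)) := by
            refine mul_le_mul_of_nonneg_left ?_ he10.le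
            gcongr
        _ = _ := by
            field_simp
            ring
    calc ‖TD m M M' (-((-r : ℝ) : ℂ) + ((-θ : ℝ) : ℂ) * I)‖ *
          ‖X (cexp ((θ + p.im : ℝ) * I) • nrm w)‖
        ≤ ((m ! * (500 * Real.exp 3)) * ((M':ℝ) / M) * ((M':ℝ) ^ (m + 1)) *
            Real.exp (-(M * -r)) / (1 + (M' * θ) ^ 2)) * (b0 + b1 * Real.sqrt q) :=
          mul_le_mul h1 h2 (norm_nonneg _) ((norm_nonneg _).trans h1)
      _ = (K0 m * ((M':ℝ) / M) * (M':ℝ) ^ (m + 1)) *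
          (Real.exp (-(M * -r)) / (1 + (M' * θ) ^ 2) * (b0 + b1 * Real.sqrt q)) := by
          unfold K0
          ring
      _ ≤ (K0 m * ((M':ℝ) / M) * (M':ℝ) ^ (m + 1)) *
          (Real.exp (-((M:ℝ) / 4) * x ^ 2) * (kap (M' * θ) * (b0 + 7 * b1 / Real.sqrt M))) := by
          refine mul_le_mul_of_nonneg_left h10 ?_
          have := (K0_pos m).le
          positivity
      _ = G * (M' * kap (M' * θ)) := by
          rw [hG]
          ring
  rw [hsum, ← hshift, norm_mul, norm_inv]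
  have e2 : ‖(2 * π : ℂ)‖ = 2 * π := by
    rw [norm_mul, Complex.norm_real, Real.norm_of_nonneg hpi.le]
    norm_num
  rw [e2]
  have hI : ‖∫ θ in (-π)..π, g (θ + p.im)‖ ≤ G * JJ := by
    have h1 : IntervalIntegrable (fun θ : ℝ => G * (M' * kap (M' * θ))) volume (-π) π := by
      refine Continuous.intervalIntegrable ?_ _ _
      exact continuous_const.mul (continuous_const.mul (kap_cont.comp (by fun_prop)))
    have h2 : ‖∫ θ in (-π)..π, g (θ + p.im)‖ ≤ ∫ θ in (-π)..π, G * (M' * kap (M' * θ)) := by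
      refine intervalIntegral.norm_integral_le_of_norm_le (by linarith) ?_ h1
      refine Filter.Eventually.of_forall fun θ hθ => hbound θ ?_
      rw [abs_le]
      exact ⟨hθ.1.le, hθ.2⟩
    refine h2.trans ?_
    rw [intervalIntegral.integral_const_mul]
    exact mul_le_mul_of_nonneg_left (kap_scale hM'0) hG0
  have h2 : (2 * π)⁻¹ ≤ 1 := by
    apply inv_le_one_of_one_le₀
    have := Real.pi_gt_three
    linarith
  calc (2 * π)⁻¹ * ‖∫ θ in (-π)..π, g (θ + p.im)‖ ≤ 1 * (G * JJ) :=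
        mul_le_mul h2 hI (norm_nonneg _) zero_le_one
    _ = _ := by rw [hG]; ring

/-- the constant -/
noncomputable def CT (m : ℕ) : ℝ := 7 * 4 ^ m * K0 m * (JJ + 1)

theorem CT_pos (m : ℕ) : 0 < CT m := by
  unfold CT
  have := JJ_nonneg
  have := K0_pos m
  positivity

/-- **The localised bound.** -/
theorem TO_bound {M M' : ℕ} (hM : 1 ≤ M) (hMM : M ≤ M') {b b0 b1 : ℝ} {X : E m → ℂ} (h : Bm b X)
    (hb0 : 0 ≤ b0) (hb1 : 0 ≤ b1) {z : E m} (hz : ‖z‖ ≤ 1)
    (hX : ∀ v : E m, ‖v‖ = 1 → ‖X v‖ ≤ b0 + b1 * Real.sqrt ‖1 - (inner ℂ v z : ℂ)‖) :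
    ‖TO M M' X z‖ ≤ CT m * ((M':ℝ) / M) ^ (m + 1) * (b0 + b1 / Real.sqrt M) := by
  have hM'0 : (0:ℝ) < M' := by exact_mod_cast (by omega : 0 < M')
  have hM0 : (0:ℝ) < M := by exact_mod_cast hM
  have hsq0 : 0 < Real.sqrt M := Real.sqrt_pos.2 hM0
  have hpi := Real.pi_pos
  set S : E m → ℂ := fun w => ∑ k ∈ Finset.range (2 * M'), (bb M M' k : ℂ) * ((k:ℂ) ^ m *
      (Pool.Agent.K9h23.Hom.ker (k:ℝ) z w * cp k X w)) with hS
  have hTO : TO M M' X z = ((π:ℂ)⁻¹) ^ m * ∫ w, S w := by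
    have h1 : ∫ w, S w = ∑ k ∈ Finset.range (2 * M'), (bb M M' k : ℂ) * ((k:ℂ) ^ m *
        ∫ w, Pool.Agent.K9h23.Hom.ker (k:ℝ) z w * cp k X w) := by
      rw [hS, integral_finsetSum]
      · refine Finset.sum_congr rfl fun k _ => ?_
        rw [integral_const_mul, integral_const_mul]
      · intro k _
        rcases le_or_gt k M with h1 | h1
        · rw [bb_low hM hMM h1]
          simp
        · have hk0 : (0:ℝ) < k := by exact_mod_cast (by omega : 0 < k)
          exact (((cp_Ad h k).int hk0 z).const_mul _).const_mul _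
    rw [h1, Finset.mul_sum]
    unfold TO
    refine Finset.sum_congr rfl fun k _ => ?_
    unfold PiO
    push_cast
    rw [div_pow, inv_pow]
    field_simp
  set G : ℝ := K0 m * ((M':ℝ) / M) * (M':ℝ) ^ m * JJ * (b0 + 7 * b1 / Real.sqrt M) with hG
  have hG0 : 0 ≤ G := by
    have := (K0_pos m).le
    have := JJ_nonneg
    positivity
  have h1 : ‖∫ w, S w‖ ≤ ∫ w, G * Real.exp (-((M:ℝ) / 4) * ‖w - z‖ ^ 2) := by
    refine norm_integral_le_of_norm_le
      ((gauss_shift_int (show 0 < (M:ℝ) / 4 by positivity) z).const_mul G)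
      (Filter.Eventually.of_forall fun w => ?_)
    by_cases hw : w = 0
    · have h2 : S w = 0 := by
        rw [hS]
        simp only
        refine Finset.sum_eq_zero fun k _ => ?_
        rcases le_or_gt k M with h1 | h1
        · rw [bb_low hM hMM h1]
          simp
        · have : cp k X w = 0 := by
            unfold cp
            rw [hw, norm_zero, Complex.ofReal_zero, zero_pow (by omega), zero_mul]
          rw [this]
          ring
      rw [h2, norm_zero]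
      positivity
    · exact ptw hM hMM h hb0 hb1 hz hX hw
  rw [integral_const_mul, gauss_shift (show 0 < (M:ℝ) / 4 by positivity)] at h1
  rw [hTO, norm_mul, norm_pow, norm_inv, Complex.norm_real, Real.norm_of_nonneg hpi.le]
  calc π⁻¹ ^ m * ‖∫ w, S w‖ ≤ π⁻¹ ^ m * (G * (π / ((M:ℝ) / 4)) ^ m) :=
        mul_le_mul_of_nonneg_left h1 (by positivity)
    _ = 4 ^ m * K0 m * JJ * ((M':ℝ) / M) ^ (m + 1) * (b0 + 7 * b1 / Real.sqrt M) := by
        rw [hG, div_pow, div_pow, div_pow, inv_pow]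
        field_simp
        ring
    _ ≤ 4 ^ m * K0 m * (JJ + 1) * ((M':ℝ) / M) ^ (m + 1) * (7 * (b0 + b1 / Real.sqrt M)) := by
        have h2 := K0_pos m
        have h3 := JJ_nonneg
        refine mul_le_mul ?_ ?_ (by positivity) (by positivity)
        · refine mul_le_mul_of_nonneg_right (mul_le_mul_of_nonneg_left (by linarith)
            (by positivity)) (by positivity)
        · have : 0 ≤ b1 / Real.sqrt M := by positivity
          have e : 7 * b1 / Real.sqrt M = 7 * (b1 / Real.sqrt M) := by ring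
          rw [e]
          linarith
    _ = _ := by unfold CT; ring

end Pool.Agent.K9h23.Bnd
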