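import Mathlib
import Pool.Agent.H720R2.HP.Final
import Pool.Agent.K9h23.Bnd.Op
import Pool.Agent.K9h23.Hom.Main

/-!
Solutions on the slices: from the one-variable corona theorem.
-/

set_option autoImplicit false

open MeasureTheory Set Complex Metric Topology
open scoped Real

namespace Pool.Agent.K9h23.Bnd

open Pool.Agent.K9h23.Hom
open Pool.Agent.K9h23.Lac (nsq nsq_nonneg nsq_c nn nn_nonneg nn_sq nn_add_le le_nsq nsq_smul' bd
  bd_le_nn comp_le_nn nsq_conj nn_le_comp)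

variable {m N : ℕ}

/-- the one-variable corona theorem -/
theorem cor1 (N : ℕ) {δ A : ℝ} (hδ : 0 < δ) (hA : 0 < A) : ∃ C : ℝ, 0 ≤ C ∧
    ∀ u : Fin N → ℂ → ℂ, (∀ i, DifferentiableOn ℂ (u i) (ball (0:ℂ) 1)) →
    (∀ x ∈ ball (0:ℂ) 1, δ ≤ nn (fun i => u i x)) → (∀ x ∈ ball (0:ℂ) 1, ∀ i, ‖u i x‖ ≤ A) →
    ∃ g : Fin N → ℂ → ℂ, (∀ i, DifferentiableOn ℂ (g i) (ball (0:ℂ) 1)) ∧
      (∀ i, ∀ x ∈ ball (0:ℂ) 1, ‖g i x‖ ≤ C) ∧ ∀ x ∈ ball (0:ℂ) 1, ∑ i, u i x * g i x = 1 := by
  set δ' : ℝ := δ / ((N + 2) * A) with hδ'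
  have hδ'0 : 0 < δ' := by positivity
  obtain ⟨C, hC0, hC⟩ := Pool.Agent.H720R2.HP.oneCoord N hδ'0
  refine ⟨C / A, by positivity, fun u hu hul hub => ?_⟩
  have hid : Pool.Agent.H720R2.Cor.IsAutomorphism (fun z : Fin (0 + 1) → ℂ => z) :=
    ⟨differentiableOn_id, fun z hz => hz, fun z => z, differentiableOn_id, fun z hz => hz,
      fun _ _ => rfl, fun _ _ => rfl⟩
  obtain ⟨g, g0, h1, h2, h3, h4, h5⟩ := hC 0 (fun z => z) hid (fun i x => u i x / A)
    (fun i => (hu i).div_const _) (fun i x hx => by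
      rw [norm_div, Complex.norm_real, Real.norm_of_nonneg hA.le, div_le_one hA]
      exact hub x hx i) (fun _ => 0) (differentiableOn_const _) (fun z _ => by simp)
    (fun z hz hz2 => by
      exfalso
      have hz0 : z 0 ∈ ball (0:ℂ) 1 := Pool.Agent.H720R2.HP.ball_zero hz
      have h6 : nn (fun i => u i (z 0)) ≤ (N + 1) * (δ / (N + 2)) := by
        refine nn_le_comp (by positivity) fun i => ?_
        have h7 := hz2 i
        rw [norm_div, Complex.norm_real, Real.norm_of_nonneg hA.le, div_lt_iff₀ hA, hδ'] at h7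
        refine h7.le.trans (le_of_eq ?_)
        field_simp
      have h7 := hul _ hz0
      have h8 : ((N:ℝ) + 1) * (δ / (N + 2)) < δ := by
        rw [mul_div_assoc', div_lt_iff₀ (by positivity)]
        nlinarith
      linarith)
  set em : ℂ → (Fin (0 + 1) → ℂ) := fun x _ => x with hem
  have hemd : Differentiable ℂ em := by
    rw [hem]
    fun_prop
  have hemb : ∀ x ∈ ball (0:ℂ) 1, em x ∈ Pool.Agent.H720R2.Cor.Ball (0 + 1) := by
    intro x hx
    change ∑ i : Fin (0 + 1), ‖em x i‖ ^ 2 < 1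
    rw [mem_ball_zero_iff] at hx
    simp [hem]
    nlinarith [norm_nonneg x]
  refine ⟨fun i x => g i (em x) / A, fun i => ?_, fun i x hx => ?_, fun x hx => ?_⟩
  · exact ((h1 i).comp hemd.differentiableOn hemb).div_const _
  · rw [norm_div, Complex.norm_real, Real.norm_of_nonneg hA.le]
    exact div_le_div_of_nonneg_right (h3 i _ (hemb x hx)) hA.le
  · have h6 := h5 _ (hemb x hx)
    rw [zero_mul, add_zero] at h6
    rw [← h6]
    refine Finset.sum_congr rfl fun i _ => ?_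
    simp only [hem]
    ring

theorem nn_nonneg_le {u : Fin N → ℂ} {c : ℝ} (h : nn u ≤ c) (j : Fin N) : ‖u j‖ ≤ c :=
  (comp_le_nn u j).trans h

/-- **Solutions on the slices.** -/
theorem slice (N : ℕ) {δ A : ℝ} (hδ : 0 < δ) (hA : 0 < A) : ∃ B : ℝ, 0 ≤ B ∧
    ∀ (m : ℕ) (G : E m → Fin N → ℂ), (∀ j, Differentiable ℂ (fun z => G z j)) →
    (∀ z, ‖z‖ ≤ 1 → δ ≤ nn (G z) ∧ nn (G z) ≤ A) →
    ∃ Φ : E m → Fin N → ℂ, (∀ j, Bm B (fun w => Φ w j)) ∧
      (∀ w, ‖w‖ = 1 → ∑ j, G w j * Φ w j = 1) ∧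
      ∀ w, ‖w‖ = 1 → ∀ j, ∃ H : ℂ → ℂ, DiffContOnCl ℂ H (ball (0:ℂ) 1) ∧
        ∀ θ : ℝ, Φ (cexp (θ * I) • w) j = H (cexp (θ * I)) := by
  classical
  obtain ⟨C, hC0, hC⟩ := cor1 N (half_pos hδ) (show 0 < 2 * A by linarith)
  refine ⟨2 * C, by positivity, fun m G hG hGb => ?_⟩
  have hGc : Continuous (fun z => G z) := continuous_pi fun j => (hG j).continuous
  have hGn : Continuous (fun z => nn (G z)) := nn_cont.comp hGc
  -- a larger ball
  have hUo : IsOpen {z : E m | δ / 2 < nn (G z) ∧ nn (G z) < 2 * A} :=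
    (isOpen_lt continuous_const hGn).inter (isOpen_lt hGn continuous_const)
  obtain ⟨ε, hε, hεU⟩ := (isCompact_closedBall (0 : E m) 1).exists_cthickening_subset_open hUo
    (fun z hz => by
      obtain ⟨h1, h2⟩ := hGb z (by simpa using hz)
      change δ / 2 < nn (G z) ∧ nn (G z) < 2 * A
      exact ⟨by linarith, by linarith⟩)
  rw [cthickening_closedBall hε.le zero_le_one] at hεU
  set ρ : ℝ := ε + 1 with hρ
  have hρ1 : 1 < ρ := by linarith
  have hρ0 : 0 < ρ := by linarith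
  have hρc : (ρ : ℂ) ≠ 0 := by exact_mod_cast hρ0.ne'
  have hbig : ∀ z : E m, ‖z‖ ≤ ρ → δ / 2 ≤ nn (G z) ∧ nn (G z) ≤ 2 * A := fun z hz => by
    have h1 := hεU (show z ∈ closedBall (0 : E m) (ε + 1) by simpa using hz)
    exact ⟨h1.1.le, h1.2.le⟩
  -- the one-variable solutions
  have hsl : ∀ y : E m, ∃ φ : Fin N → ℂ → ℂ, ‖y‖ ≤ 1 →
      (∀ b, DifferentiableOn ℂ (φ b) (ball (0:ℂ) ρ)) ∧
      (∀ b, ∀ x ∈ ball (0:ℂ) ρ, ‖φ b x‖ ≤ C) ∧
      ∀ x ∈ ball (0:ℂ) ρ, ∑ b, G (x • y) b * φ b x = 1 := by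
    intro y
    by_cases hy : ‖y‖ ≤ 1
    · have hsc : ∀ x : ℂ, x ∈ ball (0:ℂ) 1 → ‖((ρ : ℂ) * x) • y‖ ≤ ρ := by
        intro x hx
        rw [mem_ball_zero_iff] at hx
        rw [norm_smul, norm_mul, Complex.norm_real, Real.norm_of_nonneg hρ0.le]
        calc ρ * ‖x‖ * ‖y‖ ≤ ρ * 1 * 1 := by gcongr
          _ = ρ := by ring
      obtain ⟨g, g1, g2, g3⟩ := hC (fun i x => G (((ρ : ℂ) * x) • y) i)
        (fun i => ((hG i).comp (by fun_prop :
          Differentiable ℂ (fun x : ℂ => ((ρ : ℂ) * x) • y))).differentiableOn)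
        (fun x hx => (hbig _ (hsc x hx)).1)
        (fun x hx i => nn_nonneg_le (hbig _ (hsc x hx)).2 i)
      have hdiv : ∀ x ∈ ball (0:ℂ) ρ, x / ρ ∈ ball (0:ℂ) 1 := by
        intro x hx
        rw [mem_ball_zero_iff] at hx ⊢
        rw [norm_div, Complex.norm_real, Real.norm_of_nonneg hρ0.le, div_lt_one hρ0]
        exact hx
      refine ⟨fun b x => g b (x / ρ), fun _ => ⟨fun b => ?_, fun b x hx => g2 b _ (hdiv x hx),
        fun x hx => ?_⟩⟩
      · exact (g1 b).comp (by fun_prop : DifferentiableOn ℂ (fun x : ℂ => x / ρ) (ball 0 ρ)) hdiv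
      · have h1 := g3 _ (hdiv x hx)
        have e : (ρ : ℂ) * (x / ρ) = x := by field_simp
        simp only [e] at h1
        exact h1
    · exact ⟨fun _ _ => 0, fun h => absurd h hy⟩
  choose φ hφ using hsl
  -- uniform continuity
  have huc := (isCompact_closedBall (0 : E m) 1).uniformContinuousOn_of_continuous
    hGc.continuousOn
  rw [Metric.uniformContinuousOn_iff] at huc
  set κ : ℝ := 1 / (2 * (N + 1) * (C + 1)) with hκ
  have hκ0 : 0 < κ := by positivity
  obtain ⟨ε1, hε1, huc1⟩ := huc κ hκ0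
  set η : ℝ := min (1 / 2) (ε1 ^ 2 / 4) with hη
  have hη0 : 0 < η := lt_min (by norm_num) (by positivity)
  have hη1 : η ≤ 1 / 2 := min_le_left _ _
  have hη2 : η ≤ ε1 ^ 2 / 4 := min_le_right _ _
  -- the comparison of two slices
  have hcmp : ∀ y w : E m, ‖y‖ = 1 → ‖w‖ = 1 → 1 - η < ‖(inner ℂ y w : ℂ)‖ →
      ∀ l : ℂ, ‖l‖ ≤ 1 → ‖∑ b, G (l • w) b * φ y b (l * inner ℂ y w) - 1‖ ≤ 1 / 2 := by
    intro y w hy hw hyw l hl
    set c : ℂ := inner ℂ y w with hc
    have hc1 : ‖c‖ ≤ 1 := by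
      have := norm_inner_le_norm (𝕜 := ℂ) y w
      rwa [hy, hw, one_mul] at this
    have hlc1 : ‖l * c‖ ≤ 1 := by
      rw [norm_mul]
      exact mul_le_one₀ hl (norm_nonneg _) hc1
    have hlc : l * c ∈ ball (0:ℂ) ρ := by
      rw [mem_ball_zero_iff]
      linarith
    obtain ⟨_, p2, p3⟩ := hφ y hy.le
    have h1 := p3 _ hlc
    have hdist : ‖l • w - (l * c) • y‖ < ε1 := by
      have h2 : l • w - (l * c) • y = l • (w - c • y) := by rw [smul_sub, smul_smul]
      have h3 : ‖w - c • y‖ ^ 2 = 1 - ‖c‖ ^ 2 := by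
        have h4 := norm_sub_sq (𝕜 := ℂ) w (c • y)
        rw [h4, norm_smul, hy, hw, inner_smul_right]
        have h5 : (c * inner ℂ w y : ℂ) = ((‖c‖ ^ 2 : ℝ) : ℂ) := by
          have h6 : (inner ℂ w y : ℂ) = (starRingEnd ℂ) c := by rw [hc, inner_conj_symm]
          rw [h6, Complex.mul_conj, Complex.normSq_eq_norm_sq]
        rw [h5]
        have h7 : RCLike.re (((‖c‖ ^ 2 : ℝ) : ℂ)) = ‖c‖ ^ 2 := Complex.ofReal_re _
        rw [h7]
        ring
      have h8 : ‖w - c • y‖ ^ 2 < ε1 ^ 2 := by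
        rw [h3]
        nlinarith [norm_nonneg c]
      have h9 : ‖w - c • y‖ < ε1 := lt_of_pow_lt_pow_left₀ 2 hε1.le h8
      rw [h2, norm_smul]
      calc ‖l‖ * ‖w - c • y‖ ≤ 1 * ‖w - c • y‖ := mul_le_mul_of_nonneg_right hl (norm_nonneg _)
        _ < ε1 := by rw [one_mul]; exact h9
    have h4 := huc1 (l • w) (by
      rw [mem_closedBall_zero_iff, norm_smul, hw, mul_one]; exact hl) ((l * c) • y) (by
      rw [mem_closedBall_zero_iff, norm_smul, hy, mul_one]; exact hlc1) (by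
      rw [dist_eq_norm]; exact hdist)
    rw [dist_eq_norm] at h4
    have h5 : ∀ b, ‖G (l • w) b - G ((l * c) • y) b‖ ≤ κ := fun b =>
      (norm_le_pi_norm (G (l • w) - G ((l * c) • y)) b).trans h4.le
    have e1 : ∑ b, G (l • w) b * φ y b (l * c) - 1 =
        ∑ b, (G (l • w) b - G ((l * c) • y) b) * φ y b (l * c) := by
      rw [← h1, ← Finset.sum_sub_distrib]
      exact Finset.sum_congr rfl fun b _ => by ring
    rw [e1]
    refine (norm_sum_le _ _).trans ?_
    refine (Finset.sum_le_card_nsmul _ _ (κ * C) fun b _ => ?_).trans ?_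
    · rw [norm_mul]
      exact mul_le_mul (h5 b) (p2 b _ hlc) (norm_nonneg _) hκ0.le
    · rw [nsmul_eq_mul, Finset.card_univ, Fintype.card_fin, hκ]
      have hN : (0:ℝ) ≤ N := Nat.cast_nonneg N
      rw [div_mul_eq_mul_div, mul_div_assoc', div_le_div_iff₀ (by positivity) (by norm_num)]
      nlinarith [mul_nonneg hN hC0]
  -- the net
  obtain ⟨T, hT1, hT2⟩ := (isCompact_sphere (0 : E m) 1).elim_nhds_subcover
    (fun y => {w : E m | 1 - η / 2 < ‖(inner ℂ y w : ℂ)‖}) (fun y hy => by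
      refine IsOpen.mem_nhds (isOpen_lt continuous_const (by fun_prop)) ?_
      rw [mem_sphere_zero_iff_norm] at hy
      change 1 - η / 2 < ‖(inner ℂ y y : ℂ)‖
      rw [inner_self_eq_norm_sq_to_K, hy]
      simp
      linarith)
  have hT1' : ∀ y ∈ T, ‖y‖ = 1 := fun y hy => by simpa using hT1 y hy
  set ψ : E m → E m → ℝ := fun y w => max 0 (‖(inner ℂ y w : ℂ)‖ - (1 - η)) with hψ
  have hψ0 : ∀ y w, 0 ≤ ψ y w := fun y w => le_max_left _ _
  have hψS : ∀ w : E m, ‖w‖ = 1 → 0 < ∑ y ∈ T, ψ y w := by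
    intro w hw
    have h1 := hT2 (show w ∈ sphere (0 : E m) 1 by simpa using hw)
    simp only [mem_iUnion, exists_prop] at h1
    obtain ⟨y, hy, hyw⟩ := h1
    have h2 : η / 2 ≤ ψ y w := by
      refine le_trans ?_ (le_max_right _ _)
      have : 1 - η / 2 < ‖(inner ℂ y w : ℂ)‖ := hyw
      linarith
    have h3 := Finset.single_le_sum (f := fun y => ψ y w) (fun y _ => hψ0 y w) hy
    linarith
  -- numerator and denominator on the slice of `w`
  set Nu : E m → Fin N → ℂ → ℂ := fun w b l =>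
    ∑ y ∈ T, (ψ y w : ℂ) * φ y b (l * inner ℂ y w) with hNu
  set De : E m → ℂ → ℂ := fun w l => ∑ b, G (l • w) b * Nu w b l with hDe
  have hinn : ∀ y ∈ T, ∀ w : E m, ‖w‖ = 1 → ‖(inner ℂ y w : ℂ)‖ ≤ 1 := by
    intro y hy w hw
    have := norm_inner_le_norm (𝕜 := ℂ) y w
    rwa [hT1' y hy, hw, one_mul] at this
  have hNub : ∀ w : E m, ‖w‖ = 1 → ∀ b, ∀ l : ℂ, ‖l‖ ≤ 1 →
      ‖Nu w b l‖ ≤ C * ∑ y ∈ T, ψ y w := by
    intro w hw b l hl
    rw [hNu, Finset.mul_sum]
    refine (norm_sum_le _ _).trans (Finset.sum_le_sum fun y hy => ?_)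
    rw [norm_mul, Complex.norm_real, Real.norm_of_nonneg (hψ0 y w), mul_comm]
    refine mul_le_mul_of_nonneg_right ((hφ y (hT1' y hy).le).2.1 b _ ?_) (hψ0 y w)
    rw [mem_ball_zero_iff, norm_mul]
    have := mul_le_one₀ hl (norm_nonneg _) (hinn y hy w hw)
    linarith
  have hDeb : ∀ w : E m, ‖w‖ = 1 → ∀ l : ℂ, ‖l‖ ≤ 1 →
      ‖De w l - ((∑ y ∈ T, ψ y w : ℝ) : ℂ)‖ ≤ 1 / 2 * ∑ y ∈ T, ψ y w := by
    intro w hw l hl
    have e1 : De w l - ((∑ y ∈ T, ψ y w : ℝ) : ℂ) =
        ∑ y ∈ T, (ψ y w : ℂ) * (∑ b, G (l • w) b * φ y b (l * inner ℂ y w) - 1) := by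
      rw [hDe, hNu]
      simp only
      push_cast
      simp_rw [Finset.mul_sum, mul_sub, mul_one]
      rw [Finset.sum_comm, Finset.sum_sub_distrib]
      congr 1
      refine Finset.sum_congr rfl fun y _ => ?_
      rw [Finset.mul_sum]
      exact Finset.sum_congr rfl fun b _ => by ring
    rw [e1, Finset.mul_sum]
    refine (norm_sum_le _ _).trans (Finset.sum_le_sum fun y hy => ?_)
    rw [norm_mul, Complex.norm_real, Real.norm_of_nonneg (hψ0 y w), mul_comm]
    rcases le_or_gt (‖(inner ℂ y w : ℂ)‖) (1 - η) with h1 | h1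
    · have : ψ y w = 0 := max_eq_left (by linarith)
      rw [this, mul_zero, mul_zero]
    · exact mul_le_mul_of_nonneg_right (hcmp y w (hT1' y hy) hw h1 l hl) (hψ0 y w)
  have hDel : ∀ w : E m, ‖w‖ = 1 → ∀ l : ℂ, ‖l‖ ≤ 1 →
      1 / 2 * ∑ y ∈ T, ψ y w ≤ ‖De w l‖ := by
    intro w hw l hl
    have h1 := hDeb w hw l hl
    have h2 := hψS w hw
    have h3 : ‖((∑ y ∈ T, ψ y w : ℝ) : ℂ)‖ = ∑ y ∈ T, ψ y w := by
      rw [Complex.norm_real, Real.norm_of_nonneg h2.le]
    have h4 := norm_sub_norm_le ((∑ y ∈ T, ψ y w : ℝ) : ℂ) (De w l)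
    rw [norm_sub_rev, h3] at h4
    linarith
  have hDe0 : ∀ w : E m, ‖w‖ = 1 → ∀ l : ℂ, ‖l‖ ≤ 1 → De w l ≠ 0 := by
    intro w hw l hl h0
    have h1 := hDel w hw l hl
    rw [h0, norm_zero] at h1
    have h2 := hψS w hw
    linarith
  -- the solution
  set f0 : Fin N → E m → ℂ := fun j w => Nu w j 1 / De w 1 with hf0
  have hφc : ∀ y ∈ T, ∀ b, ContinuousOn (fun w : E m => φ y b (1 * inner ℂ y w))
      (sphere (0 : E m) 1) := by
    intro y hy b
    refine ((hφ y (hT1' y hy).le).1 b).continuousOn.comp (by fun_prop) fun w hw => ?_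
    rw [mem_ball_zero_iff, one_mul]
    have := hinn y hy w (by simpa using hw)
    linarith
  have hNuc : ∀ b, ContinuousOn (fun w : E m => Nu w b 1) (sphere (0 : E m) 1) := by
    intro b
    rw [hNu]
    refine continuousOn_finsetSum _ fun y hy => ContinuousOn.mul ?_ (hφc y hy b)
    refine Continuous.continuousOn ?_
    rw [hψ]
    fun_prop
  have hDec : ContinuousOn (fun w : E m => De w 1) (sphere (0 : E m) 1) := by
    rw [hDe]
    refine continuousOn_finsetSum _ fun b _ => ContinuousOn.mul ?_ (hNuc b)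
    exact (((hG b).continuous).comp (by fun_prop : Continuous fun w : E m => (1:ℂ) • w)).continuousOn
  have hf0c : ∀ j, ContinuousOn (f0 j) (sphere (0 : E m) 1) := fun j =>
    (hNuc j).div hDec fun w hw => hDe0 w (by simpa using hw) 1 (by simp)
  refine ⟨fun w j => (sphere (0 : E m) 1).piecewise (f0 j) (fun _ => 0) w, fun j => ⟨?_, ?_⟩,
    fun w hw => ?_, fun w hw j => ?_⟩
  · exact (hf0c j).measurable_piecewise continuousOn_const isClosed_sphere.measurableSet
  · intro w _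
    beta_reduce
    by_cases hw : w ∈ sphere (0 : E m) 1
    · rw [piecewise_eq_of_mem _ _ _ hw]
      have hw' : ‖w‖ = 1 := by simpa using hw
      have h1 := hNub w hw' j 1 (by simp)
      have h2 := hDel w hw' 1 (by simp)
      have h3 := hψS w hw'
      rw [hf0]
      simp only
      rw [norm_div, div_le_iff₀ (by linarith)]
      nlinarith
    · rw [piecewise_eq_of_notMem _ _ _ hw, norm_zero]
      positivity
  · have hw' : w ∈ sphere (0 : E m) 1 := by simpa using hw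
    simp_rw [piecewise_eq_of_mem _ _ _ hw']
    rw [hf0]
    simp only
    have h1 : ∑ j, G w j * (Nu w j 1 / De w 1) = De w 1 / De w 1 := by
      conv_rhs => rw [hDe]
      simp only
      rw [one_smul, Finset.sum_div]
      refine Finset.sum_congr rfl fun j _ => ?_
      rw [hDe]
      simp only [one_smul]
      ring
    rw [h1, div_self (hDe0 w hw 1 (by simp))]
  · refine ⟨fun l => Nu w j l / De w l, ?_, fun θ => ?_⟩
    · apply DifferentiableOn.diffContOnCl
      rw [closure_ball (0:ℂ) one_ne_zero]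
      have hN : ∀ b, DifferentiableOn ℂ (Nu w b) (closedBall (0:ℂ) 1) := by
        intro b
        rw [hNu]
        refine DifferentiableOn.fun_sum fun y hy => ?_
        refine DifferentiableOn.const_mul ?_ _
        refine ((hφ y (hT1' y hy).le).1 b).comp (by fun_prop) fun l hl => ?_
        rw [mem_closedBall_zero_iff] at hl
        rw [mem_ball_zero_iff, norm_mul]
        have := mul_le_one₀ hl (norm_nonneg _) (hinn y hy w hw)
        linarith
      have hD : DifferentiableOn ℂ (De w) (closedBall (0:ℂ) 1) := by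
        rw [hDe]
        refine DifferentiableOn.fun_sum fun b _ => DifferentiableOn.mul ?_ (hN b)
        exact ((hG b).comp (by fun_prop : Differentiable ℂ fun l : ℂ => l • w)).differentiableOn
      exact (hN j).div hD fun l hl => hDe0 w hw l (by simpa using hl)
    · have h1 : ‖cexp (θ * I) • w‖ = 1 := by
        rw [norm_smul, Complex.norm_exp_ofReal_mul_I, one_mul, hw]
      have hw' : cexp (θ * I) • w ∈ sphere (0 : E m) 1 := by simpa using h1
      beta_reduce
      rw [piecewise_eq_of_mem _ _ _ hw', hf0]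
      simp only
      have h2 : ∀ y, ψ y (cexp (θ * I) • w) = ψ y w := by
        intro y
        rw [hψ]
        simp only
        rw [inner_smul_right, norm_mul, Complex.norm_exp_ofReal_mul_I, one_mul]
      have h3 : ∀ b, Nu (cexp (θ * I) • w) b 1 = Nu w b (cexp (θ * I)) := by
        intro b
        rw [hNu]
        simp only
        refine Finset.sum_congr rfl fun y _ => ?_
        rw [h2, inner_smul_right, one_mul]
      have h4 : De (cexp (θ * I) • w) 1 = De w (cexp (θ * I)) := by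
        rw [hDe]
        simp only
        refine Finset.sum_congr rfl fun b _ => ?_
        rw [h3, one_smul]
      rw [h3, h4]

end Pool.Agent.K9h23.Bnd
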