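import Mathlib
import Pool.Agent.K9h23.Bnd.Est
import Pool.Agent.K9h23.Bnd.Sl

/-!
The Bezout equation for right-hand sides of high degree.
-/

set_option autoImplicit false

open MeasureTheory Set Complex Metric
open scoped Real

namespace Pool.Agent.K9h23.Bnd

open Pool.Agent.K9h23.Hom

variable {m N : ℕ}

theorem Gr.slice {s t : ℕ} {R : E m → ℂ} (h : Gr s t R) (w : E m) :
    ∃ ψ : ℂ → ℂ, Differentiable ℂ ψ ∧ ∀ η : ℂ, R (η • w) = η ^ s * ψ η := by
  obtain ⟨c, hc, hR⟩ := h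
  refine ⟨fun η => ∑ k ∈ Finset.Icc s t, η ^ (k - s) * c k w, ?_, fun η => ?_⟩
  · refine Differentiable.fun_sum fun k _ => ?_
    exact (differentiable_id.pow _).mul_const _
  · rw [hR, Finset.mul_sum]
    refine Finset.sum_congr rfl fun k hk => ?_
    rw [Finset.mem_Icc] at hk
    rw [(hc k).h, ← mul_assoc, ← pow_add]
    congr 2
    omega

theorem TO_self (M : ℕ) (X : E m → ℂ) (z : E m) : TO M M X z = 0 := by
  unfold TO bb
  simp

theorem TO_dy (M p : ℕ) (X : E m → ℂ) (z : E m) :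
    TO M (2 ^ p * M) X z = ∑ i ∈ Finset.range p, TO (2 ^ i * M) (2 ^ (i + 1) * M) X z := by
  induction p with
  | zero => simp [TO_self]
  | succ p ih =>
    rw [Finset.sum_range_succ, ← ih, TO_tel]
    · exact Nat.le_mul_of_pos_left _ (by positivity)
    · exact Nat.mul_le_mul_right _ (Nat.pow_le_pow_right (by norm_num) (by omega))

theorem dy_ratio {M i : ℕ} (hM : 1 ≤ M) :
    ((2 ^ (i + 1) * M : ℕ) : ℝ) / ((2 ^ i * M : ℕ) : ℝ) = 2 := by
  have hM0 : (0:ℝ) < M := by exact_mod_cast hM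
  push_cast
  rw [pow_succ]
  field_simp

theorem TO_dy_bound0 {M : ℕ} (hM : 1 ≤ M) (p : ℕ) {b : ℝ} {X : E m → ℂ} (h : Bm b X) {z : E m}
    (hz : ‖z‖ ≤ 1) : ‖TO M (2 ^ p * M) X z‖ ≤ p * (CT m * 2 ^ (m + 1) * b) := by
  rw [TO_dy]
  refine (norm_sum_le _ _).trans ?_
  refine (Finset.sum_le_card_nsmul _ _ (CT m * 2 ^ (m + 1) * b) fun i _ => ?_).trans ?_
  · have h1 : 1 ≤ 2 ^ i * M := Nat.mul_pos (by positivity) hM
    have h2 := TO_bound h1 (Nat.mul_le_mul_right M (Nat.pow_le_pow_right (by norm_num)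
      (Nat.le_succ i))) h (b1 := 0) h.nonneg le_rfl hz (fun v hv => by
        rw [zero_mul, add_zero]; exact h.bd v hv.le)
    rw [dy_ratio hM, zero_div, add_zero] at h2
    exact h2
  · rw [nsmul_eq_mul, Finset.card_range]

theorem TO_dy_bound {M : ℕ} (hM : 1 ≤ M) (p : ℕ) {b b1 : ℝ} {X : E m → ℂ} (h : Bm b X)
    (hb1 : 0 ≤ b1) {z : E m} (hz : ‖z‖ ≤ 1)
    (hX : ∀ v : E m, ‖v‖ = 1 → ‖X v‖ ≤ b1 * Real.sqrt ‖1 - (inner ℂ v z : ℂ)‖) :
    ‖TO M (2 ^ p * M) X z‖ ≤ 4 * (CT m * 2 ^ (m + 1)) * (b1 / Real.sqrt M) := by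
  have hM0 : (0:ℝ) < M := by exact_mod_cast hM
  have hsq0 : 0 < Real.sqrt M := Real.sqrt_pos.2 hM0
  have hCT := CT_pos m
  rw [TO_dy]
  refine (norm_sum_le _ _).trans ?_
  have h1 : ∀ i ∈ Finset.range p, ‖TO (2 ^ i * M) (2 ^ (i + 1) * M) X z‖ ≤
      (CT m * 2 ^ (m + 1)) * (b1 / Real.sqrt M) * (3 / 4) ^ i := by
    intro i _
    have h1 : 1 ≤ 2 ^ i * M := Nat.mul_pos (by positivity) hM
    have h2 := TO_bound h1 (Nat.mul_le_mul_right M (Nat.pow_le_pow_right (by norm_num)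
      (Nat.le_succ i))) h (b0 := 0) le_rfl hb1 hz (fun v hv => by
        rw [zero_add]; exact hX v hv)
    rw [dy_ratio hM, zero_add] at h2
    refine h2.trans ?_
    rw [mul_assoc (CT m * 2 ^ (m + 1))]
    refine mul_le_mul_of_nonneg_left ?_ (by positivity)
    push_cast
    rw [Real.sqrt_mul (by positivity), div_mul_eq_mul_div,
      div_le_div_iff₀ (by positivity) hsq0]
    have h3 : (4 / 3 : ℝ) ^ i ≤ Real.sqrt (2 ^ i) := by
      apply Real.le_sqrt_of_sq_le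
      rw [← pow_mul, mul_comm i 2, pow_mul]
      exact pow_le_pow_left₀ (by norm_num) (by norm_num) i
    have h4 : (3 / 4 : ℝ) ^ i * (4 / 3) ^ i = 1 := by
      rw [← mul_pow]
      norm_num
    have h5 : 1 ≤ (3 / 4 : ℝ) ^ i * Real.sqrt (2 ^ i) := by
      rw [← h4]
      exact mul_le_mul_of_nonneg_left h3 (by positivity)
    calc b1 * Real.sqrt M = b1 * Real.sqrt M * 1 := by ring
      _ ≤ b1 * Real.sqrt M * ((3 / 4 : ℝ) ^ i * Real.sqrt (2 ^ i)) :=
          mul_le_mul_of_nonneg_left h5 (by positivity)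
      _ = _ := by ring
  refine (Finset.sum_le_sum h1).trans ?_
  rw [← Finset.mul_sum]
  have h2 := geom_le (q := (3 / 4 : ℝ)) (by norm_num) (by norm_num) p
  have h3 : (1:ℝ) / (1 - 3 / 4) = 4 := by norm_num
  rw [h3] at h2
  calc _ ≤ (CT m * 2 ^ (m + 1)) * (b1 / Real.sqrt M) * 4 :=
        mul_le_mul_of_nonneg_left h2 (by positivity)
    _ = _ := by ring

/-- the data: a polynomial vector and its solution on slices -/
structure Sd (A B : ℝ) (D : ℕ) (G Φ : E m → Fin N → ℂ) : Prop where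
  D1 : 1 ≤ D
  A0 : 0 ≤ A
  Gg : ∀ j, Gr 0 D (fun z => G z j)
  Gb : ∀ z, ‖z‖ ≤ 1 → ∀ j, ‖G z j‖ ≤ A
  Φb : ∀ j, Bm B (fun w => Φ w j)
  GΦ : ∀ w, ‖w‖ = 1 → ∑ j, G w j * Φ w j = 1
  Φh : ∀ w, ‖w‖ = 1 → ∀ j, ∃ H : ℂ → ℂ, DiffContOnCl ℂ H (ball (0:ℂ) 1) ∧
        ∀ θ : ℝ, Φ (cexp (θ * I) • w) j = H (cexp (θ * I))

/-- one step -/
theorem Sd.step {A B : ℝ} {D : ℕ} {G Φ : E m → Fin N → ℂ} (S : Sd A B D G Φ) {M p : ℕ}
    (hM : 1 ≤ M) (hB : 0 ≤ B) {R : E m → ℂ} (hR : Gr (2 * M) (2 ^ p * M) R) {β : ℝ}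
    (hβ : ∀ z, ‖z‖ ≤ 1 → ‖R z‖ ≤ β) :
    ∃ V : Fin N → E m → ℂ, (∀ j, Gr (2 * M) (2 * (2 ^ p * M)) (V j)) ∧
      (∀ j z, ‖z‖ ≤ 1 → ‖V j z‖ ≤ p * (CT m * 2 ^ (m + 1) * (B * β))) ∧
      ∀ z, ‖z‖ ≤ 1 → ‖∑ j, G z j * V j z - R z‖ ≤
        48 * (CT m * 2 ^ (m + 1)) * N * A * B * (Real.sqrt D / Real.sqrt M) * β := by
  have hMM : M ≤ 2 ^ p * M := Nat.le_mul_of_pos_left _ (by positivity)
  have hM0 : (0:ℝ) < M := by exact_mod_cast hM
  have hRb : Bm β R := hR.bm hβ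
  have hβ0 := hRb.nonneg
  have hX : ∀ j, Bm (B * β) (fun w => Φ w j * R w) := fun j => (S.Φb j).mul hRb
  set V : Fin N → E m → ℂ := fun j => TO M (2 ^ p * M) (fun w => Φ w j * R w) with hV
  refine ⟨V, fun j => ?_, fun j z hz => TO_dy_bound0 hM p (hX j) hz, fun z hz => ?_⟩
  · refine TO_gr hM hMM (hX j) fun k _ hk w hw => ?_
    obtain ⟨H, hH, hH2⟩ := S.Φh w hw j
    obtain ⟨ψ, hψ, hψ2⟩ := hR.slice w
    refine fc_hol (s := 2 * M) (H := fun l => ψ l * H l) hk (hψ.diffContOnCl.smul hH) fun θ => ?_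
    rw [hH2, hψ2]
    ring
  · have hA0 := S.A0
    -- the difference as one operator
    have h1 : ∑ j, G z j * V j z - R z = TO M (2 ^ p * M) (fun w => ∑ j, (G z j - G w j) *
        (Φ w j * R w)) z := by
      have hb1 : ∀ j, Bm (A * (B * β)) (fun w => G z j * (Φ w j * R w)) := fun j => by
        refine ((hX j).smul (G z j)).mono ?_
        exact mul_le_mul_of_nonneg_right (S.Gb z hz j) (by positivity)
      have hb2 : ∀ j, Bm (A * (B * β)) (fun w => G w j * (Φ w j * R w)) := fun j =>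
        ((S.Gg j).bm (fun z hz => S.Gb z hz j)).mul (hX j)
      have e1 : (fun w => ∑ j, (G z j - G w j) * (Φ w j * R w)) =
          fun w => (∑ j, G z j * (Φ w j * R w)) + (-1) * ∑ j, G w j * (Φ w j * R w) := by
        funext w
        rw [neg_one_mul, ← sub_eq_add_neg, ← Finset.sum_sub_distrib]
        exact Finset.sum_congr rfl fun j _ => by ring
      rw [e1, TO_add (Bm.sum Finset.univ fun j _ => hb1 j)
        ((Bm.sum Finset.univ fun j _ => hb2 j).smul (-1)) hM hMM, TO_smul,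
        TO_sum _ (fun j _ => hb1 j) hM hMM]
      have e2 : TO M (2 ^ p * M) (fun w => ∑ j, G w j * (Φ w j * R w)) z = R z := by
        rw [← TO_repr hM hMM le_rfl le_rfl hR z]
        refine TO_congr hM hMM (fun v hv => ?_) z
        have : ∑ j, G v j * (Φ v j * R v) = (∑ j, G v j * Φ v j) * R v := by
          rw [Finset.sum_mul]
          exact Finset.sum_congr rfl fun j _ => by ring
        rw [this, S.GΦ v hv, one_mul]
      rw [e2]
      have e3 : ∑ j, TO M (2 ^ p * M) (fun w => G z j * (Φ w j * R w)) z =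
          ∑ j, G z j * V j z := Finset.sum_congr rfl fun j _ => by rw [TO_smul]
      rw [e3]
      ring
    rw [h1]
    set b1 : ℝ := N * (12 * A * Real.sqrt D * (B * β)) with hb1
    have hb10 : 0 ≤ b1 := by positivity
    have hXb : Bm (N * (2 * A * (B * β))) (fun w => ∑ j, (G z j - G w j) * (Φ w j * R w)) := by
      have h2 : ∀ j ∈ Finset.univ, Bm (2 * A * (B * β))
          (fun w => (G z j - G w j) * (Φ w j * R w)) := by
        intro j _
        refine Bm.mul ⟨?_, fun w hw => ?_⟩ (hX j)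
        · exact ((S.Gg j).diff.continuous.measurable).const_sub _
        · refine (norm_sub_le _ _).trans ?_
          have := S.Gb z hz j
          have := S.Gb w hw j
          linarith
      have h3 := Bm.sum Finset.univ h2
      rwa [Finset.card_univ, Fintype.card_fin] at h3
    have h2 := TO_dy_bound hM p hXb hb10 hz (fun v hv => by
      refine (norm_sum_le _ _).trans ?_
      refine (Finset.sum_le_card_nsmul _ _ (12 * A * Real.sqrt (D * ‖1 - (inner ℂ v z : ℂ)‖) *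
        (B * β)) fun j _ => ?_).trans (le_of_eq ?_)
      · rw [norm_mul]
        exact mul_le_mul ((S.Gg j).lip S.D1 hA0 (fun z hz => S.Gb z hz j) hv hz)
          ((hX j).bd v hv.le) (norm_nonneg _) (by positivity)
      · rw [nsmul_eq_mul, Finset.card_univ, Fintype.card_fin, hb1,
          Real.sqrt_mul (Nat.cast_nonneg _)]
        ring)
    refine h2.trans (le_of_eq ?_)
    rw [hb1]
    ring

/-- the iteration -/
theorem Sd.iter {A B : ℝ} {D : ℕ} {G Φ : E m → Fin N → ℂ} (S : Sd A B D G Φ) {M p : ℕ}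
    (hM : 1 ≤ M) (hB : 0 ≤ B) (hq : 48 * (CT m * 2 ^ (m + 1)) * N * A * B *
      (Real.sqrt D / Real.sqrt M) ≤ 1 / 2) (hDM : D ≤ 2 ^ p * M) {R0 : E m → ℂ}
    (hR : Gr (2 * M) (2 ^ p * M) R0) {β : ℝ}
    (hβ : ∀ z, ‖z‖ ≤ 1 → ‖R0 z‖ ≤ β) (J : ℕ) :
    ∃ (V : Fin N → E m → ℂ) (R : E m → ℂ), (∀ j, Differentiable ℂ (V j)) ∧
      Gr (2 * M) (2 ^ (p + 2 * J) * M) R ∧ (∀ z, ‖z‖ ≤ 1 → ‖R z‖ ≤ (1 / 2) ^ J * β) ∧
      (∀ j z, ‖z‖ ≤ 1 → ‖V j z‖ ≤ J * (p + 2 * J) * (CT m * 2 ^ (m + 1) * (B * β))) ∧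
      ∀ z, ∑ j, G z j * V j z = R0 z - R z := by
  have hβ0 : 0 ≤ β := (norm_nonneg _).trans (hβ 0 (by simp))
  have hCT := CT_pos m
  induction J with
  | zero =>
    refine ⟨fun _ _ => 0, R0, fun _ => differentiable_const _, by simpa using hR,
      by simpa using hβ, fun j z _ => ?_, fun z => ?_⟩
    · simp
    · simp
  | succ J ih =>
    obtain ⟨V, R, hVd, hRg, hRb, hVb, hVe⟩ := ih
    obtain ⟨W, hWg, hWb, hWe⟩ := S.step hM hB hRg hRb
    refine ⟨fun j z => V j z + W j z, fun z => R z - ∑ j, G z j * W j z,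
      fun j => (hVd j).add (hWg j).diff, ?_, fun z hz => ?_, fun j z hz => ?_, fun z => ?_⟩
    · have e : 2 ^ (p + 2 * (J + 1)) * M = 4 * (2 ^ (p + 2 * J) * M) := by ring
      rw [e]
      refine Gr.sub (hRg.mono le_rfl (by omega)) (Gr.sum _ fun j _ => ?_)
      have h1 := (S.Gg j).mul (hWg j)
      refine h1.mono (by omega) ?_
      have h2 : 2 ^ p * M ≤ 2 ^ (p + 2 * J) * M :=
        Nat.mul_le_mul_right _ (Nat.pow_le_pow_right (by norm_num) (by omega))
      omega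
    · have h1 := hWe z hz
      have h2 : ‖R z - ∑ j, G z j * W j z‖ = ‖∑ j, G z j * W j z - R z‖ := norm_sub_rev _ _
      rw [h2]
      refine h1.trans ?_
      have h3 : 0 ≤ (1 / 2 : ℝ) ^ J * β := by positivity
      calc _ ≤ 1 / 2 * ((1 / 2) ^ J * β) := mul_le_mul_of_nonneg_right hq h3
        _ = _ := by rw [pow_succ]; ring
    · refine (norm_add_le _ _).trans ((add_le_add (hVb j z hz) (hWb j z hz)).trans ?_)
      set c := CT m * 2 ^ (m + 1) with hc
      have hc0 : 0 < c := by positivity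
      have h1 : (1 / 2 : ℝ) ^ J * β ≤ β := by
        have : (1 / 2 : ℝ) ^ J ≤ 1 := pow_le_one₀ (by norm_num) (by norm_num)
        nlinarith
      have h2 : c * (B * ((1 / 2 : ℝ) ^ J * β)) ≤ c * (B * β) :=
        mul_le_mul_of_nonneg_left (mul_le_mul_of_nonneg_left h1 hB) hc0.le
      have h3 : 0 ≤ c * (B * β) := by positivity
      push_cast
      have hJ : (0:ℝ) ≤ J := Nat.cast_nonneg _
      have hp : (0:ℝ) ≤ p := Nat.cast_nonneg _
      calc (J:ℝ) * (p + 2 * J) * (c * (B * β)) +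
            (p + 2 * J) * (c * (B * ((1 / 2 : ℝ) ^ J * β)))
          ≤ (J:ℝ) * (p + 2 * J) * (c * (B * β)) + (p + 2 * J) * (c * (B * β)) := by
            gcongr
        _ ≤ ((J:ℝ) + 1) * (p + 2 * (J + 1)) * (c * (B * β)) := by
            have : (J:ℝ) * (p + 2 * J) + (p + 2 * J) ≤ ((J:ℝ) + 1) * (p + 2 * (J + 1)) := by
              nlinarith
            calc _ = ((J:ℝ) * (p + 2 * J) + (p + 2 * J)) * (c * (B * β)) := by ring
              _ ≤ _ := mul_le_mul_of_nonneg_right this h3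
    · have h1 : ∑ j, G z j * (V j z + W j z) = ∑ j, G z j * V j z + ∑ j, G z j * W j z := by
        rw [← Finset.sum_add_distrib]
        exact Finset.sum_congr rfl fun j _ => by ring
      rw [h1, hVe]
      ring

end Pool.Agent.K9h23.Bnd
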