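import Mathlib
import Pool.Agent.K9h23.Bnd.Stg

/-!
Partial sums at gaps of homogeneous expansions: bounds and values.
-/

set_option autoImplicit false

open Complex Set Metric Filter Topology
open scoped Real

namespace Pool.Agent.K9h23.Bnd

open Pool.Agent.K9h23.Hom
open Pool.Agent.K9h23.Lac (nsq nsq_nonneg nsq_c nn nn_nonneg nn_sq nn_add_le le_nsq nsq_smul' bd
  bd_le_nn comp_le_nn nsq_conj nn_le_comp)

variable {m N : ℕ}

/-- the maximum principle for absolutely convergent series -/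
theorem ser_max {a : ℕ → ℂ} (ha : Summable (fun k => ‖a k‖)) {B : ℝ}
    (hB : ∀ t : ℂ, ‖t‖ = 1 → ‖∑' k, t ^ k * a k‖ ≤ B) {t : ℂ} (ht : ‖t‖ ≤ 1) :
    ‖∑' k, t ^ k * a k‖ ≤ B := by
  have hle : ∀ k : ℕ, ∀ t : ℂ, ‖t‖ ≤ 1 → ‖t ^ k * a k‖ ≤ ‖a k‖ := by
    intro k t ht
    rw [norm_mul, norm_pow]
    have : ‖t‖ ^ k ≤ 1 := pow_le_one₀ (norm_nonneg _) ht
    calc ‖t‖ ^ k * ‖a k‖ ≤ 1 * ‖a k‖ := mul_le_mul_of_nonneg_right this (norm_nonneg _)
      _ = ‖a k‖ := one_mul _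
  have hd : DiffContOnCl ℂ (fun t : ℂ => ∑' k, t ^ k * a k) (ball (0:ℂ) 1) := by
    refine ⟨?_, ?_⟩
    · refine differentiableOn_tsum_of_summable_norm ha (fun k => ?_) isOpen_ball fun k t ht => ?_
      · exact ((differentiable_id.pow k).mul_const _).differentiableOn
      · exact hle k t (by simpa using (mem_ball_zero_iff.1 ht).le)
    · rw [closure_ball (0:ℂ) one_ne_zero]
      refine continuousOn_tsum (fun k => ?_) ha fun k t ht => hle k t (by simpa using ht)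
      exact ((continuous_pow k).mul continuous_const).continuousOn
  refine Complex.norm_le_of_forall_mem_frontier_norm_le isBounded_ball hd (fun y hy => ?_) ?_
  · rw [frontier_ball (0:ℂ) one_ne_zero, mem_sphere_zero_iff_norm] at hy
    exact hB y hy
  · rw [closure_ball (0:ℂ) one_ne_zero, mem_closedBall_zero_iff]
    exact ht

/-- one component of an expansion -/
structure Ex (H : ℕ → E m → ℂ) (f : E m → ℂ) : Prop where
  Hm : ∀ k, Hm k (H k)
  Hs : ∀ z, ‖z‖ < 1 → HasSum (fun k => H k z) (f z)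
  fb : ∀ z, ‖z‖ < 1 → ‖f z‖ ≤ 1

/-- the partial sum -/
noncomputable def cut (D : ℕ) (H : ℕ → E m → ℂ) (z : E m) : ℂ :=
  ∑ k ∈ Finset.range (D + 1), H k z

theorem cut_gr {H : ℕ → E m → ℂ} (hH : ∀ k, Hm k (H k)) (D : ℕ) : Gr 0 D (cut D H) :=
  ⟨H, hH, fun z => by unfold cut; rw [Nat.range_succ_eq_Icc_zero]⟩

/-- the remainder at `t z` -/
theorem Ex.tail {H : ℕ → E m → ℂ} {f : E m → ℂ} (X : Ex H f) {D s : ℕ} (hDs : D < s)
    (hgap : ∀ k, D < k → k < s → ∀ z, H k z = 0) {A : ℝ} (hA : ∀ z, ‖z‖ ≤ 1 → ‖cut D H z‖ ≤ A)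
    {z : E m} (hz : ‖z‖ < 1) {t : ℂ} (ht : ‖t‖ ≤ 1) :
    ‖f (t • z) - cut D H (t • z)‖ ≤ ‖t‖ ^ s * (1 + A) := by
  have hle : ∀ t : ℂ, ‖t‖ ≤ 1 → ‖t • z‖ < 1 := fun t ht => by
    rw [norm_smul]
    nlinarith [norm_nonneg z, norm_nonneg t]
  have hcut : ∀ y : E m, ∑ k ∈ Finset.range s, H k y = cut D H y := by
    intro y
    unfold cut
    symm
    refine Finset.sum_subset (Finset.range_mono (by omega)) fun k hk hk' => ?_
    rw [Finset.mem_range] at hk hk'
    exact hgap k (by omega) hk y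
  have h1 : ∀ t : ℂ, ‖t‖ ≤ 1 → HasSum (fun k => t ^ k * H (k + s) z * t ^ s)
      (f (t • z) - cut D H (t • z)) := by
    intro t ht
    have h2 := X.Hs _ (hle t ht)
    have h3 := (hasSum_nat_add_iff' s).2 h2
    rw [hcut] at h3
    refine h3.congr_fun fun k => ?_
    rw [(X.Hm (k + s)).h, pow_add]
    ring
  have hsum : Summable (fun k => ‖H (k + s) z‖) := by
    have h2 := (X.Hs z hz).summable.norm
    exact (summable_nat_add_iff (f := fun k => ‖H k z‖) s).2 h2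
  have h2 : ∀ t : ℂ, ‖t‖ ≤ 1 → f (t • z) - cut D H (t • z) =
      t ^ s * ∑' k, t ^ k * H (k + s) z := by
    intro t ht
    rw [← (h1 t ht).tsum_eq, tsum_mul_right]
    ring
  rw [h2 t ht, norm_mul, norm_pow]
  refine mul_le_mul_of_nonneg_left ?_ (by positivity)
  refine ser_max hsum (fun y hy => ?_) ht
  have h3 := h2 y hy.le
  have h4 : ‖f (y • z) - cut D H (y • z)‖ ≤ 1 + A :=
    (norm_sub_le _ _).trans (add_le_add (X.fb _ (hle y hy.le)) (hA _ (hle y hy.le).le))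
  rw [h3, norm_mul, norm_pow, hy, one_pow, one_mul] at h4
  exact h4

/-- **Partial sums at gaps.** -/
theorem cut_close {κ : ℝ} (hκ : 0 < κ) (hκ1 : κ ≤ 1) : ∃ c : ℝ, 0 < c ∧ c ≤ 1 ∧
    ∀ D s : ℕ, 1 ≤ D → D < s → (D : ℝ) ≤ c * s → ∃ r : ℝ, 0 ≤ r ∧ r < 1 ∧
    ∀ (m : ℕ) (H : ℕ → E m → ℂ) (f : E m → ℂ), Ex H f →
    (∀ k, D < k → k < s → ∀ z, H k z = 0) →
    (∀ z, ‖z‖ ≤ 1 → ‖cut D H z‖ ≤ 2) ∧
    ∀ z, ‖z‖ < 1 → ‖f ((r : ℂ) • z) - cut D H z‖ ≤ κ := by
  set T : ℝ := Real.log (8 / κ) with hT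
  have h8 : 1 < 8 / κ := by
    rw [lt_div_iff₀ hκ]
    linarith
  have hT0 : 0 < T := Real.log_pos h8
  have hT1 : 1 ≤ T := by
    rw [hT, Real.le_log_iff_exp_le (by positivity)]
    have h1 := Real.exp_one_lt_d9
    have h2 : 8 ≤ 8 / κ := by
      rw [le_div_iff₀ hκ]
      linarith
    linarith
  have hexp : Real.exp (-T) = κ / 8 := by
    rw [Real.exp_neg, hT, Real.exp_log (by positivity)]
    field_simp
  refine ⟨κ / (48 * T), by positivity, ?_, fun D s hD hDs hc => ?_⟩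
  · rw [div_le_one (by positivity)]
    linarith
  have hs0 : (0:ℝ) < s := by exact_mod_cast (by omega : 0 < s)
  have hD1 : (1:ℝ) ≤ D := by exact_mod_cast hD
  set x : ℝ := T / s with hx
  have hx0 : 0 < x := by positivity
  have hDx : D * x ≤ κ / 48 := by
    rw [hx, mul_div_assoc', div_le_iff₀ hs0]
    calc D * T ≤ κ / (48 * T) * s * T := mul_le_mul_of_nonneg_right hc hT0.le
      _ = κ / 48 * s := by field_simp
  have hx1 : x ≤ 1 / 48 := by nlinarith
  set r : ℝ := 1 - x with hr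
  have hr0 : 0 ≤ r := by rw [hr]; linarith
  have hr1 : r < 1 := by rw [hr]; linarith
  have hrs : r ^ s ≤ κ / 8 := by
    rw [← hexp]
    have h1 : r ≤ Real.exp (-x) := by
      have := Real.add_one_le_exp (-x)
      rw [hr]
      linarith
    refine (pow_le_pow_left₀ hr0 h1 s).trans (le_of_eq ?_)
    rw [← Real.exp_nat_mul]
    congr 1
    rw [hx]
    field_simp
  refine ⟨r, hr0, hr1, fun m H f X hgap => ?_⟩
  -- the maximum of the partial sum
  have hd := (cut_gr X.Hm D).diff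
  obtain ⟨z0, hz0, hmax⟩ := (isCompact_closedBall (0 : E m) 1).exists_isMaxOn
    ⟨0, by simp⟩ (f := fun z => ‖cut D H z‖) hd.continuous.norm.continuousOn
  set A : ℝ := ‖cut D H z0‖ with hA
  have hA0 : 0 ≤ A := norm_nonneg _
  have hAb : ∀ z, ‖z‖ ≤ 1 → ‖cut D H z‖ ≤ A := fun z hz => hmax (by simpa using hz)
  have hz0' : ‖z0‖ ≤ 1 := by simpa using hz0
  -- the comparison
  have hcmp : ∀ z, ‖z‖ < 1 → ‖f ((r : ℂ) • z) - cut D H z‖ ≤ κ / 8 * A + κ / 8 * (1 + A) := by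
    intro z hz
    have hrn : ‖(r : ℂ)‖ = r := by rw [Complex.norm_real, Real.norm_of_nonneg hr0]
    have h1 := X.tail hDs hgap hAb hz (t := (r : ℂ)) (by rw [hrn]; exact hr1.le)
    rw [hrn] at h1
    have h2 := gr_lip hD hA0 hd ((cut_gr X.Hm D).growth hAb) (z := (r : ℂ) • z) (w := z) (by
      rw [norm_smul, hrn]
      nlinarith [norm_nonneg z]) hz.le
    have h3 : ‖(r : ℂ) • z - z‖ ≤ x := by
      have : (r : ℂ) • z - z = (((-x : ℝ)) : ℂ) • z := by
        rw [hr]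
        push_cast
        rw [sub_smul, one_smul, neg_smul]
        abel
      rw [this, norm_smul, Complex.norm_real, norm_neg, Real.norm_of_nonneg hx0.le]
      nlinarith [norm_nonneg z]
    have e1 : f ((r : ℂ) • z) - cut D H z = (cut D H ((r : ℂ) • z) - cut D H z) +
        (f ((r : ℂ) • z) - cut D H ((r : ℂ) • z)) := by ring
    rw [e1]
    refine (norm_add_le _ _).trans (add_le_add (h2.trans ?_) (h1.trans ?_))
    · calc 6 * A * D * ‖(r : ℂ) • z - z‖ ≤ 6 * A * D * x :=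
            mul_le_mul_of_nonneg_left h3 (by positivity)
        _ = 6 * A * (D * x) := by ring
        _ ≤ 6 * A * (κ / 48) := mul_le_mul_of_nonneg_left hDx (by positivity)
        _ = κ / 8 * A := by ring
    · exact mul_le_mul_of_nonneg_right hrs (by linarith)
  have hA2 : A ≤ 3 / 2 := by
    have h1 : ∀ z, ‖z‖ < 1 → -(1 + κ / 8 * A + κ / 8 * (1 + A)) ≤ -‖cut D H z‖ := by
      intro z hz
      have h2 := hcmp z hz
      have h3 : ‖f ((r : ℂ) • z)‖ ≤ 1 := X.fb _ (by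
        rw [norm_smul, Complex.norm_real, Real.norm_of_nonneg hr0]
        nlinarith [norm_nonneg z])
      have h4 : ‖cut D H z‖ ≤ ‖f ((r : ℂ) • z)‖ + ‖f ((r : ℂ) • z) - cut D H z‖ := by
        have h5 := norm_sub_le (f ((r : ℂ) • z)) (f ((r : ℂ) • z) - cut D H z)
        have e : f ((r : ℂ) • z) - (f ((r : ℂ) • z) - cut D H z) = cut D H z := by ring
        rwa [e] at h5
      linarith
    have h2 := closed_of_ball (g := fun z => -‖cut D H z‖) hd.continuous.norm.neg h1 hz0'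
    have h3 : A ≤ 1 + κ / 8 * A + κ / 8 * (1 + A) := by linarith
    nlinarith
  refine ⟨fun z hz => (hAb z hz).trans (by linarith), fun z hz => (hcmp z hz).trans ?_⟩
  nlinarith

end Pool.Agent.K9h23.Bnd
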