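import Mathlib
import Pool.Agent.K9h23.Bnd.Cut

/-!
The corona theorem for expansions in bands of degrees with gaps.
-/

set_option autoImplicit false

open Complex Set Metric Filter Topology
open scoped Real

namespace Pool.Agent.K9h23.Bnd

open Pool.Agent.K9h23.Hom
open Pool.Agent.K9h23.Lac (nsq nsq_nonneg nsq_cont nsq_c nn nn_nonneg nn_sq nn_add_le le_nsq
  nsq_smul' bd bd_le_nn comp_le_nn nsq_conj nn_le_comp Bal isOpen_Bal)

variable {m N d K : ℕ}

/-- expansions in bands -/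
structure DB (d K : ℕ) (l : ℕ → ℕ) (H : ℕ → E m → Fin N → ℂ) (f : E m → Fin N → ℂ) : Prop where
  Hd : ∀ k j, Hm k (fun z => H k z j)
  Hs : ∀ z, ‖z‖ < 1 → ∀ j, HasSum (fun k => H k z j) (f z j)
  sp : ∀ k, d < k → (∀ i, ¬ (l i ≤ k ∧ k ≤ K * l i)) → ∀ z j, H k z j = 0
  fb : ∀ z, ‖z‖ < 1 → nn (f z) ≤ 1
  d1 : 1 ≤ d
  K1 : 1 ≤ K
  ld : d < l 0
  ll : ∀ i, K * l i < l (i + 1)

/-- the degrees of the partial sums -/
def Db (d K : ℕ) (l : ℕ → ℕ) : ℕ → ℕ
  | 0 => d
  | i + 1 => K * l i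

/-- the partial sums -/
noncomputable def Fb (d K : ℕ) (l : ℕ → ℕ) (H : ℕ → E m → Fin N → ℂ) (i : ℕ) (z : E m)
    (j : Fin N) : ℂ := cut (Db d K l i) (fun k z => H k z j) z

/-- the bands -/
noncomputable def Qb (K : ℕ) (l : ℕ → ℕ) (H : ℕ → E m → Fin N → ℂ) (i : ℕ) (z : E m)
    (j : Fin N) : ℂ := ∑ k ∈ Finset.Icc (l i) (K * l i), H k z j

variable {l : ℕ → ℕ} {H : ℕ → E m → Fin N → ℂ} {f : E m → Fin N → ℂ}

theorem DB.ex (D : DB d K l H f) (j : Fin N) : Ex (fun k z => H k z j) (fun z => f z j) :=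
  ⟨fun k => D.Hd k j, fun z hz => D.Hs z hz j, fun z hz => (comp_le_nn _ j).trans (D.fb z hz)⟩

theorem DB.Db_lt (D : DB d K l H f) (i : ℕ) : Db d K l i < l i := by
  cases i with
  | zero => exact D.ld
  | succ i => exact D.ll i

theorem DB.lK (D : DB d K l H f) (i : ℕ) : l i ≤ K * l i := Nat.le_mul_of_pos_left _ D.K1

theorem DB.lm (D : DB d K l H f) : StrictMono l :=
  strictMono_nat_of_lt_succ fun i => (D.lK i).trans_lt (D.ll i)

theorem DB.Db_ge (D : DB d K l H f) (i : ℕ) : d ≤ Db d K l i := by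
  cases i with
  | zero => exact le_rfl
  | succ i =>
    change d ≤ K * l i
    have h1 := D.lK i
    have h2 := D.lm.monotone (Nat.zero_le i)
    have h3 := D.ld
    omega

theorem DB.gap (D : DB d K l H f) (i : ℕ) {k : ℕ} (hk : Db d K l i < k) (hk' : k < l i)
    (z : E m) (j : Fin N) : H k z j = 0 := by
  have hd := D.Db_ge i
  refine D.sp k (by omega) (fun i' hi' => ?_) z j
  rcases lt_or_ge i' i with h | h
  · cases i with
    | zero => exact absurd h (Nat.not_lt_zero _)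
    | succ i =>
      have h1 : K * l i' ≤ K * l i := Nat.mul_le_mul_left _ (D.lm.monotone (by omega))
      have h2 : K * l i < k := hk
      omega
  · have h1 := D.lm.monotone h
    omega

theorem DB.succ (D : DB d K l H f) (i : ℕ) (z : E m) (j : Fin N) :
    Fb d K l H (i + 1) z j = Fb d K l H i z j + Qb K l H i z j := by
  unfold Fb Qb cut
  change ∑ k ∈ Finset.range (K * l i + 1), H k z j = _
  have h1 := D.Db_lt i
  have h2 := D.lK i
  have h3 : ∑ k ∈ Finset.range (Db d K l i + 1), H k z j = ∑ k ∈ Finset.range (l i), H k z j := by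
    refine Finset.sum_subset (Finset.range_mono (by omega)) fun k hk hk' => ?_
    rw [Finset.mem_range] at hk hk'
    exact D.gap i (by omega) hk z j
  rw [h3, ← Finset.Ico_add_one_right_eq_Icc, Finset.sum_range_add_sum_Ico _ (by omega)]

theorem DB.Fg (D : DB d K l H f) (i : ℕ) (j : Fin N) :
    Gr 0 (Db d K l i) (fun z => Fb d K l H i z j) := cut_gr (fun k => D.Hd k j) _

theorem DB.Qg (D : DB d K l H f) (i : ℕ) (j : Fin N) :
    Gr (l i) (K * l i) (fun z => Qb K l H i z j) :=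
  ⟨fun k z => H k z j, fun k => D.Hd k j, fun _ => rfl⟩

theorem DB.tend (D : DB d K l H f) {z : E m} (hz : ‖z‖ < 1) (j : Fin N) :
    Tendsto (fun i => Fb d K l H i z j) atTop (𝓝 (f z j)) := by
  have h1 := (D.Hs z hz j).tendsto_sum_nat
  have h2 : Tendsto (fun i => Db d K l i + 1) atTop atTop := by
    refine tendsto_atTop_mono (fun i => ?_) tendsto_id
    cases i with
    | zero => exact Nat.zero_le _
    | succ i =>
      change i + 1 ≤ K * l i + 1
      have h3 := D.lK i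
      have h4 := D.lm.le_apply (x := i)
      omega
  exact h1.comp h2

/-- **Main theorem**, abstract form. -/
theorem bmain (m N d K : ℕ) (hK : 1 ≤ K) {δ : ℝ} (hδ : 0 < δ) (hδ1 : δ ≤ 1) {B0 S : ℝ}
    (hB0 : 0 ≤ B0) (_hS : 0 ≤ S) :
    ∃ c0 : ℝ, 0 < c0 ∧ ∃ C : ℝ, ∀ (l : ℕ → ℕ) (H : ℕ → E m → Fin N → ℂ) (f : E m → Fin N → ℂ),
    DB d K l H f → (∀ z, ‖z‖ < 1 → δ ≤ nn (f z)) →
    (∀ I, ∑ i ∈ Finset.range I, Real.sqrt (Db d K l i) / Real.sqrt (l i) ≤ c0) →
    (∀ z, ‖z‖ < 1 → ∀ I, ∑ i ∈ Finset.range I, ∑ a, ‖Qb K l H i z a‖ ≤ S) →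
    ∀ h0 : E m → Fin N → ℂ, (∀ j, Differentiable ℂ (fun z => h0 z j)) →
    (∀ z, ‖z‖ < 1 → ∀ j, ‖h0 z j‖ ≤ B0) →
    (∀ z, ‖z‖ < 1 → ‖∑ j, Fb d K l H 0 z j * h0 z j - 1‖ ≤ 1 / 4) →
    ∃ g : Fin N → (Fin m → ℂ) → ℂ, (∀ j, DifferentiableOn ℂ (g j) (Bal m)) ∧
      (∀ z ∈ Bal m, ∀ j, ‖g j z‖ ≤ C) ∧
      ∀ z ∈ Bal m, ∑ j, f (WithLp.toLp 2 z) j * g j z = 1 := by
  have hN0 : (0:ℝ) ≤ N := Nat.cast_nonneg _
  set κ : ℝ := δ / (2 * (N + 1)) with hκ
  have hκ0 : 0 < κ := by positivity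
  have hκN : (N + 1) * κ = δ / 2 := by rw [hκ]; field_simp
  have hκ1 : κ ≤ 1 := by nlinarith
  obtain ⟨c, hc, hc1', hclose⟩ := cut_close hκ0 hκ1
  obtain ⟨C1, hC1, hstage⟩ := bstage m N K hK (δ := δ / 2) (A := 2) (by positivity)
    (by norm_num)
  set X : ℝ := N * (B0 * Real.exp (N * C1 * (S + 1))) * C1 with hX
  have hX0 : 0 ≤ X := by positivity
  set c1 : ℝ := 1 / (4 * (X + 1)) with hc1
  have hc10 : 0 < c1 := by positivity
  have hc11 : c1 ≤ 1 := by
    rw [hc1, div_le_one (by positivity)]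
    linarith
  have hXc : X * c1 ≤ 1 / 4 := by
    rw [hc1, mul_one_div, div_le_div_iff₀ (by positivity) (by norm_num)]
    linarith
  set c0 : ℝ := min (c1 / 2) (c / 2) with hc0
  have hc00 : 0 < c0 := lt_min (by positivity) (by positivity)
  have hc0a : c0 ≤ c1 / 2 := min_le_left _ _
  have hc0b : c0 ≤ c / 2 := min_le_right _ _
  have hc0e : c0 ≤ 1 := by linarith
  refine ⟨c0, hc00, 2 * (B0 * Real.exp (N * C1 * (S + c1))), fun l H f D hfl hgap hSb h0 hh0d hh0b
    hh01 => ?_⟩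
  have hl1 : ∀ i, 1 ≤ l i := fun i => by
    have := D.Db_lt i
    omega
  have hl0 : ∀ i, (0:ℝ) < l i := fun i => by
    exact_mod_cast (by have := hl1 i; omega : 0 < l i)
  have hDb1 : ∀ i, 1 ≤ Db d K l i := fun i => D.d1.trans (D.Db_ge i)
  have hDb0 : ∀ i, (1:ℝ) ≤ Db d K l i := fun i => by exact_mod_cast hDb1 i
  -- each term
  have hterm : ∀ i, Real.sqrt (Db d K l i) / Real.sqrt (l i) ≤ c0 := by
    intro i
    have h1 := hgap (i + 1)
    rw [Finset.sum_range_succ] at h1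
    have h2 : 0 ≤ ∑ t ∈ Finset.range i, Real.sqrt (Db d K l t) / Real.sqrt (l t) :=
      Finset.sum_nonneg fun _ _ => by positivity
    linarith
  have hterm2 : ∀ i, (Db d K l i : ℝ) ≤ c * l i := by
    intro i
    have h1 := hterm i
    rw [div_le_iff₀ (Real.sqrt_pos.2 (hl0 i))] at h1
    have h2 := pow_le_pow_left₀ (Real.sqrt_nonneg _) h1 2
    rw [mul_pow, Real.sq_sqrt (hl0 i).le, Real.sq_sqrt (Nat.cast_nonneg _)] at h2
    refine h2.trans (mul_le_mul_of_nonneg_right ?_ (hl0 i).le)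
    nlinarith
  -- the partial sums
  have hfro : ∀ i, (∀ z, ‖z‖ < 1 → δ / 2 ≤ nn (Fb d K l H i z) ∧ nn (Fb d K l H i z) ≤ 2) := by
    intro i z hz
    obtain ⟨r, hr0, hr1, hr⟩ := hclose (Db d K l i) (l i) (hDb1 i) (D.Db_lt i) (hterm2 i)
    have h1 : ∀ j, ‖f ((r : ℂ) • z) j - Fb d K l H i z j‖ ≤ κ := fun j =>
      (hr m (fun k z => H k z j) (fun z => f z j) (D.ex j)
        (fun k hk hk' z => D.gap i hk hk' z j)).2 z hz
    have hz' : ‖(r : ℂ) • z‖ < 1 := by
      rw [norm_smul, Complex.norm_real, Real.norm_of_nonneg hr0]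
      nlinarith [norm_nonneg z]
    have h2 : nn (fun j => f ((r : ℂ) • z) j - Fb d K l H i z j) ≤ δ / 2 :=
      (nn_le_comp hκ0.le h1).trans hκN.le
    have h3 : nn (fun j => Fb d K l H i z j - f ((r : ℂ) • z) j) ≤ δ / 2 := by
      refine (nn_le_comp hκ0.le fun j => ?_).trans hκN.le
      rw [norm_sub_rev]; exact h1 j
    constructor
    · have h4 := nn_add_le (fun j => Fb d K l H i z j)
        (fun j => f ((r : ℂ) • z) j - Fb d K l H i z j)
      have e : (fun j => Fb d K l H i z j + (f ((r : ℂ) • z) j - Fb d K l H i z j)) =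
          f ((r : ℂ) • z) := by
        funext j; ring
      rw [e] at h4
      have := hfl _ hz'
      linarith
    · have h4 := nn_add_le (f ((r : ℂ) • z)) (fun j => Fb d K l H i z j - f ((r : ℂ) • z) j)
      have e : (fun j => f ((r : ℂ) • z) j + (Fb d K l H i z j - f ((r : ℂ) • z) j)) =
          fun j => Fb d K l H i z j := by
        funext j; ring
      rw [e] at h4
      have := D.fb _ hz'
      change nn (fun j => Fb d K l H i z j) ≤ 2
      linarith
  have hFd : ∀ i j, Differentiable ℂ (fun z => Fb d K l H i z j) := fun i j => (D.Fg i j).diff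
  have hFc : ∀ i, Continuous (fun z => nn (Fb d K l H i z)) := fun i =>
    nn_cont.comp (continuous_pi fun j => (hFd i j).continuous)
  have hFcl : ∀ i z, ‖z‖ ≤ 1 → δ / 2 ≤ nn (Fb d K l H i z) ∧ nn (Fb d K l H i z) ≤ 2 := by
    intro i z hz
    refine ⟨closed_of_ball (hFc i) (fun z hz => (hfro i z hz).1) hz, ?_⟩
    have h1 := closed_of_ball (g := fun z => -nn (Fb d K l H i z)) (hFc i).neg (a := -2)
      (fun z hz => by
        have := (hfro i z hz).2
        linarith) hz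
    linarith
  -- the stage
  have hBz : ∀ i, Bz (δ / 2) 2 K (Db d K l i) (l i) (Fb d K l H i) (Qb K l H i) := by
    intro i
    have hlt := D.Db_lt i
    refine ⟨hDb1 i, hlt.le, ?_, D.Fg i, D.Qg i, hFcl i, fun z hz => ?_⟩
    · have := hDb1 i
      omega
    · have e : (fun j => Fb d K l H i z j + Qb K l H i z j) = Fb d K l H (i + 1) z := by
        funext j
        rw [D.succ]
      rw [e]
      exact hFcl (i + 1) z hz
  have hε : ∀ i : ℕ, 0 < c1 * (1 / 2) ^ (i + 2) := fun i => by positivity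
  choose M hMd hMb using fun i => hstage (Db d K l i) (l i) _ _ (hBz i) _ (hε i)
  set w : ℕ → E m → ℝ := fun i z => ∑ a, ‖Qb K l H i z a‖ with hw
  set η : ℕ → ℝ := fun i => Real.sqrt (Db d K l i) / Real.sqrt (l i) + c1 * (1 / 2) ^ (i + 2)
    with hη
  have hwa : ∀ i z a, ‖Qb K l H i z a‖ ≤ w i z := fun i z a =>
    Finset.single_le_sum (f := fun a => ‖Qb K l H i z a‖) (fun _ _ => norm_nonneg _)
      (Finset.mem_univ a)
  have hQb : ∀ i z a, ‖z‖ ≤ 1 → ‖Qb K l H i z a‖ ≤ 4 := by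
    intro i z a hz
    have e : Qb K l H i z a = Fb d K l H (i + 1) z a - Fb d K l H i z a := by
      rw [D.succ]; ring
    rw [e]
    refine (norm_sub_le _ _).trans ?_
    have h1 := (comp_le_nn _ a).trans (hFcl (i + 1) z hz).2
    have h2 := (comp_le_nn _ a).trans (hFcl i z hz).2
    linarith
  have hsum2 : ∀ I, ∑ i ∈ Finset.range I, ((1:ℝ) / 2) ^ (i + 2) ≤ 1 / 2 := by
    intro I
    have h1 : ∑ i ∈ Finset.range I, ((1:ℝ) / 2) ^ (i + 2) =
        1 / 4 * ∑ i ∈ Finset.range I, ((1:ℝ) / 2) ^ i := by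
      rw [Finset.mul_sum]
      exact Finset.sum_congr rfl fun i _ => by rw [pow_add]; ring
    rw [h1]
    have h2 := geom_le (q := (1 / 2 : ℝ)) (by norm_num) (by norm_num) I
    norm_num at h2 ⊢
    linarith
  have I : It 2 B0 C1 S (4 * N) c1 (Fb d K l H) (Qb K l H) f h0 M w η := by
    refine ⟨by norm_num, hB0, by linarith, by positivity, hFd, fun i z j => D.succ i z j,
      fun i z hz j => (comp_le_nn _ j).trans (hFcl i z hz.le).2, fun z hz j => D.tend hz j, hh0d,
      hh0b, hh01, hMd, fun i z hz a j => ?_, fun i z hz a => ?_, fun i z => ?_, hSb,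
      fun i z r hz hr => ?_, fun i => ?_, fun I => ?_, ?_⟩
    · have h1 := (hMb i z hz.le a).1 j
      refine h1.trans (mul_le_mul_of_nonneg_left (add_le_add (hwa i z a) ?_) (by linarith))
      have := hε i
      rw [hη]
      simp only
      linarith
    · have h1 := (hMb i z hz.le a).2
      refine h1.trans ?_
      have h2 := (hε i).le
      rw [hη]
      simp only
      rw [mul_add]
      have : c1 * (1 / 2) ^ (i + 2) ≤ C1 * (c1 * (1 / 2) ^ (i + 2)) := by nlinarith
      linarith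
    · exact Finset.sum_nonneg fun _ _ => norm_nonneg _
    · rw [hw]
      simp only
      have hr0 : 0 ≤ r := (norm_nonneg z).trans hz
      refine (Finset.sum_le_card_nsmul _ _ (4 * r ^ i) fun a _ => ?_).trans (le_of_eq ?_)
      · have h1 := (D.Qg i a).schwarz (fun z hz => hQb i z a hz) (hz.trans hr.le)
        refine h1.trans (mul_le_mul_of_nonneg_left ?_ (by norm_num))
        refine (pow_le_pow_left₀ (norm_nonneg _) hz _).trans ?_
        exact pow_le_pow_of_le_one hr0 hr.le (D.lm.le_apply)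
      · rw [nsmul_eq_mul, Finset.card_univ, Fintype.card_fin]
        ring
    · have := (hε i).le
      rw [hη]
      simp only
      positivity
    · rw [hη]
      simp only
      rw [Finset.sum_add_distrib, ← Finset.mul_sum]
      have h2 := hgap I
      have h3 := hsum2 I
      nlinarith
    · refine le_trans ?_ hXc
      refine mul_le_mul_of_nonneg_right ?_ hc10.le
      rw [hX]
      refine mul_le_mul_of_nonneg_right (mul_le_mul_of_nonneg_left
        (mul_le_mul_of_nonneg_left ?_ hB0) hN0) (by linarith)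
      apply Real.exp_le_exp.2
      refine mul_le_mul_of_nonneg_left (by linarith) (by positivity)
  exact I.main

end Pool.Agent.K9h23.Bnd
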