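import Mathlib
import Pool.Agent.K9h23.Bnd.Main
import Pool.Agent.K9h23.Hom.Res

/-!
The corona theorem for expansions in bands of degrees: polynomial form.
-/

set_option autoImplicit false

open Complex Set Metric Filter Topology MvPolynomial
open scoped Real

namespace Pool.Agent.K9h23.Bnd

open Pool.Agent.K9h23.Hom
open Pool.Agent.K9h23.Lac (nsq nsq_nonneg nsq_cont nsq_c nn nn_nonneg nn_sq nn_add_le le_nsq
  nsq_smul' bd bd_le_nn comp_le_nn nsq_conj nn_le_comp Bal isOpen_Bal MP Rg Sz ev bez_unif FD)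

variable {n N : ℕ}

/-- the homogeneous terms as functions -/
noncomputable def HH (P : ℕ → Fin N → MP n) (k : ℕ) (z : E n) (j : Fin N) : ℂ :=
  eval z.ofLp (P k j)

theorem HH_Hm {P : ℕ → Fin N → MP n} (hP : ∀ k j, (P k j).IsHomogeneous k) (k : ℕ) (j : Fin N) :
    Hm k (fun z => HH P k z j) :=
  ⟨(eval_diff (P k j)).comp ((PiLp.continuousLinearEquiv 2 ℂ (fun _ : Fin n => ℂ))).differentiable,
    fun c z => eval_smul (hP k j) c z.ofLp⟩

theorem ball_ofLp {z : E n} (hz : ‖z‖ < 1) : z.ofLp ∈ Bal n := by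
  change nsq z.ofLp < 1
  have h1 := nsq_toLp z.ofLp
  rw [← h1]
  have h2 : (WithLp.toLp 2 z.ofLp : E n) = z := rfl
  rw [h2]
  nlinarith [norm_nonneg z]

/-- values and bounds of the partial sums -/
theorem fro (N : ℕ) {δ : ℝ} (hδ : 0 < δ) (hδ1 : δ ≤ 1) : ∃ c : ℝ, 0 < c ∧ c ≤ 1 ∧
    ∀ D s : ℕ, 1 ≤ D → D < s → (D : ℝ) ≤ c * s →
    ∀ (m : ℕ) (H : ℕ → E m → Fin N → ℂ) (f : E m → Fin N → ℂ),
    (∀ k j, Hm k (fun z => H k z j)) → (∀ z, ‖z‖ < 1 → ∀ j, HasSum (fun k => H k z j) (f z j)) →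
    (∀ z, ‖z‖ < 1 → nn (f z) ≤ 1) → (∀ z, ‖z‖ < 1 → δ ≤ nn (f z)) →
    (∀ k, D < k → k < s → ∀ z j, H k z j = 0) →
    ∀ z, ‖z‖ < 1 → δ / 2 ≤ nn (fun j => cut D (fun k z => H k z j) z) ∧
      nn (fun j => cut D (fun k z => H k z j) z) ≤ 2 := by
  set κ : ℝ := δ / (2 * (N + 1)) with hκ
  have hκ0 : 0 < κ := by positivity
  have hκN : (N + 1) * κ = δ / 2 := by rw [hκ]; field_simp
  have hN0 : (0:ℝ) ≤ N := Nat.cast_nonneg _
  have hκ1 : κ ≤ 1 := by nlinarith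
  obtain ⟨c, hc, hc1, hclose⟩ := cut_close hκ0 hκ1
  refine ⟨c, hc, hc1, fun D s hD hDs hcs m H f hH hs hfb hfl hgap z hz => ?_⟩
  obtain ⟨r, hr0, hr1, hr⟩ := hclose D s hD hDs hcs
  set F : Fin N → ℂ := fun j => cut D (fun k z => H k z j) z with hF
  have h1 : ∀ j, ‖f ((r : ℂ) • z) j - F j‖ ≤ κ := fun j =>
    (hr m (fun k z => H k z j) (fun z => f z j)
      ⟨fun k => hH k j, fun z hz => hs z hz j, fun z hz => (comp_le_nn _ j).trans (hfb z hz)⟩
      (fun k hk hk' z => hgap k hk hk' z j)).2 z hz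
  have hz' : ‖(r : ℂ) • z‖ < 1 := by
    rw [norm_smul, Complex.norm_real, Real.norm_of_nonneg hr0]
    nlinarith [norm_nonneg z]
  have h2 : nn (fun j => f ((r : ℂ) • z) j - F j) ≤ δ / 2 :=
    (nn_le_comp hκ0.le h1).trans hκN.le
  have h3 : nn (fun j => F j - f ((r : ℂ) • z) j) ≤ δ / 2 := by
    refine (nn_le_comp hκ0.le fun j => ?_).trans hκN.le
    rw [norm_sub_rev]; exact h1 j
  constructor
  · have h4 := nn_add_le F (fun j => f ((r : ℂ) • z) j - F j)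
    have e : (fun j => F j + (f ((r : ℂ) • z) j - F j)) = f ((r : ℂ) • z) := by
      funext j; ring
    rw [e] at h4
    have := hfl _ hz'
    linarith
  · have h4 := nn_add_le (f ((r : ℂ) • z)) (fun j => F j - f ((r : ℂ) • z) j)
    have e : (fun j => f ((r : ℂ) • z) j + (F j - f ((r : ℂ) • z) j)) = F := by
      funext j; ring
    rw [e] at h4
    have := hfb _ hz'
    linarith

/-- **Theorem**, polynomial form with a bound for the sum of the bands. -/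
theorem final0 (n N d K : ℕ) (hd : 1 ≤ d) (hK : 1 ≤ K) {δ : ℝ} (hδ : 0 < δ) (hδ1 : δ ≤ 1) {S : ℝ}
    (hS : 0 ≤ S) : ∃ c : ℝ, 0 < c ∧ c ≤ 1 / 5 ∧ ∃ C : ℝ,
    ∀ (l : ℕ → ℕ) (P : ℕ → Fin N → MP n) (f : Fin N → (Fin n → ℂ) → ℂ),
    d < l 0 → (∀ i, K * l i < l (i + 1)) → (∀ k j, (P k j).IsHomogeneous k) →
    (∀ k, d < k → (∀ i, ¬ (l i ≤ k ∧ k ≤ K * l i)) → ∀ j, P k j = 0) →
    (∀ z ∈ Bal n, ∀ j, HasSum (fun k => eval z (P k j)) (f j z)) →
    (∀ z ∈ Bal n, δ ^ 2 ≤ nsq (fun j => f j z) ∧ nsq (fun j => f j z) ≤ 1) →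
    (∀ I, ∑ i ∈ Finset.range I, Real.sqrt (Db d K l i) / Real.sqrt (l i) ≤ c) →
    (∀ z : E n, ‖z‖ < 1 → ∀ I, ∑ i ∈ Finset.range I, ∑ a, ‖Qb K l (HH P) i z a‖ ≤ S) →
    ∃ g : Fin N → (Fin n → ℂ) → ℂ, (∀ j, DifferentiableOn ℂ (g j) (Bal n)) ∧
      (∀ z ∈ Bal n, ∀ j, ‖g j z‖ ≤ C) ∧ ∀ z ∈ Bal n, ∑ j, f j z * g j z = 1 := by
  obtain ⟨c, hc, hc1, hfro⟩ := fro N hδ hδ1
  obtain ⟨Λ, hΛ⟩ := bez_unif n N d (c := (δ / 2) ^ 2) (ε := 1 / 4) (by positivity) (by norm_num)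
  set B0 : ℝ := (FD n d).card * Λ + (FD n Λ).card * Λ with hB0
  obtain ⟨c0, hc0, C, hmain⟩ := bmain (N := N) n d K hK hδ hδ1 (B0 := B0) (by positivity) hS
  refine ⟨min c0 (min c (1 / 5)), lt_min hc0 (lt_min hc (by norm_num)),
    (min_le_right _ _).trans (min_le_right _ _), C,
    fun l P f hld hll hP hsp hs hfb hgap hSb => ?_⟩
  set c2 := min c0 (min c (1 / 5)) with hc2
  have hc2a : c2 ≤ c0 := min_le_left _ _
  have hc2b : c2 ≤ c := (min_le_right _ _).trans (min_le_left _ _)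
  have hc20 : 0 < c2 := lt_min hc0 (lt_min hc (by norm_num))
  -- the abstract data
  set F : E n → Fin N → ℂ := fun z j => f j z.ofLp with hF
  have D : DB d K l (HH P) F := by
    refine ⟨fun k j => HH_Hm hP k j, fun z hz j => hs _ (ball_ofLp hz) j,
      fun k hk hkl z j => ?_, fun z hz => ?_, hd, hK, hld, hll⟩
    · unfold HH
      rw [hsp k hk hkl j, map_zero]
    · have h1 := (hfb _ (ball_ofLp hz)).2
      exact Pool.Agent.K9h23.Lac.nn_le_of zero_le_one (by rw [one_pow]; exact h1)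
  have hfl : ∀ z, ‖z‖ < 1 → δ ≤ nn (F z) := by
    intro z hz
    have h1 := (hfb _ (ball_ofLp hz)).1
    unfold nn
    exact Real.le_sqrt_of_sq_le h1
  have hl00 : (0:ℝ) < l 0 := by exact_mod_cast (by omega : 0 < l 0)
  have hterm : (d : ℝ) ≤ c * l 0 := by
    have h1 := hgap 1
    rw [Finset.sum_range_one] at h1
    change Real.sqrt (d : ℝ) / Real.sqrt (l 0) ≤ _ at h1
    rw [div_le_iff₀ (Real.sqrt_pos.2 hl00)] at h1
    have h2 := pow_le_pow_left₀ (Real.sqrt_nonneg _) h1 2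
    rw [mul_pow, Real.sq_sqrt hl00.le, Real.sq_sqrt (Nat.cast_nonneg _)] at h2
    refine h2.trans (mul_le_mul_of_nonneg_right ?_ hl00.le)
    nlinarith
  -- the first polynomial
  set p0 : Fin N → MP n := fun j => ∑ k ∈ Finset.range (d + 1), P k j with hp0
  have hp0e : ∀ z : Fin n → ℂ, ∀ j, eval z (p0 j) = Fb d K l (HH P) 0 (WithLp.toLp 2 z) j := by
    intro z j
    rw [hp0]
    simp only [map_sum]
    rfl
  have hp0R : ∀ j, Rg 0 d (p0 j) := by
    intro j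
    refine Rg.sum _ _ fun k hk => ?_
    intro s hs'
    refine ⟨Nat.zero_le _, ?_⟩
    have h1 := hP k j hs'
    have h2 : s.degree = k := by
      rw [← h1, Finsupp.weight_apply, Finsupp.sum_fintype, Finsupp.degree_eq_sum]
      · simp
      · simp
    rw [h2]
    rw [Finset.mem_range] at hk
    omega
  have hp0b : ∀ z ∈ Bal n, (δ / 2) ^ 2 ≤ nsq (ev p0 z) ∧ nsq (ev p0 z) ≤ 4 := by
    intro z hz
    have h1 := hfro d (l 0) hd hld hterm n (HH P) F D.Hd D.Hs D.fb hfl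
      (fun k hk hk' z j => D.gap 0 hk hk' z j) (WithLp.toLp 2 z) (toLp_lt hz)
    have e0 : (fun j => cut d (fun k z => HH P k z j) (WithLp.toLp 2 z)) = ev p0 z := by
      funext j
      have e1 := hp0e z j
      exact e1.symm
    rw [e0] at h1
    have h8 := nn_nonneg (ev p0 z)
    rw [← nn_sq]
    constructor
    · nlinarith
    · nlinarith
  obtain ⟨h0, hs0, hb0⟩ := hΛ p0 hp0R hp0b
  obtain ⟨g, g1, g2, g3⟩ := hmain l (HH P) F D hfl (fun I => (hgap I).trans hc2a) hSb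
    (fun z j => eval z.ofLp (h0 j)) (fun j => (eval_diff (h0 j)).comp
      ((PiLp.continuousLinearEquiv 2 ℂ (fun _ : Fin n => ℂ))).differentiable)
    (fun z hz j => by
      refine (hs0.bd (ball_ofLp hz) j).trans ?_
      rw [hB0]
      have : 0 ≤ ((FD n d).card : ℝ) * Λ := by positivity
      linarith)
    (fun z hz => by
      have h1 := hb0 _ (ball_ofLp hz)
      refine le_trans (le_of_eq ?_) h1
      have e : ∑ j, Fb d K l (HH P) 0 z j * eval z.ofLp (h0 j) =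
          bd (ev p0 z.ofLp) (ev h0 z.ofLp) := by
        unfold bd
        refine Finset.sum_congr rfl fun j _ => ?_
        have e1 := hp0e z.ofLp j
        have e2 : (WithLp.toLp 2 z.ofLp : E n) = z := rfl
        rw [e2] at e1
        rw [← e1]
        rfl
      rw [e])
  exact ⟨g, g1, g2, fun z hz => g3 z hz⟩

end Pool.Agent.K9h23.Bnd
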