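import Mathlib
import Pool.Agent.K9h23.Bnd.Res

/-!
The corona theorem for polynomials whose degrees are in finitely many bands, without gaps.
-/

set_option autoImplicit false

open Complex Set Metric Filter Topology MvPolynomial
open scoped Real

namespace Pool.Agent.K9h23.Bnd

open Pool.Agent.K9h23.Hom
open Pool.Agent.K9h23.Lac (nsq nsq_nonneg nsq_cont nsq_c nn nn_nonneg nn_sq nn_add_le le_nsq
  nsq_smul' bd bd_le_nn comp_le_nn nsq_conj nn_le_comp Bal isOpen_Bal MP Rg Sz ev bez_unif FD)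

variable {n N : ℕ}

/-- the degrees are at most `d` or in the bands -/
def InB (d K : ℕ) (T : Finset ℕ) (p : Fin N → MP n) : Prop :=
  ∀ k, d < k → (∀ l ∈ T, ¬ (l ≤ k ∧ k ≤ K * l)) → ∀ j, homogeneousComponent k (p j) = 0

/-- bounded solutions -/
def SolB (C : ℝ) (p : Fin N → MP n) : Prop :=
  ∃ g : Fin N → (Fin n → ℂ) → ℂ, (∀ j, DifferentiableOn ℂ (g j) (Bal n)) ∧
      (∀ z ∈ Bal n, ∀ j, ‖g j z‖ ≤ C) ∧ ∀ z ∈ Bal n, ∑ j, eval z (p j) * g j z = 1

/-- normalised data -/
def Nb (δ : ℝ) (p : Fin N → MP n) : Prop :=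
  ∀ z ∈ Bal n, δ ^ 2 ≤ nsq (ev p z) ∧ nsq (ev p z) ≤ 1

theorem SolB.mono {C C' : ℝ} {p : Fin N → MP n} (h : SolB C p) (hC : C ≤ C') : SolB C' p := by
  obtain ⟨g, h1, h2, h3⟩ := h
  exact ⟨g, h1, fun z hz j => (h2 z hz j).trans hC, h3⟩

theorem InB.mono {d d' K K' : ℕ} {T : Finset ℕ} {p : Fin N → MP n} (h : InB d K T p)
    (hd : d ≤ d') (hK : K ≤ K') : InB d' K' T p := fun k hk hkl j =>
  h k (by omega) (fun l hl hl' => hkl l hl ⟨hl'.1, hl'.2.trans (Nat.mul_le_mul_right _ hK)⟩) j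

/-- the enumeration of `T`, continued by very sparse numbers -/
noncomputable def enu (T : Finset ℕ) (X V : ℕ) (i : ℕ) : ℕ :=
  if h : i < T.card then T.orderEmbOfFin rfl ⟨i, h⟩ else X * V ^ ((i + 1) ^ 2)

theorem enu_mem {T : Finset ℕ} {X V i : ℕ} (h : i < T.card) : enu T X V i ∈ T := by
  unfold enu
  rw [dif_pos h]
  exact Finset.orderEmbOfFin_mem _ _ _

theorem enu_surj {T : Finset ℕ} {X V l : ℕ} (h : l ∈ T) : ∃ i, i < T.card ∧ enu T X V i = l := by
  have h1 : l ∈ Set.range (T.orderEmbOfFin rfl) := by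
    rw [Finset.range_orderEmbOfFin]; exact h
  obtain ⟨⟨i, hi⟩, h2⟩ := h1
  refine ⟨i, hi, ?_⟩
  unfold enu
  rw [dif_pos hi]
  exact h2

theorem enu_lt {T : Finset ℕ} {X V i : ℕ} (h : i + 1 < T.card) :
    enu T X V i < enu T X V (i + 1) := by
  unfold enu
  rw [dif_pos h, dif_pos (by omega)]
  exact (T.orderEmbOfFin rfl).strictMono (by simp)

theorem enu_tail {T : Finset ℕ} {X V i : ℕ} (h : T.card ≤ i) :
    enu T X V i = X * V ^ ((i + 1) ^ 2) := by
  unfold enu
  rw [dif_neg (by omega)]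

/-- the arithmetic of the enumeration -/
theorem enu_gap {T : Finset ℕ} {X d K R : ℕ} (_hd : 1 ≤ d) (hK : 1 ≤ K) (hR : 1 ≤ R)
    (h1 : ∀ l ∈ T, R * d ≤ l) (h2 : ∀ l ∈ T, ∀ l' ∈ T, l < l' → R * (K * l) ≤ l')
    (hX : ∀ l ∈ T, K * l ≤ X) (hXd : d ≤ X) (i : ℕ) :
    (i < T.card → R * Db d K (enu T X (4 * K * R)) i ≤ enu T X (4 * K * R) i) ∧
    (T.card ≤ i → R * 4 ^ i * Db d K (enu T X (4 * K * R)) i ≤ enu T X (4 * K * R) i) := by
  set V := 4 * K * R with hV
  have hV4 : 4 ≤ V := by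
    rw [hV]
    calc 4 = 4 * 1 * 1 := by norm_num
      _ ≤ 4 * K * R := Nat.mul_le_mul (Nat.mul_le_mul_left _ hK) hR
  have hVR : K * R ≤ V := by
    rw [hV, mul_assoc]
    omega
  have hVR1 : R ≤ V := le_trans (Nat.le_mul_of_pos_left _ hK) hVR
  constructor
  · intro hi
    cases i with
    | zero => exact h1 _ (enu_mem hi)
    | succ i =>
      exact h2 _ (enu_mem (by omega)) _ (enu_mem hi) (enu_lt hi)
  · intro hi
    rw [enu_tail hi]
    have hp : R * 4 ^ i ≤ V ^ (i + 1) := by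
      rw [pow_succ, mul_comm R]
      exact Nat.mul_le_mul (Nat.pow_le_pow_left hV4 i) hVR1
    have hp2 : V ^ (i + 1) ≤ V ^ ((i + 1) ^ 2) := Nat.pow_le_pow_right (by omega) (by nlinarith)
    have hcase : Db d K (enu T X V) i ≤ X → R * 4 ^ i * Db d K (enu T X V) i ≤
        X * V ^ ((i + 1) ^ 2) := fun h => by
      calc R * 4 ^ i * Db d K (enu T X V) i ≤ V ^ ((i + 1) ^ 2) * X :=
            Nat.mul_le_mul (hp.trans hp2) h
        _ = _ := Nat.mul_comm _ _
    cases i with
    | zero => exact hcase hXd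
    | succ i =>
      rcases Nat.lt_or_ge i T.card with h | h
      · exact hcase (hX _ (enu_mem h))
      · change R * 4 ^ (i + 1) * (K * enu T X V i) ≤ _
        rw [enu_tail h]
        have h3 : V ^ ((i + 1 + 1) ^ 2) = V ^ ((i + 1) ^ 2) * (V ^ (i + 1) * V ^ (i + 2)) := by
          rw [← pow_add, ← pow_add]
          congr 1
          ring
        have h4 : K * (R * 4 ^ (i + 1)) ≤ V ^ (i + 1) * V ^ (i + 2) := by
          have h5 : K ≤ V := le_trans (Nat.le_mul_of_pos_right _ hR) hVR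
          have h6 : K * (R * 4 ^ (i + 1)) ≤ V * (V ^ (i + 1 + 1)) := Nat.mul_le_mul h5 hp
          refine h6.trans ?_
          refine Nat.mul_le_mul ?_ le_rfl
          calc V = V ^ 1 := (pow_one _).symm
            _ ≤ V ^ (i + 1) := Nat.pow_le_pow_right (by omega) (by omega)
        calc R * 4 ^ (i + 1) * (K * (X * V ^ ((i + 1) ^ 2))) =
              X * V ^ ((i + 1) ^ 2) * (K * (R * 4 ^ (i + 1))) := by ring
          _ ≤ X * V ^ ((i + 1) ^ 2) * (V ^ (i + 1) * V ^ (i + 2)) := Nat.mul_le_mul_left _ h4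
          _ = _ := by rw [h3]; ring

theorem sum_ite_le {a : ℝ} (ha : 0 ≤ a) (m I : ℕ) :
    ∑ i ∈ Finset.range I, (if i < m then a else 0) ≤ m * a := by
  rw [← Finset.sum_filter, Finset.sum_const, nsmul_eq_mul]
  refine mul_le_mul_of_nonneg_right ?_ ha
  have h1 : (Finset.range I).filter (fun i => i < m) ⊆ Finset.range m := fun i hi => by
    rw [Finset.mem_filter] at hi
    exact Finset.mem_range.2 hi.2
  have h2 := Finset.card_le_card h1
  rw [Finset.card_range] at h2
  exact_mod_cast h2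

theorem hasSum_comp (p : MP n) (z : Fin n → ℂ) :
    HasSum (fun k => eval z (homogeneousComponent k p)) (eval z p) := by
  have h1 := hasSum_sum_of_ne_finset_zero (f := fun k => eval z (homogeneousComponent k p))
    (s := Finset.range (p.totalDegree + 1)) (L := .unconditional ℕ) (fun k hk => by
      rw [Finset.mem_range] at hk
      rw [homogeneousComponent_eq_zero k p (by omega), map_zero])
  rw [← map_sum, sum_homogeneousComponent] at h1
  exact h1

/-- separated bands -/
theorem good (n N m d K : ℕ) (hd : 1 ≤ d) (hK : 1 ≤ K) {δ : ℝ} (hδ : 0 < δ) (hδ1 : δ ≤ 1) :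
    ∃ R : ℕ, 1 ≤ R ∧ ∃ C : ℝ, ∀ T : Finset ℕ, T.card ≤ m → (∀ l ∈ T, R * d ≤ l) →
      (∀ l ∈ T, ∀ l' ∈ T, l < l' → R * (K * l) ≤ l') → ∀ p : Fin N → MP n, InB d K T p →
      Nb δ p → SolB C p := by
  obtain ⟨cf, hcf, hcf1, hfro⟩ := fro N hδ hδ1
  obtain ⟨c, hc, hc5, C, hfin⟩ := final0 n N d K hd hK hδ hδ1 (S := m * (N * 4)) (by positivity)
  obtain ⟨R1, hR1⟩ := exists_nat_ge (((m + 2) / c) ^ 2)
  obtain ⟨R2, hR2⟩ := exists_nat_ge (1 / cf)
  set R : ℕ := R1 + R2 + 2 with hR
  have hRa : ((m + 2) / c) ^ 2 ≤ (R:ℝ) := by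
    rw [hR]
    push_cast
    have : (0:ℝ) ≤ R2 := Nat.cast_nonneg _
    linarith
  have hRb : 1 / cf ≤ (R:ℝ) := by
    rw [hR]
    push_cast
    have : (0:ℝ) ≤ R1 := Nat.cast_nonneg _
    linarith
  have hR0 : (0:ℝ) < R := by
    rw [hR]
    positivity
  have hsR : 0 < Real.sqrt R := Real.sqrt_pos.2 hR0
  have hRc : (m + 2) / Real.sqrt R ≤ c := by
    rw [div_le_iff₀ hsR]
    have h1 : (m + 2) / c ≤ Real.sqrt R := Real.le_sqrt_of_sq_le hRa
    rw [div_le_iff₀ hc] at h1
    linarith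
  refine ⟨R, by omega, C, fun T hT h1 h2 p hp hb => ?_⟩
  set X : ℕ := K * T.sup id + d with hX
  have hX1 : ∀ l ∈ T, K * l ≤ X := fun l hl => by
    have : l ≤ T.sup id := Finset.le_sup (f := id) hl
    have := Nat.mul_le_mul_left K this
    omega
  have hX2 : d ≤ X := by omega
  set l : ℕ → ℕ := enu T X (4 * K * R) with hl
  have hgap := fun i => enu_gap hd hK (by omega : 1 ≤ R) h1 h2 hX1 hX2 i
  rw [← hl] at hgap
  have hpos : ∀ i, 1 ≤ l i := by
    intro i
    rcases Nat.lt_or_ge i T.card with h | h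
    · have h3 := h1 _ (enu_mem (X := X) (V := 4 * K * R) h)
      have h4 : 1 * 1 ≤ R * d := Nat.mul_le_mul (by omega) hd
      rw [← hl] at h3
      omega
    · rw [hl, enu_tail h]
      refine Nat.mul_pos (by omega) (Nat.pow_pos ?_)
      positivity
  have hDb1 : ∀ i, 1 ≤ Db d K l i := by
    intro i
    cases i with
    | zero => exact hd
    | succ i => exact Nat.mul_pos hK (hpos i)
  have hgap2 : ∀ i, R * Db d K l i ≤ l i := by
    intro i
    rcases Nat.lt_or_ge i T.card with h | h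
    · exact (hgap i).1 h
    · refine le_trans ?_ ((hgap i).2 h)
      refine Nat.mul_le_mul_right _ ?_
      exact Nat.le_mul_of_pos_right _ (by positivity)
  have hDl : ∀ i, Db d K l i < l i := by
    intro i
    have h3 := hgap2 i
    have h4 := hDb1 i
    have h5 : 2 * Db d K l i ≤ R * Db d K l i := Nat.mul_le_mul_right _ (by omega)
    omega
  have hld : d < l 0 := hDl 0
  have hll : ∀ i, K * l i < l (i + 1) := fun i => hDl (i + 1)
  have hlK : ∀ i, l i ≤ K * l i := fun i => Nat.le_mul_of_pos_left _ hK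
  -- the homogeneous terms
  set P : ℕ → Fin N → MP n := fun k j => homogeneousComponent k (p j) with hP
  have hPh : ∀ k j, (P k j).IsHomogeneous k := fun k j => homogeneousComponent_isHomogeneous _ _
  have hsp : ∀ k, d < k → (∀ i, ¬ (l i ≤ k ∧ k ≤ K * l i)) → ∀ j, P k j = 0 := by
    intro k hk hkl j
    refine hp k hk (fun t ht ht' => ?_) j
    obtain ⟨i, _, hi⟩ := enu_surj (X := X) (V := 4 * K * R) ht
    rw [← hl] at hi
    exact hkl i (by rw [hi]; exact ht')
  have hsp2 : ∀ k i, T.card ≤ i → l i ≤ k → ∀ j, P k j = 0 := by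
    intro k i hi hk j
    have h3 : X < l i := by
      rw [hl, enu_tail hi]
      have h4 : 4 * 1 * 1 ≤ 4 * K * R := Nat.mul_le_mul (Nat.mul_le_mul_left _ hK) (by omega)
      have h5 : 1 < (4 * K * R) ^ ((i + 1) ^ 2) := Nat.one_lt_pow (by positivity) (by omega)
      exact lt_mul_of_one_lt_right (by omega) h5
    refine hp k (by omega) (fun t ht ht' => ?_) j
    have h4 := hX1 t ht
    omega
  have hsum : ∀ z ∈ Bal n, ∀ j, HasSum (fun k => eval z (P k j)) (eval z (p j)) :=
    fun z _ j => hasSum_comp (p j) z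
  -- the gaps
  have hterm : ∀ i, Real.sqrt (Db d K l i) / Real.sqrt (l i) ≤
      (if i < m then 1 / Real.sqrt R else 0) + 1 / Real.sqrt R * (1 / 2) ^ i := by
    intro i
    have hli : (0:ℝ) < l i := by exact_mod_cast hpos i
    have hsli : 0 < Real.sqrt (l i) := Real.sqrt_pos.2 hli
    rcases Nat.lt_or_ge i T.card with h | h
    · rw [if_pos (by omega)]
      have h3 : (R:ℝ) * Db d K l i ≤ l i := by exact_mod_cast (hgap i).1 h
      have h4 : Real.sqrt R * Real.sqrt (Db d K l i) ≤ Real.sqrt (l i) := by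
        rw [← Real.sqrt_mul hR0.le]
        exact Real.sqrt_le_sqrt h3
      have h5 : Real.sqrt (Db d K l i) / Real.sqrt (l i) ≤ 1 / Real.sqrt R := by
        rw [div_le_div_iff₀ hsli hsR]
        linarith
      have h6 : 0 ≤ 1 / Real.sqrt R * (1 / 2) ^ i := by positivity
      linarith
    · have h3 : (R:ℝ) * 4 ^ i * Db d K l i ≤ l i := by exact_mod_cast (hgap i).2 h
      have h4 : Real.sqrt R * 2 ^ i * Real.sqrt (Db d K l i) ≤ Real.sqrt (l i) := by
        have h5 : Real.sqrt ((R:ℝ) * 4 ^ i * Db d K l i) =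
            Real.sqrt R * 2 ^ i * Real.sqrt (Db d K l i) := by
          rw [Real.sqrt_mul (by positivity), Real.sqrt_mul hR0.le]
          congr 2
          rw [show (4:ℝ) = 2 ^ 2 by norm_num, ← pow_mul, mul_comm 2 i, pow_mul,
            Real.sqrt_sq (by positivity)]
        rw [← h5]
        exact Real.sqrt_le_sqrt h3
      have h5 : Real.sqrt (Db d K l i) / Real.sqrt (l i) ≤ 1 / Real.sqrt R * (1 / 2) ^ i := by
        rw [one_div_pow, one_div_mul_one_div, div_le_div_iff₀ hsli (by positivity)]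
        linarith
      have h6 : (0:ℝ) ≤ (if i < m then 1 / Real.sqrt R else 0) := by
        split_ifs <;> positivity
      linarith
  have hgs : ∀ I, ∑ i ∈ Finset.range I, Real.sqrt (Db d K l i) / Real.sqrt (l i) ≤ c := by
    intro I
    refine (Finset.sum_le_sum fun i _ => hterm i).trans ?_
    rw [Finset.sum_add_distrib, ← Finset.mul_sum]
    have h3 := sum_ite_le (a := 1 / Real.sqrt R) (by positivity) m I
    have h4 := geom_le (q := (1 / 2 : ℝ)) (by norm_num) (by norm_num) I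
    have h5 : 1 / Real.sqrt R * ∑ i ∈ Finset.range I, (1 / 2 : ℝ) ^ i ≤ 1 / Real.sqrt R * 2 := by
      refine mul_le_mul_of_nonneg_left ?_ (by positivity)
      norm_num at h4 ⊢
      exact h4
    refine le_trans (le_trans (add_le_add h3 h5) (le_of_eq ?_)) hRc
    ring
  -- the abstract data
  set F : E n → Fin N → ℂ := fun z j => eval z.ofLp (p j) with hF
  have D : DB d K l (HH P) F := by
    refine ⟨fun k j => HH_Hm hPh k j, fun z hz j => hsum _ (ball_ofLp hz) j,
      fun k hk hkl z j => ?_, fun z hz => ?_, hd, hK, hld, hll⟩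
    · unfold HH
      rw [hsp k hk hkl j, map_zero]
    · have h1 := (hb _ (ball_ofLp hz)).2
      exact Pool.Agent.K9h23.Lac.nn_le_of zero_le_one (by rw [one_pow]; exact h1)
  have hfl : ∀ z, ‖z‖ < 1 → δ ≤ nn (F z) := by
    intro z hz
    have h1 := (hb _ (ball_ofLp hz)).1
    unfold nn
    exact Real.le_sqrt_of_sq_le h1
  have hFb : ∀ i z, ‖z‖ < 1 → nn (Fb d K l (HH P) i z) ≤ 2 := by
    intro i z hz
    refine (hfro (Db d K l i) (l i) (hDb1 i) (hDl i) ?_ n (HH P) F D.Hd D.Hs D.fb hfl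
      (fun k hk hk' z j => D.gap i hk hk' z j) z hz).2
    have h3 : (R:ℝ) * Db d K l i ≤ l i := by exact_mod_cast hgap2 i
    have h4 : 1 ≤ cf * R := by
      rw [div_le_iff₀ hcf] at hRb
      linarith
    have h5 : (0:ℝ) ≤ Db d K l i := Nat.cast_nonneg _
    nlinarith
  have hQS : ∀ z : E n, ‖z‖ < 1 → ∀ I, ∑ i ∈ Finset.range I, ∑ a, ‖Qb K l (HH P) i z a‖ ≤
      m * (N * 4) := by
    intro z hz I
    refine le_trans (Finset.sum_le_sum fun i _ => ?_) (sum_ite_le (a := (N:ℝ) * 4)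
      (by positivity) m I)
    rcases Nat.lt_or_ge i T.card with h | h
    · rw [if_pos (by omega)]
      refine (Finset.sum_le_card_nsmul _ _ 4 fun a _ => ?_).trans (le_of_eq ?_)
      · have e : Qb K l (HH P) i z a = Fb d K l (HH P) (i + 1) z a - Fb d K l (HH P) i z a := by
          rw [D.succ]; ring
        rw [e]
        refine (norm_sub_le _ _).trans ?_
        have h1 := (comp_le_nn _ a).trans (hFb (i + 1) z hz)
        have h2 := (comp_le_nn _ a).trans (hFb i z hz)
        linarith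
      · rw [nsmul_eq_mul, Finset.card_univ, Fintype.card_fin]
    · refine le_trans (le_of_eq ?_) (show (0:ℝ) ≤ _ by split_ifs <;> positivity)
      refine Finset.sum_eq_zero fun a _ => ?_
      unfold Qb HH
      rw [Finset.sum_eq_zero, norm_zero]
      intro k hk
      rw [Finset.mem_Icc] at hk
      rw [hsp2 k i h hk.1 a, map_zero]
  exact hfin l P (fun j z => eval z (p j)) hld hll hPh hsp (fun z hz j => hsum z hz j) hb hgs hQS

/-- **Finitely many bands.** -/
theorem fin_bands (n N m : ℕ) {δ : ℝ} (hδ : 0 < δ) (hδ1 : δ ≤ 1) : ∀ d K : ℕ,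
    ∃ C : ℝ, ∀ T : Finset ℕ, T.card ≤ m → ∀ p : Fin N → MP n, InB d K T p → Nb δ p →
      SolB C p := by
  induction m with
  | zero =>
    intro d K
    obtain ⟨R, hR, C, hC⟩ := good n N 0 (d + 1) (K + 1) (by omega) (by omega) hδ hδ1
    refine ⟨C, fun T hT p hp hb => hC T hT (fun l hl => ?_) (fun l hl => ?_) p
      (hp.mono (by omega) (by omega)) hb⟩
    · rw [Finset.card_eq_zero.1 (Nat.le_zero.1 hT)] at hl
      simp at hl
    · rw [Finset.card_eq_zero.1 (Nat.le_zero.1 hT)] at hl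
      simp at hl
  | succ m ih =>
    intro d K
    obtain ⟨R, hR, C0, hC0⟩ := good n N (m + 1) (d + 1) (K + 1) (by omega) (by omega) hδ hδ1
    obtain ⟨C1, hC1⟩ := ih ((K + 1) * (R * (d + 1))) (K + 1)
    obtain ⟨C2, hC2⟩ := ih (d + 1) ((K + 1) * (R * (K + 1)))
    refine ⟨max C0 (max C1 C2), fun T hT p hp hb => ?_⟩
    have hp' : InB (d + 1) (K + 1) T p := hp.mono (by omega) (by omega)
    by_cases h1 : ∀ l ∈ T, R * (d + 1) ≤ l
    · by_cases h2 : ∀ l ∈ T, ∀ l' ∈ T, l < l' → R * ((K + 1) * l) ≤ l'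
      · exact (hC0 T hT h1 h2 p hp' hb).mono (le_max_left _ _)
      · push Not at h2
        obtain ⟨l, hl, l', hl', hll, h3⟩ := h2
        refine (hC2 (T.erase l') ?_ p (fun k hk hkl j => ?_) hb).mono
          ((le_max_right _ _).trans (le_max_right _ _))
        · rw [Finset.card_erase_of_mem hl']
          omega
        · refine hp' k hk (fun t ht ht' => ?_) j
          by_cases htl : t = l'
          · subst htl
            refine hkl l (Finset.mem_erase.2 ⟨hll.ne, hl⟩) ⟨by omega, ht'.2.trans ?_⟩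
            calc (K + 1) * t ≤ (K + 1) * (R * ((K + 1) * l)) := Nat.mul_le_mul_left _ h3.le
              _ = _ := by ring
          · refine hkl t (Finset.mem_erase.2 ⟨htl, ht⟩) ⟨ht'.1, ht'.2.trans ?_⟩
            refine Nat.mul_le_mul_right _ ?_
            exact Nat.le_mul_of_pos_right _ (Nat.mul_pos hR (by omega))
    · push Not at h1
      obtain ⟨l, hl, h3⟩ := h1
      refine (hC1 (T.erase l) ?_ p (fun k hk hkl j => ?_) hb).mono
          ((le_max_left _ _).trans (le_max_right _ _))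
      · rw [Finset.card_erase_of_mem hl]
        omega
      · have h4 : d + 1 ≤ (K + 1) * (R * (d + 1)) :=
          (Nat.le_mul_of_pos_left _ hR).trans (Nat.le_mul_of_pos_left _ (by omega))
        refine hp' k (by omega) (fun t ht ht' => ?_) j
        by_cases htl : t = l
        · subst htl
          have h5 : (K + 1) * t ≤ (K + 1) * (R * (d + 1)) := Nat.mul_le_mul_left _ h3.le
          omega
        · exact hkl t (Finset.mem_erase.2 ⟨htl, ht⟩) ht'

end Pool.Agent.K9h23.Bnd
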